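import Pool.Agent.MWg.Chain

/-!
# MWg.Tools: small combinatorial tools for the verifications

`pairs_eq_sum_left/right`: `Finset.card_filter` and `Finset.sum_product(_right)`.
`val_lin`: induction on the list. `list_fin`: `x i = l.get (i.cast ..)`, `List.sum_ofFn`,
`List.ofFn_get` (or induction on `l` with `Fin.cons`).
`exists_scale`: for `y ≥ 4^k` choose the largest `r` with `4^k (2^r)^k ≤ y`; then
`y < 4^k (2^(r+1))^k = 8^k (2^r)^k`. Since `r` tends to infinity with `y`: if `y ≥ 8^k (2^R)^k` then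
`r ≥ R`.
-/

namespace MWg

open Filter Topology

theorem pairs_eq_sum_right {ι : Type*} (W : Finset ι) (p : ι × ι → Prop) :
    pairs W p = ∑ w' ∈ W, ((open Classical in (W.filter fun w => p (w, w')).card : ℕ) : ℝ) := by
  classical
  unfold pairs
  rw [Finset.card_filter, Finset.sum_product_right]
  push_cast
  refine Finset.sum_congr rfl fun w' _ => ?_
  rw [Finset.card_filter]
  push_cast
  rfl

theorem pairs_mono {ι : Type*} (W : Finset ι) {p p' : ι × ι → Prop}
    (h : ∀ w ∈ W, ∀ w' ∈ W, p (w, w') → p' (w, w')) : pairs W p ≤ pairs W p' := by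
  classical
  unfold pairs
  have h1 : (W ×ˢ W).filter p ⊆ (W ×ˢ W).filter p' := by
    intro x hx
    rw [Finset.mem_filter, Finset.mem_product] at hx ⊢
    exact ⟨hx.1, h x.1 hx.1.1 x.2 hx.1.2 hx.2⟩
  exact_mod_cast Finset.card_le_card h1

/-- Upper bound for pairs of pairs: `W = A ×ˢ B`. -/
theorem pairs_prod_le {α β : Type*} (A : Finset α) (B : Finset β) (p : (α × β) × (α × β) → Prop)
    (p1 : α → α × β → β → Prop) (p2 : β → α × β → Prop) (K1 K2 : ℝ) (hK1 : 0 ≤ K1) (hK2 : 0 ≤ K2)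
    (hp : ∀ w ∈ A, ∀ z ∈ B, ∀ s ∈ A ×ˢ B, p ((w, z), s) → p1 w s z ∧ p2 z s)
    (h1 : ∀ s ∈ A ×ˢ B, ∀ z ∈ B,
      ((open Classical in (A.filter fun w => p1 w s z).card : ℕ) : ℝ) ≤ K1)
    (h2 : ∀ s ∈ A ×ˢ B, ((open Classical in (B.filter fun z => p2 z s).card : ℕ) : ℝ) ≤ K2) :
    pairs (A ×ˢ B) p ≤ ((A.card : ℝ) * B.card) * K1 * K2 := by
  classical
  rw [pairs_eq_sum_right]
  have hs : ∀ s ∈ A ×ˢ B, ((((A ×ˢ B).filter fun w => p (w, s)).card : ℕ) : ℝ) ≤ K1 * K2 := by
    intro s hs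
    have hsub : ((A ×ˢ B).filter fun w => p (w, s)) ⊆
        (B.filter fun z => p2 z s).biUnion fun z =>
          (A.filter fun w => p1 w s z).image fun w => (w, z) := by
      intro x hx
      rw [Finset.mem_filter, Finset.mem_product] at hx
      rw [Finset.mem_biUnion]
      have h3 := hp x.1 hx.1.1 x.2 hx.1.2 s hs hx.2
      exact ⟨x.2, Finset.mem_filter.2 ⟨hx.1.2, h3.2⟩, Finset.mem_image.2
        ⟨x.1, Finset.mem_filter.2 ⟨hx.1.1, h3.1⟩, rfl⟩⟩
    have h4 : ((A ×ˢ B).filter fun w => p (w, s)).card ≤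
        ∑ z ∈ B.filter (fun z => p2 z s), (A.filter fun w => p1 w s z).card := by
      refine (Finset.card_le_card hsub).trans (Finset.card_biUnion_le.trans ?_)
      exact Finset.sum_le_sum fun z _ => Finset.card_image_le
    have h5 : ((((A ×ˢ B).filter fun w => p (w, s)).card : ℕ) : ℝ) ≤
        ∑ z ∈ B.filter (fun z => p2 z s), (((A.filter fun w => p1 w s z).card : ℕ) : ℝ) := by
      exact_mod_cast h4
    have h6 : ∑ z ∈ B.filter (fun z => p2 z s), (((A.filter fun w => p1 w s z).card : ℕ) : ℝ) ≤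
        ∑ z ∈ B.filter (fun z => p2 z s), K1 := by
      refine Finset.sum_le_sum fun z hz => ?_
      have := h1 s hs z (Finset.mem_filter.1 hz).1
      convert this
    rw [Finset.sum_const, nsmul_eq_mul] at h6
    have h7 : (((B.filter fun z => p2 z s).card : ℕ) : ℝ) ≤ K2 := by
      have := h2 s hs
      convert this
    calc ((((A ×ˢ B).filter fun w => p (w, s)).card : ℕ) : ℝ)
        ≤ (((B.filter fun z => p2 z s).card : ℕ) : ℝ) * K1 := h5.trans h6
      _ ≤ K2 * K1 := mul_le_mul_of_nonneg_right h7 hK1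
      _ = K1 * K2 := mul_comm _ _
  calc ∑ w' ∈ A ×ˢ B, ((((A ×ˢ B).filter fun w => p (w, w')).card : ℕ) : ℝ)
      ≤ ∑ w' ∈ A ×ˢ B, K1 * K2 := Finset.sum_le_sum hs
    _ = ((A.card : ℝ) * B.card) * K1 * K2 := by
        rw [Finset.sum_const, nsmul_eq_mul, Finset.card_product]
        push_cast
        ring

/-- Lower bound for pairs of pairs: `W = A ×ˢ B`. -/
theorem pairs_prod_ge {α β : Type*} (A : Finset α) (B : Finset β) (p : (α × β) × (α × β) → Prop)
    (G : α → Prop) (K G0 : ℝ) (hK : 0 ≤ K)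
    (hG : G0 ≤ ((open Classical in (A.filter fun w' => G w').card : ℕ) : ℝ))
    (h : ∀ w' ∈ A, G w' → ∀ z ∈ B, ∀ z' ∈ B,
      K ≤ ((open Classical in (A.filter fun w => p ((w, z), (w', z'))).card : ℕ) : ℝ)) :
    G0 * (B.card : ℝ) ^ 2 * K ≤ pairs (A ×ˢ B) p := by
  classical
  rw [pairs_eq_sum_right, Finset.sum_product]
  have h1 : ∀ w' ∈ A, G w' → ∀ z' ∈ B, (B.card : ℝ) * K ≤
      ((((A ×ˢ B).filter fun w => p (w, (w', z'))).card : ℕ) : ℝ) := by
    intro w' hw' hGw z' hz'
    have e1 : ((((A ×ˢ B).filter fun w => p (w, (w', z'))).card : ℕ) : ℝ) =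
        ∑ z ∈ B, (((A.filter fun w => p ((w, z), (w', z'))).card : ℕ) : ℝ) := by
      rw [Finset.card_filter, Finset.sum_product_right]
      push_cast
      refine Finset.sum_congr rfl fun z _ => ?_
      rw [Finset.card_filter]
      push_cast
      rfl
    rw [e1]
    calc (B.card : ℝ) * K = ∑ z ∈ B, K := by rw [Finset.sum_const, nsmul_eq_mul]
      _ ≤ _ := by
          refine Finset.sum_le_sum fun z hz => ?_
          have := h w' hw' hGw z hz z' hz'
          convert this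
  have h2 : ∑ w' ∈ A.filter G, ∑ z' ∈ B, (B.card : ℝ) * K ≤
      ∑ w' ∈ A, ∑ z' ∈ B, ((((A ×ˢ B).filter fun w => p (w, (w', z'))).card : ℕ) : ℝ) := by
    calc ∑ w' ∈ A.filter G, ∑ z' ∈ B, (B.card : ℝ) * K
        ≤ ∑ w' ∈ A.filter G, ∑ z' ∈ B,
          ((((A ×ˢ B).filter fun w => p (w, (w', z'))).card : ℕ) : ℝ) := by
          refine Finset.sum_le_sum fun w' hw' => Finset.sum_le_sum fun z' hz' => ?_
          exact h1 w' (Finset.mem_filter.1 hw').1 (Finset.mem_filter.1 hw').2 z' hz'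
      _ ≤ _ := by
          refine Finset.sum_le_sum_of_subset_of_nonneg (Finset.filter_subset _ _) ?_
          intro w' _ _
          exact Finset.sum_nonneg fun z' _ => Nat.cast_nonneg _
  refine le_trans ?_ h2
  rw [Finset.sum_const, Finset.sum_const, nsmul_eq_mul, nsmul_eq_mul]
  have h3 : G0 ≤ (((A.filter G).card : ℕ) : ℝ) := by
    convert hG
  have h4 : 0 ≤ (B.card : ℝ) * ((B.card : ℝ) * K) := by positivity
  nlinarith [mul_le_mul_of_nonneg_right h3 h4]

theorem val_lin (f g h e : ℕ → ℝ) (t : ℝ) (w : List (ℕ × ℕ)) :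
    val f h w + t * val g e w = val (fun x => f x + t * g x) (fun x => h x + t * e x) w := by
  induction w with
  | nil => simp [val]
  | cons a l ih =>
    simp only [val, List.map_cons, List.sum_cons] at ih ⊢
    rw [← ih]
    ring

theorem list_fin (l : List ℕ) {m : ℕ} (hm : l.length = m) :
    ∃ x : Fin m → ℕ, (∀ i, x i ∈ l) ∧ ∀ F : ℕ → ℝ, ∑ i, F (x i) = (l.map F).sum := by
  subst hm
  refine ⟨fun i => l.get i, fun i => List.get_mem l i, fun F => ?_⟩
  have h1 : l.map F = List.ofFn fun i : Fin l.length => F (l.get i) := by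
    rw [← Function.comp_def F l.get, ← List.map_ofFn, List.ofFn_get]
  rw [h1, List.sum_ofFn]

theorem XX_tendsto : Tendsto XX atTop atTop := tendsto_pow_atTop_atTop_of_one_lt (by norm_num)

theorem XX_pos (r : ℕ) : 0 < XX r := by
  unfold XX
  positivity

theorem XX_ge_one (r : ℕ) : 1 ≤ XX r := one_le_pow₀ (by norm_num)

/-- Eventual comparison of powers of the scale. -/
theorem eventually_rpow_le {C A B : ℝ} (hAB : A < B) :
    ∀ᶠ r : ℕ in atTop, C * XX r ^ A ≤ XX r ^ B := by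
  have h1 : Tendsto (fun r : ℕ => XX r ^ (B - A)) atTop atTop :=
    (tendsto_rpow_atTop (sub_pos.2 hAB)).comp XX_tendsto
  filter_upwards [h1.eventually_ge_atTop C] with r hr
  have h2 : XX r ^ B = XX r ^ (B - A) * XX r ^ A := by
    rw [← Real.rpow_add (XX_pos r)]
    congr 1
    ring
  rw [h2]
  exact mul_le_mul_of_nonneg_right hr (Real.rpow_nonneg (XX_pos r).le A)

end MWg
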