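import Pool.Agent.MWg.Defs

/-!
# MWg.Chain: basic facts on the scales and the chains

PROOFS. `nxt_pow`: `(z ^ (1/n)) ^ n = z` for `z ≥ 0` (`Real.rpow_natCast`, `Real.rpow_mul`).
`nxt_ge_one`: `n 16^n P^(n-1) ≥ 1`. `nxt_tendsto`: `nxt n P ≥ (P^(n-1))^(1/n) ≥ P^{1/2}` for `n ≥ 2`,
`P ≥ 1`. `nxt_iter_*`: induction on `q` (`Function.iterate_succ_apply'`/`iterate_succ_apply`).
`nxt_le_self`: if `P ≥ n 16^n` then `(nxt n P)^n = n 16^n P^(n-1) ≤ P^n`.
`nxt_iter_le_self`: for each `q` there is a threshold, induction (all iterates tend to infinity).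
`nxt_iter_pow_le`: induction on `q`, statement for all `P ≥ 1`: `q = 0` is `P^n = P^(n*1)`; step, with
`P2 = nxt n P = (n16^n)^{1/n} P^{(n-1)/n}`:
`((nxt n)^[q] P2)^n ≤ C P2^{n (1-1/n)^q} = C (n16^n)^{(1-1/n)^q} P^{(n-1)(1-1/n)^q}`, and
`(n-1)(1-1/n)^q = n (1-1/n)^{q+1}`.
Cards: `#(⌊P⌋, ⌊16P⌋] = ⌊16P⌋ - ⌊P⌋ ∈ [15P - 1, 15P + 1]`, `#J1 P = ⌊P/4⌋ - ⌊P/8⌋ ∈ [P/8 - 1, P/8 + 1]`.
`cnt_succ`, `tot_succ`: the map `((u,v),w) ↦ (u,v) :: w` is injective
(`Finset.card_image_of_injective`, `Finset.filter_image`, `Finset.card_filter`, `Finset.sum_product`).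
-/

namespace MWg

open Filter Topology

theorem nxt_base_nonneg {n : ℕ} {P : ℝ} (hP : 0 ≤ P) : 0 ≤ (n : ℝ) * 16 ^ n * P ^ (n - 1) := by
  positivity

theorem nxt_pow {n : ℕ} (hn : 1 ≤ n) {P : ℝ} (hP : 0 ≤ P) :
    nxt n P ^ n = (n : ℝ) * 16 ^ n * P ^ (n - 1) := by
  unfold nxt
  have hn0 : (n : ℝ) ≠ 0 := by
    have : 0 < n := hn
    positivity
  rw [← Real.rpow_natCast, ← Real.rpow_mul (nxt_base_nonneg hP), one_div,
    inv_mul_cancel₀ hn0, Real.rpow_one]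

theorem nxt_nonneg {n : ℕ} {P : ℝ} (hP : 0 ≤ P) : 0 ≤ nxt n P := by
  unfold nxt
  exact Real.rpow_nonneg (nxt_base_nonneg hP) _

theorem nxt_const_ge_one {n : ℕ} (hn : 1 ≤ n) : (1 : ℝ) ≤ (n : ℝ) * 16 ^ n := by
  have h1 : (1 : ℝ) ≤ (n : ℝ) := by exact_mod_cast hn
  have h2 : (1 : ℝ) ≤ 16 ^ n := one_le_pow₀ (by norm_num)
  nlinarith

theorem nxt_ge_one {n : ℕ} (hn : 1 ≤ n) {P : ℝ} (hP : 1 ≤ P) : 1 ≤ nxt n P := by
  unfold nxt
  apply Real.one_le_rpow
  · have h1 := nxt_const_ge_one hn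
    have h2 : (1 : ℝ) ≤ P ^ (n - 1) := one_le_pow₀ hP
    nlinarith
  · positivity

theorem nxt_tendsto {n : ℕ} (hn : 2 ≤ n) : Tendsto (nxt n) atTop atTop := by
  have hn1 : 1 ≤ n := by omega
  have hnR : (0 : ℝ) < (n : ℝ) := by
    have : 0 < n := by omega
    exact_mod_cast this
  have h1 : Tendsto (fun P : ℝ => P ^ (n - 1)) atTop atTop :=
    tendsto_pow_atTop (by omega)
  have h2 : Tendsto (fun P : ℝ => (n : ℝ) * 16 ^ n * P ^ (n - 1)) atTop atTop := by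
    apply Tendsto.const_mul_atTop (lt_of_lt_of_le one_pos (nxt_const_ge_one hn1)) h1
  have h3 : Tendsto (fun x : ℝ => x ^ ((1 : ℝ) / n)) atTop atTop :=
    tendsto_rpow_atTop (by positivity)
  exact h3.comp h2

theorem nxt_iter_ge_one {n : ℕ} (hn : 1 ≤ n) (q : ℕ) {P : ℝ} (hP : 1 ≤ P) :
    1 ≤ (nxt n)^[q] P := by
  induction q generalizing P with
  | zero => simpa using hP
  | succ q ih =>
      rw [Function.iterate_succ_apply]
      exact ih (nxt_ge_one hn hP)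

theorem nxt_iter_tendsto {n : ℕ} (hn : 2 ≤ n) (q : ℕ) : Tendsto ((nxt n)^[q]) atTop atTop := by
  induction q with
  | zero => simpa using tendsto_id
  | succ q ih =>
      rw [Function.iterate_succ]
      exact ih.comp (nxt_tendsto hn)

theorem nxt_le_self {n : ℕ} (hn : 1 ≤ n) {P : ℝ} (hP : (n : ℝ) * 16 ^ n ≤ P) : nxt n P ≤ P := by
  have hP0 : 0 ≤ P := le_trans (by positivity) hP
  have h1 : nxt n P ^ n ≤ P ^ n := by
    rw [nxt_pow hn hP0]
    calc (n : ℝ) * 16 ^ n * P ^ (n - 1) ≤ P * P ^ (n - 1) :=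
          mul_le_mul_of_nonneg_right hP (by positivity)
      _ = P ^ n := by
          rw [← pow_succ']
          congr 1
          omega
  exact le_of_pow_le_pow_left₀ (by omega) hP0 h1

theorem nxt_iter_pow_le {n : ℕ} (hn : 1 ≤ n) (q : ℕ) :
    ∃ C : ℝ, 0 < C ∧ ∀ P : ℝ, 1 ≤ P →
      ((nxt n)^[q] P) ^ n ≤ C * P ^ ((n : ℝ) * (1 - 1 / (n : ℝ)) ^ q) := by
  have hnR : (0 : ℝ) < (n : ℝ) := by
    have : 0 < n := hn
    exact_mod_cast this
  induction q with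
  | zero =>
      refine ⟨1, one_pos, fun P hP => ?_⟩
      simp
  | succ q ih =>
      obtain ⟨C, hC, h⟩ := ih
      have hK : (0 : ℝ) < (n : ℝ) * 16 ^ n := by positivity
      refine ⟨C * ((n : ℝ) * 16 ^ n) ^ ((1 - 1 / (n : ℝ)) ^ q), by positivity, fun P hP => ?_⟩
      have hP0 : (0 : ℝ) < P := by linarith
      rw [Function.iterate_succ_apply]
      refine (h _ (nxt_ge_one hn hP)).trans (le_of_eq ?_)
      have e1 : nxt n P ^ ((n : ℝ) * (1 - 1 / (n : ℝ)) ^ q) =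
          ((n : ℝ) * 16 ^ n * P ^ (n - 1)) ^ ((1 - 1 / (n : ℝ)) ^ q) := by
        rw [Real.rpow_mul (nxt_nonneg hP0.le), Real.rpow_natCast, nxt_pow hn hP0.le]
      rw [e1, Real.mul_rpow hK.le (by positivity), ← Real.rpow_natCast P (n - 1),
        ← Real.rpow_mul hP0.le]
      have e2 : ((n - 1 : ℕ) : ℝ) * (1 - 1 / (n : ℝ)) ^ q =
          (n : ℝ) * (1 - 1 / (n : ℝ)) ^ (q + 1) := by
        rw [Nat.cast_sub hn, pow_succ]
        field_simp
        push_cast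
        ring
      rw [e2]
      ring

theorem mem_mainI {P : ℝ} (hP : 0 ≤ P) {u : ℕ} :
    u ∈ mainI P ↔ P < (u : ℝ) ∧ (u : ℝ) ≤ 16 * P := by
  unfold mainI
  rw [Finset.mem_Ioc, Nat.floor_lt hP, Nat.le_floor_iff (by positivity)]

theorem floor_mono_le {a b : ℝ} (h : a ≤ b) : ⌊a⌋₊ ≤ ⌊b⌋₊ := Nat.floor_le_floor h

theorem card_mainI_le {P : ℝ} (hP : 1 ≤ P) : ((mainI P).card : ℝ) ≤ 16 * P := by
  unfold mainI
  rw [Nat.card_Ioc]
  have h1 : ((⌊16 * P⌋₊ - ⌊P⌋₊ : ℕ) : ℝ) ≤ ((⌊16 * P⌋₊ : ℕ) : ℝ) := by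
    exact_mod_cast Nat.sub_le _ _
  exact h1.trans (Nat.floor_le (by linarith))

theorem card_mainI_ge {P : ℝ} (hP : 1 ≤ P) : 14 * P ≤ ((mainI P).card : ℝ) := by
  unfold mainI
  rw [Nat.card_Ioc, Nat.cast_sub (floor_mono_le (by linarith))]
  have h1 := Nat.lt_floor_add_one (16 * P)
  have h2 := Nat.floor_le (show (0 : ℝ) ≤ P by linarith)
  linarith

theorem mem_J1 {P : ℝ} (hP : 0 ≤ P) {v : ℕ} :
    v ∈ J1 P ↔ P / 8 < (v : ℝ) ∧ (v : ℝ) ≤ P / 4 := by
  unfold J1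
  rw [Finset.mem_Ioc, Nat.floor_lt (by positivity), Nat.le_floor_iff (by positivity)]

theorem card_J1_ge {P : ℝ} (hP : 16 ≤ P) : P / 16 ≤ ((J1 P).card : ℝ) := by
  unfold J1
  rw [Nat.card_Ioc, Nat.cast_sub (floor_mono_le (by linarith))]
  have h1 := Nat.lt_floor_add_one (P / 4)
  have h2 := Nat.floor_le (show (0 : ℝ) ≤ P / 8 by linarith)
  linarith

theorem card_J1_le {P : ℝ} (hP : 16 ≤ P) : ((J1 P).card : ℝ) ≤ P / 4 := by
  unfold J1
  rw [Nat.card_Ioc]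
  have h1 : ((⌊P / 4⌋₊ - ⌊P / 8⌋₊ : ℕ) : ℝ) ≤ ((⌊P / 4⌋₊ : ℕ) : ℝ) := by
    exact_mod_cast Nat.sub_le _ _
  exact h1.trans (Nat.floor_le (by linarith))

theorem cnt_zero (n : ℕ) (J : ℝ → Finset ℕ) (P : ℝ) (p : List (ℕ × ℕ) → Prop) :
    cnt n J 0 P p = open Classical in if p [] then 1 else 0 := by
  classical
  unfold cnt
  simp only [chain]
  rw [Finset.filter_singleton]
  split_ifs <;> simp

theorem tot_zero (n : ℕ) (J : ℝ → Finset ℕ) (P : ℝ) : tot n J 0 P = 1 := by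
  simp [tot, chain]

theorem cons_inj_aux :
    Function.Injective (fun p : (ℕ × ℕ) × List (ℕ × ℕ) => p.1 :: p.2) := by
  rintro ⟨a, b⟩ ⟨c, d⟩ h
  simp only [List.cons.injEq] at h
  exact Prod.ext h.1 h.2

theorem cnt_succ (n : ℕ) (J : ℝ → Finset ℕ) (q : ℕ) (P : ℝ) (p : List (ℕ × ℕ) → Prop) :
    cnt n J (q + 1) P p =
      ∑ u ∈ mainI P, ∑ v ∈ J P, cnt n J q (nxt n P) (fun w => p ((u, v) :: w)) := by
  classical
  have h1 : cnt n J (q + 1) P p =
      ((((mainI P ×ˢ J P) ×ˢ chain n J q (nxt n P)).filter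
        (fun z : (ℕ × ℕ) × List (ℕ × ℕ) => p (z.1 :: z.2))).card : ℝ) := by
    unfold cnt
    simp only [chain]
    rw [Finset.filter_image, Finset.card_image_of_injective _ cons_inj_aux]
  rw [h1, Finset.card_filter]
  push_cast
  rw [Finset.sum_product, Finset.sum_product]
  refine Finset.sum_congr rfl fun u _ => Finset.sum_congr rfl fun v _ => ?_
  unfold cnt
  rw [Finset.card_filter]
  push_cast
  refine Finset.sum_congr rfl fun w _ => ?_
  congr!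

theorem tot_succ (n : ℕ) (J : ℝ → Finset ℕ) (q : ℕ) (P : ℝ) :
    tot n J (q + 1) P = ((mainI P).card : ℝ) * ((J P).card : ℝ) * tot n J q (nxt n P) := by
  classical
  unfold tot
  simp only [chain]
  rw [Finset.card_image_of_injective _ cons_inj_aux, Finset.card_product, Finset.card_product]
  push_cast
  ring

theorem cnt_nonneg (n : ℕ) (J : ℝ → Finset ℕ) (q : ℕ) (P : ℝ) (p : List (ℕ × ℕ) → Prop) :
    0 ≤ cnt n J q P p := by
  unfold cnt
  exact Nat.cast_nonneg _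

theorem tot_nonneg (n : ℕ) (J : ℝ → Finset ℕ) (q : ℕ) (P : ℝ) : 0 ≤ tot n J q P := by
  unfold tot
  exact Nat.cast_nonneg _

theorem cnt_le_tot (n : ℕ) (J : ℝ → Finset ℕ) (q : ℕ) (P : ℝ) (p : List (ℕ × ℕ) → Prop) :
    cnt n J q P p ≤ tot n J q P := by
  classical
  unfold cnt tot
  exact_mod_cast Finset.card_filter_le _ _

theorem cnt_mono {n : ℕ} {J : ℝ → Finset ℕ} {q : ℕ} {P : ℝ} {p p' : List (ℕ × ℕ) → Prop}
    (h : ∀ w ∈ chain n J q P, p w → p' w) : cnt n J q P p ≤ cnt n J q P p' := by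
  classical
  unfold cnt
  have : ((chain n J q P).filter p) ⊆ ((chain n J q P).filter p') := by
    intro w hw
    rw [Finset.mem_filter] at hw ⊢
    exact ⟨hw.1, h w hw.1 hw.2⟩
  have h2 := Finset.card_le_card this
  have h3 : (((chain n J q P).filter p).card : ℝ) ≤ (((chain n J q P).filter p').card : ℝ) := by
    exact_mod_cast h2
  convert h3

theorem mem_chain_succ {n : ℕ} {J : ℝ → Finset ℕ} {q : ℕ} {P : ℝ} {w : List (ℕ × ℕ)} :
    w ∈ chain n J (q + 1) P ↔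
      ∃ u ∈ mainI P, ∃ v ∈ J P, ∃ w' ∈ chain n J q (nxt n P), w = (u, v) :: w' := by
  simp only [chain, Finset.mem_image, Finset.mem_product, Prod.exists]
  constructor
  · rintro ⟨u, v, w', ⟨⟨hu, hv⟩, hw'⟩, rfl⟩
    exact ⟨u, hu, v, hv, w', hw', rfl⟩
  · rintro ⟨u, hu, v, hv, w', hw', rfl⟩
    exact ⟨u, v, w', ⟨⟨hu, hv⟩, hw'⟩, rfl⟩

theorem mem_chain_zero {n : ℕ} {J : ℝ → Finset ℕ} {P : ℝ} {w : List (ℕ × ℕ)} :
    w ∈ chain n J 0 P ↔ w = [] := by
  simp [chain]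

theorem chain_length {n : ℕ} {J : ℝ → Finset ℕ} {q : ℕ} {P : ℝ} {w : List (ℕ × ℕ)}
    (hw : w ∈ chain n J q P) : w.length = q := by
  induction q generalizing P w with
  | zero => rw [mem_chain_zero] at hw; simp [hw]
  | succ q ih =>
      obtain ⟨u, _, v, _, w', hw', rfl⟩ := mem_chain_succ.1 hw
      simp [ih hw']

theorem chain_fst_pos {n : ℕ} {J : ℝ → Finset ℕ} {q : ℕ} {P : ℝ} {w : List (ℕ × ℕ)}
    (hw : w ∈ chain n J q P) : ∀ p ∈ w, 0 < p.1 := by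
  induction q generalizing P w with
  | zero => rw [mem_chain_zero] at hw; simp [hw]
  | succ q ih =>
      obtain ⟨u, hu, v, _, w', hw', rfl⟩ := mem_chain_succ.1 hw
      intro p hp
      rcases List.mem_cons.1 hp with rfl | hp
      · unfold mainI at hu
        have := (Finset.mem_Ioc.1 hu).1
        show 0 < u
        omega
      · exact ih hw' p hp

theorem chain_snd_pos {n : ℕ} {q : ℕ} {P : ℝ} {w : List (ℕ × ℕ)}
    (hw : w ∈ chain n J1 q P) : ∀ p ∈ w, 0 < p.2 := by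
  induction q generalizing P w with
  | zero => rw [mem_chain_zero] at hw; simp [hw]
  | succ q ih =>
      obtain ⟨u, hu, v, hv, w', hw', rfl⟩ := mem_chain_succ.1 hw
      intro p hp
      rcases List.mem_cons.1 hp with rfl | hp
      · unfold J1 at hv
        have := (Finset.mem_Ioc.1 hv).1
        show 0 < v
        omega
      · exact ih hw' p hp

theorem val_nil (f h : ℕ → ℝ) : val f h [] = 0 := by
  simp [val]

theorem val_cons (f h : ℕ → ℝ) (p : ℕ × ℕ) (w : List (ℕ × ℕ)) :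
    val f h (p :: w) = f p.1 + h p.2 + val f h w := by
  simp [val]

/-- `tot > 0` for all large `P` when the side sets are eventually nonempty. -/
theorem tot_pos {n : ℕ} (hn : 2 ≤ n) {J : ℝ → Finset ℕ}
    (hJ : ∃ P0 : ℝ, ∀ P, P0 ≤ P → (J P).Nonempty) (q : ℕ) :
    ∃ P0 : ℝ, ∀ P, P0 ≤ P → 0 < tot n J q P := by
  obtain ⟨PJ, hJ⟩ := hJ
  induction q with
  | zero => exact ⟨0, fun P _ => by rw [tot_zero]; exact one_pos⟩
  | succ q ih =>
      obtain ⟨P0, h0⟩ := ih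
      obtain ⟨P1, h1⟩ := eventually_atTop.1 ((nxt_tendsto hn).eventually_ge_atTop P0)
      refine ⟨max 1 (max PJ P1), fun P hP => ?_⟩
      have hP1 : 1 ≤ P := (le_max_left _ _).trans hP
      have hPJ : PJ ≤ P := ((le_max_left _ _).trans (le_max_right _ _)).trans hP
      have hPP : P1 ≤ P := ((le_max_right _ _).trans (le_max_right _ _)).trans hP
      rw [tot_succ]
      have a1 : (0 : ℝ) < ((mainI P).card : ℝ) := by
        have := card_mainI_ge hP1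
        linarith
      have a2 : (0 : ℝ) < ((J P).card : ℝ) := by
        exact_mod_cast Finset.card_pos.2 (hJ P hPJ)
      have a3 : 0 < tot n J q (nxt n P) := h0 _ (h1 P hPP)
      positivity

/-- All first letters are at most `16 P` once `P` is large. -/
theorem chain_fst_le {n : ℕ} (hn : 2 ≤ n) (J : ℝ → Finset ℕ) (q : ℕ) :
    ∃ P0 : ℝ, ∀ P, P0 ≤ P → ∀ w ∈ chain n J q P, ∀ p ∈ w, (p.1 : ℝ) ≤ 16 * P := by
  have hn1 : 1 ≤ n := by omega
  induction q with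
  | zero =>
      refine ⟨0, fun P _ w hw => ?_⟩
      rw [mem_chain_zero] at hw
      simp [hw]
  | succ q ih =>
      obtain ⟨P0, h0⟩ := ih
      obtain ⟨P1, h1⟩ := eventually_atTop.1 ((nxt_tendsto hn).eventually_ge_atTop P0)
      refine ⟨max ((n : ℝ) * 16 ^ n) P1, fun P hP w hw p hp => ?_⟩
      have hPn : (n : ℝ) * 16 ^ n ≤ P := (le_max_left _ _).trans hP
      have hPP : P1 ≤ P := (le_max_right _ _).trans hP
      have hP0 : 0 ≤ P := le_trans (by positivity) hPn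
      obtain ⟨u, hu, v, hv, w', hw', rfl⟩ := mem_chain_succ.1 hw
      rcases List.mem_cons.1 hp with rfl | hp
      · exact ((mem_mainI hP0).1 hu).2
      · have h2 := h0 _ (h1 P hPP) w' hw' p hp
        have h3 := nxt_le_self hn1 hPn
        linarith

end MWg
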