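import Pool.Agent.MWg.Chain

/-!
# MWg.GoodF: functions behaving like the n-th power

`Good n f` means `(f (x+1) - f x)/x^(n-1) → n`.

PROOFS. `good_step`: since the limit is `n ≥ 2`, eventually `x^(n-1) ≤ f (x+1) - f x ≤ 2 n x^(n-1)`;
sum over `x = u, …, v - 1` (`Finset.sum_Ico_...`, induction on `v`), using
`u^(n-1) ≤ x^(n-1) ≤ v^(n-1)`.
`good_lim` (Stolz-Cesaro): `d_x := (x+1)^n - x^n` satisfies `d_x / x^(n-1) → n`, so
`f (x+1) - f x - d_x = o(x^(n-1)) = o(d_x)`; `∑_{x<N} d_x = N^n → ∞`, so by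
`Asymptotics.IsLittleO.sum_range` `f N - f 0 - N^n = o(N^n)`.
`good_pow`: `((x+1)^n - x^n)/x^(n-1) → n` (binomial theorem, or `n x^(n-1) ≤ (x+1)^n - x^n ≤
n (x+1)^(n-1)` and `((x+1)/x)^(n-1) → 1`).
`good_add`: limits add. `good_add_pow`: `((x+1)^j - x^j)/x^(n-1) → 0` for `j < n` since
`0 ≤ (x+1)^j - x^j ≤ j (x+1)^(j-1)` and `(x+1)^(j-1)/x^(n-1) → 0`.
`side_J0`: `J0 P = {0}` is nonempty and `|0| ≤ P^n/4` for `P ≥ 0`.
`side_J1`: by `good_lim` `|f v| ≤ 2 v^n ≤ 2 (P/4)^n ≤ P^n/4` for `v > P/8` large (`n ≥ 2`: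
`2/4^n ≤ 1/8`); `J1 P` is nonempty for `P ≥ 16` by `card_J1_ge`.
`val_bound`: induction on `q`: `|f u| ≤ 2 (16P)^n`, `|h v| ≤ P^n/4`, and for the tail the induction
hypothesis at the scale `nxt n P ≤ P` (`nxt_le_self`).
`pow_val_bound`: the same for the value `∑ (u^j + v^j)` of a chain of exponent `k`, side sets `J1`:
`u^j ≤ (16P)^j`, `v^j ≤ P^j`, induction with `nxt k P ≤ P`.
-/

namespace MWg

open Filter Topology


private theorem good_step_ev {n : ℕ} (hn : 2 ≤ n) {f : ℕ → ℝ} (hf : Good n f) :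
    ∃ x0 : ℕ, ∀ x : ℕ, x0 ≤ x →
      (x : ℝ) ^ (n - 1) ≤ f (x + 1) - f x ∧ f (x + 1) - f x ≤ 2 * n * (x : ℝ) ^ (n - 1) := by
  have hn' : (2 : ℝ) ≤ (n : ℝ) := by exact_mod_cast hn
  have h1 : ∀ᶠ x : ℕ in atTop, (1 : ℝ) < (f (x + 1) - f x) / (x : ℝ) ^ (n - 1) :=
    hf.eventually (lt_mem_nhds (by linarith))
  have h2 : ∀ᶠ x : ℕ in atTop, (f (x + 1) - f x) / (x : ℝ) ^ (n - 1) < 2 * (n : ℝ) :=
    hf.eventually (gt_mem_nhds (by linarith))
  obtain ⟨x0, hx0⟩ := eventually_atTop.1 (h1.and h2)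
  refine ⟨max x0 1, fun x hx => ?_⟩
  obtain ⟨ha, hb⟩ := hx0 x (le_trans (le_max_left _ _) hx)
  have hxpos : (0 : ℝ) < (x : ℝ) ^ (n - 1) := by
    have : 1 ≤ x := le_trans (le_max_right _ _) hx
    positivity
  rw [lt_div_iff₀ hxpos] at ha
  rw [div_lt_iff₀ hxpos] at hb
  constructor
  · linarith
  · linarith

theorem good_step {n : ℕ} (hn : 2 ≤ n) {f : ℕ → ℝ} (hf : Good n f) :
    ∃ x0 : ℕ, ∀ u v : ℕ, x0 ≤ u → u ≤ v →
      (u : ℝ) ^ (n - 1) * ((v : ℝ) - u) ≤ f v - f u ∧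
      f v - f u ≤ 2 * n * (v : ℝ) ^ (n - 1) * ((v : ℝ) - u) := by
  obtain ⟨x0, hx0⟩ := good_step_ev hn hf
  refine ⟨x0, fun u v hu huv => ?_⟩
  induction v, huv using Nat.le_induction with
  | base => simp
  | succ v huv ih =>
    obtain ⟨h1, h2⟩ := hx0 v (hu.trans huv)
    obtain ⟨i1, i2⟩ := ih
    have hpow1 : (u : ℝ) ^ (n - 1) ≤ (v : ℝ) ^ (n - 1) :=
      pow_le_pow_left₀ (Nat.cast_nonneg _) (by exact_mod_cast huv) _
    have hpow2 : (v : ℝ) ^ (n - 1) ≤ ((v + 1 : ℕ) : ℝ) ^ (n - 1) :=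
      pow_le_pow_left₀ (Nat.cast_nonneg _) (by push_cast; linarith) _
    have hvu : (0 : ℝ) ≤ (v : ℝ) - u := by
      have : (u : ℝ) ≤ v := by exact_mod_cast huv
      linarith
    constructor
    · have : (u : ℝ) ^ (n - 1) * (((v + 1 : ℕ) : ℝ) - u)
          = (u : ℝ) ^ (n - 1) * ((v : ℝ) - u) + (u : ℝ) ^ (n - 1) := by push_cast; ring
      rw [this]; linarith
    · have hn0 : (0 : ℝ) ≤ 2 * (n : ℝ) := by positivity
      have e1 : 2 * (n : ℝ) * (v : ℝ) ^ (n - 1) * ((v : ℝ) - u)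
          ≤ 2 * n * ((v + 1 : ℕ) : ℝ) ^ (n - 1) * ((v : ℝ) - u) := by
        apply mul_le_mul_of_nonneg_right _ hvu
        exact mul_le_mul_of_nonneg_left hpow2 hn0
      have e2 : 2 * (n : ℝ) * (v : ℝ) ^ (n - 1) ≤ 2 * n * ((v + 1 : ℕ) : ℝ) ^ (n - 1) :=
        mul_le_mul_of_nonneg_left hpow2 hn0
      have : 2 * (n : ℝ) * ((v + 1 : ℕ) : ℝ) ^ (n - 1) * (((v + 1 : ℕ) : ℝ) - u)
          = 2 * n * ((v + 1 : ℕ) : ℝ) ^ (n - 1) * ((v : ℝ) - u)
            + 2 * n * ((v + 1 : ℕ) : ℝ) ^ (n - 1) := by push_cast; ring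
      rw [this]; linarith

theorem good_pow {n : ℕ} (hn : 1 ≤ n) : Good n (fun x => (x : ℝ) ^ n) := by
  unfold Good
  have hd : HasDerivAt (fun y : ℝ => y ^ n) ((n : ℝ) * 1 ^ (n - 1)) 1 := hasDerivAt_pow n 1
  rw [one_pow, mul_one, hasDerivAt_iff_tendsto_slope_zero] at hd
  have hinv : Tendsto (fun x : ℕ => ((x : ℝ))⁻¹) atTop (𝓝[≠] 0) := by
    rw [tendsto_nhdsWithin_iff]
    refine ⟨tendsto_inv_atTop_zero.comp tendsto_natCast_atTop_atTop, ?_⟩
    filter_upwards [eventually_ge_atTop 1] with x hx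
    have : (x : ℝ) ≠ 0 := by
      have : 0 < x := hx
      positivity
    simpa using this
  refine (hd.comp hinv).congr' ?_
  filter_upwards [eventually_ge_atTop 1] with x hx
  have hx0 : (x : ℝ) ≠ 0 := by
    have : 0 < x := hx
    positivity
  simp only [Function.comp, smul_eq_mul, inv_inv, one_pow]
  obtain ⟨m, rfl⟩ : ∃ m, n = m + 1 := ⟨n - 1, by omega⟩
  simp only [Nat.add_sub_cancel]
  have e : (1 : ℝ) + (x : ℝ)⁻¹ = ((x : ℝ) + 1) / x := by field_simp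
  rw [e, div_pow]
  push_cast
  rw [eq_div_iff (pow_ne_zero _ hx0)]
  have h3 : (x : ℝ) ^ (m + 1) ≠ 0 := pow_ne_zero _ hx0
  field_simp
  ring

theorem good_lim {n : ℕ} (hn : 1 ≤ n) {f : ℕ → ℝ} (hf : Good n f) :
    Tendsto (fun x : ℕ => f x / (x : ℝ) ^ n) atTop (𝓝 1) := by
  set g : ℕ → ℝ := fun x => ((x + 1 : ℕ) : ℝ) ^ n - (x : ℝ) ^ n with hg
  have hgp : Good n (fun x => (x : ℝ) ^ n) := good_pow hn
  have hsum : ∀ N : ℕ, ∑ i ∈ Finset.range N, g i = (N : ℝ) ^ n := by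
    intro N
    rw [hg, Finset.sum_range_sub (fun i : ℕ => (i : ℝ) ^ n)]
    have : (0 : ℕ) < n := hn
    simp [zero_pow this.ne']
  have hg0 : 0 ≤ g := by
    intro x
    simp only [hg, Pi.zero_apply]
    have : (x : ℝ) ^ n ≤ ((x + 1 : ℕ) : ℝ) ^ n :=
      pow_le_pow_left₀ (Nat.cast_nonneg _) (by push_cast; linarith) _
    linarith
  have hginf : Tendsto (fun N => ∑ i ∈ Finset.range N, g i) atTop atTop := by
    simp only [hsum]
    exact (tendsto_pow_atTop (by omega)).comp tendsto_natCast_atTop_atTop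
  -- x^(n-1) = O(g)
  have hO : (fun x : ℕ => (x : ℝ) ^ (n - 1)) =O[atTop] g := by
    apply Asymptotics.IsBigO.of_bound 2
    have h1 : ∀ᶠ x : ℕ in atTop, (1 / 2 : ℝ) < g x / (x : ℝ) ^ (n - 1) := by
      have hn' : (1 : ℝ) ≤ (n : ℝ) := by exact_mod_cast hn
      exact hgp.eventually (lt_mem_nhds (by linarith))
    filter_upwards [h1, eventually_ge_atTop 1] with x hx hx1
    have hpos : (0 : ℝ) < (x : ℝ) ^ (n - 1) := by
      have : 0 < x := hx1
      positivity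
    rw [lt_div_iff₀ hpos] at hx
    rw [Real.norm_of_nonneg hpos.le, Real.norm_of_nonneg (hg0 x)]
    linarith
  have ho : (fun x : ℕ => (f (x + 1) - f x) - g x) =o[atTop] g := by
    refine Asymptotics.IsLittleO.trans_isBigO ?_ hO
    rw [Asymptotics.isLittleO_iff_tendsto']
    · have h := hf.sub hgp
      rw [sub_self] at h
      refine h.congr fun x => ?_
      simp only [hg]
      rw [← sub_div]
    · filter_upwards [eventually_ge_atTop 1] with x hx h0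
      exfalso
      have : 0 < x := hx
      have hpos : (0 : ℝ) < (x : ℝ) ^ (n - 1) := by positivity
      exact hpos.ne' h0
  have hs := ho.sum_range hg0 hginf
  simp only [hsum] at hs
  have hs2 : (fun N : ℕ => f N - f 0 - (N : ℝ) ^ n) =o[atTop] fun N : ℕ => (N : ℝ) ^ n := by
    refine hs.congr_left fun N => ?_
    rw [Finset.sum_sub_distrib, hsum, Finset.sum_range_sub]
  have hne : ∀ᶠ N : ℕ in atTop, ((N : ℝ) ^ n = 0 → f N - f 0 - (N : ℝ) ^ n = 0) := by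
    filter_upwards [eventually_ge_atTop 1] with x hx h0
    exfalso
    have : 0 < x := hx
    have hpos : (0 : ℝ) < (x : ℝ) ^ n := by positivity
    exact hpos.ne' h0
  rw [Asymptotics.isLittleO_iff_tendsto' hne] at hs2
  have hc : Tendsto (fun N : ℕ => f 0 / (N : ℝ) ^ n) atTop (𝓝 0) := by
    apply Tendsto.div_atTop tendsto_const_nhds
    exact (tendsto_pow_atTop (by omega)).comp tendsto_natCast_atTop_atTop
  have hfin := (hs2.add hc).add_const 1
  rw [zero_add, zero_add] at hfin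
  refine hfin.congr' ?_
  filter_upwards [eventually_ge_atTop 1] with x hx
  have : 0 < x := hx
  have hpos : (0 : ℝ) < (x : ℝ) ^ n := by positivity
  field_simp
  ring

theorem good_add {n : ℕ} {f g : ℕ → ℝ} (hf : Good n f)
    (hg : Tendsto (fun x : ℕ => (g (x + 1) - g x) / (x : ℝ) ^ (n - 1)) atTop (𝓝 0)) :
    Good n (fun x => f x + g x) := by
  unfold Good at *
  have h := hf.add hg
  rw [add_zero] at h
  refine h.congr fun x => ?_
  rw [← add_div]
  congr 1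
  ring

theorem good_add_pow {n j : ℕ} (hj : j < n) {f : ℕ → ℝ} (hf : Good n f) (t : ℝ) :
    Good n (fun x => f x + t * (x : ℝ) ^ j) := by
  apply good_add hf
  rcases Nat.eq_zero_or_pos j with rfl | hjp
  · simp
  · have h1 : Good j (fun x => (x : ℝ) ^ j) := good_pow hjp
    have h2 : Tendsto (fun x : ℕ => (x : ℝ) ^ (j - 1) / (x : ℝ) ^ (n - 1)) atTop (𝓝 0) := by
      have := tendsto_pow_div_pow_atTop_zero (𝕜 := ℝ) (p := j - 1) (q := n - 1) (by omega)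
      exact this.comp tendsto_natCast_atTop_atTop
    have h3 := (h1.mul h2).const_mul t
    rw [mul_zero, mul_zero] at h3
    refine h3.congr' ?_
    filter_upwards [eventually_ge_atTop 1] with x hx
    have : 0 < x := hx
    have hp1 : (x : ℝ) ^ (j - 1) ≠ 0 := by positivity
    have hp2 : (x : ℝ) ^ (n - 1) ≠ 0 := by positivity
    push_cast
    field_simp

theorem side_J0 (n : ℕ) : Side n (fun _ => 0) J0 := by
  refine ⟨0, fun P hP => ⟨⟨0, by simp [J0]⟩, fun v _ => ?_⟩⟩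
  rw [abs_zero]
  positivity

private theorem good_abs {n : ℕ} (hn : 1 ≤ n) {f : ℕ → ℝ} (hf : Good n f) :
    ∃ x0 : ℕ, 1 ≤ x0 ∧ ∀ x : ℕ, x0 ≤ x → |f x| ≤ 2 * (x : ℝ) ^ n := by
  have h := good_lim hn hf
  have h1 : ∀ᶠ x : ℕ in atTop, f x / (x : ℝ) ^ n < 2 :=
    h.eventually (gt_mem_nhds (by norm_num))
  have h2 : ∀ᶠ x : ℕ in atTop, (-2 : ℝ) < f x / (x : ℝ) ^ n :=
    h.eventually (lt_mem_nhds (by norm_num))
  obtain ⟨x0, hx0⟩ := eventually_atTop.1 (h1.and h2)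
  refine ⟨max x0 1, le_max_right _ _, fun x hx => ?_⟩
  obtain ⟨ha, hb⟩ := hx0 x (le_trans (le_max_left _ _) hx)
  have hxpos : (0 : ℝ) < (x : ℝ) ^ n := by
    have : 1 ≤ x := le_trans (le_max_right _ _) hx
    positivity
  rw [div_lt_iff₀ hxpos] at ha
  rw [lt_div_iff₀ hxpos] at hb
  rw [abs_le]
  constructor <;> linarith

theorem side_J1 {n : ℕ} (hn : 2 ≤ n) {f : ℕ → ℝ} (hf : Good n f) : Side n f J1 := by
  obtain ⟨x0, hx1, hx0⟩ := good_abs (by omega) hf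
  refine ⟨max 16 (8 * (x0 : ℝ)), fun P hP => ?_⟩
  have hP16 : (16 : ℝ) ≤ P := le_trans (le_max_left _ _) hP
  have hPx : 8 * (x0 : ℝ) ≤ P := le_trans (le_max_right _ _) hP
  constructor
  · have h := card_J1_ge hP16
    have : (0 : ℝ) < ((J1 P).card : ℝ) := by linarith
    have h2 : 0 < (J1 P).card := by exact_mod_cast this
    exact Finset.card_pos.1 h2
  · intro v hv
    rw [mem_J1 (by linarith)] at hv
    obtain ⟨hv1, hv2⟩ := hv
    have hxv : x0 ≤ v := by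
      have : (x0 : ℝ) ≤ (v : ℝ) := by linarith
      exact_mod_cast this
    have h1 := hx0 v hxv
    have h2 : (v : ℝ) ^ n ≤ (P / 4) ^ n := pow_le_pow_left₀ (Nat.cast_nonneg _) hv2 _
    have h3 : (P / 4) ^ n ≤ P ^ n / 16 := by
      rw [div_pow]
      have h16 : (16 : ℝ) ≤ 4 ^ n := by
        calc (16 : ℝ) = 4 ^ 2 := by norm_num
          _ ≤ 4 ^ n := pow_le_pow_right₀ (by norm_num) hn
      have hPn : (0 : ℝ) ≤ P ^ n := by positivity
      exact div_le_div_of_nonneg_left hPn (by norm_num) h16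
    have hPn : (0 : ℝ) ≤ P ^ n := by positivity
    linarith

theorem val_bound {n : ℕ} (hn : 2 ≤ n) {f h : ℕ → ℝ} {J : ℝ → Finset ℕ} (hf : Good n f)
    (hJ : Side n h J) (q : ℕ) :
    ∃ C : ℝ, 0 < C ∧ ∃ P0 : ℝ, 1 ≤ P0 ∧ ∀ P, P0 ≤ P → ∀ w ∈ chain n J q P,
      |val f h w| ≤ C * P ^ n := by
  induction q with
  | zero =>
    refine ⟨1, one_pos, 1, le_rfl, fun P hP w hw => ?_⟩
    have hw' : w = [] := by simpa [chain] using hw
    subst hw'
    rw [val_nil, abs_zero]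
    positivity
  | succ q ih =>
    obtain ⟨C, hC, P0, hP0, ih⟩ := ih
    obtain ⟨x0, hx1, hx0⟩ := good_abs (by omega) hf
    obtain ⟨P1, hP1⟩ := hJ
    obtain ⟨P2, hP2⟩ := eventually_atTop.1 ((nxt_tendsto hn).eventually_ge_atTop P0)
    refine ⟨2 * 16 ^ n + 1 / 4 + C, by positivity,
      max (max (max 1 P1) (max P2 (x0 : ℝ))) ((n : ℝ) * 16 ^ n),
      le_trans (le_trans (le_max_left _ _) (le_max_left _ _)) (le_max_left _ _), ?_⟩
    intro P hP w hw
    have hPa : max (max 1 P1) (max P2 (x0 : ℝ)) ≤ P := le_trans (le_max_left _ _) hP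
    have hPn : (n : ℝ) * 16 ^ n ≤ P := le_trans (le_max_right _ _) hP
    have hPb : max 1 P1 ≤ P := le_trans (le_max_left _ _) hPa
    have hPc : max P2 (x0 : ℝ) ≤ P := le_trans (le_max_right _ _) hPa
    have hPone : 1 ≤ P := le_trans (le_max_left _ _) hPb
    have hPP1 : P1 ≤ P := le_trans (le_max_right _ _) hPb
    have hPP2 : P2 ≤ P := le_trans (le_max_left _ _) hPc
    have hPx : (x0 : ℝ) ≤ P := le_trans (le_max_right _ _) hPc
    have hPpos : 0 ≤ P := by linarith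
    rw [mem_chain_succ] at hw
    obtain ⟨u, hu, v, hv, w', hw', rfl⟩ := hw
    rw [mem_mainI hPpos] at hu
    rw [val_cons]
    have hxu : x0 ≤ u := by
      have : (x0 : ℝ) ≤ (u : ℝ) := by linarith [hu.1]
      exact_mod_cast this
    have h1 : |f u| ≤ 2 * 16 ^ n * P ^ n := by
      have := hx0 u hxu
      have h2 : (u : ℝ) ^ n ≤ (16 * P) ^ n := pow_le_pow_left₀ (Nat.cast_nonneg _) hu.2 _
      rw [mul_pow] at h2
      linarith
    have h2 : |h v| ≤ P ^ n / 4 := (hP1 P hPP1).2 v hv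
    have h3 : |val f h w'| ≤ C * P ^ n := by
      have h4 := ih (nxt n P) (hP2 P hPP2) w' hw'
      have h5 : nxt n P ≤ P := nxt_le_self (by omega) hPn
      have h6 : (nxt n P) ^ n ≤ P ^ n := pow_le_pow_left₀ (nxt_nonneg hPpos) h5 _
      exact h4.trans (mul_le_mul_of_nonneg_left h6 hC.le)
    calc |f (u, v).1 + h (u, v).2 + val f h w'|
        ≤ |f u| + |h v| + |val f h w'| := abs_add_three _ _ _
      _ ≤ 2 * 16 ^ n * P ^ n + P ^ n / 4 + C * P ^ n := by linarith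
      _ = (2 * 16 ^ n + 1 / 4 + C) * P ^ n := by ring

theorem pow_val_bound {k : ℕ} (hk : 2 ≤ k) (j : ℕ) (q : ℕ) :
    ∃ C : ℝ, 0 < C ∧ ∃ P0 : ℝ, 1 ≤ P0 ∧ ∀ P, P0 ≤ P → ∀ w ∈ chain k J1 q P,
      |val (fun x => (x : ℝ) ^ j) (fun x => (x : ℝ) ^ j) w| ≤ C * P ^ j := by
  induction q with
  | zero =>
    refine ⟨1, one_pos, 1, le_rfl, fun P hP w hw => ?_⟩
    have hw' : w = [] := by simpa [chain] using hw
    subst hw'
    rw [val_nil, abs_zero]
    positivity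
  | succ q ih =>
    obtain ⟨C, hC, P0, hP0, ih⟩ := ih
    obtain ⟨P2, hP2⟩ := eventually_atTop.1 ((nxt_tendsto hk).eventually_ge_atTop P0)
    refine ⟨16 ^ j + 1 + C, by positivity, max (max 1 P2) ((k : ℝ) * 16 ^ k),
      le_trans (le_max_left _ _) (le_max_left _ _), ?_⟩
    intro P hP w hw
    have hPa : max 1 P2 ≤ P := le_trans (le_max_left _ _) hP
    have hPn : (k : ℝ) * 16 ^ k ≤ P := le_trans (le_max_right _ _) hP
    have hPone : 1 ≤ P := le_trans (le_max_left _ _) hPa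
    have hPP2 : P2 ≤ P := le_trans (le_max_right _ _) hPa
    have hPpos : 0 ≤ P := by linarith
    rw [mem_chain_succ] at hw
    obtain ⟨u, hu, v, hv, w', hw', rfl⟩ := hw
    rw [mem_mainI hPpos] at hu
    rw [mem_J1 hPpos] at hv
    rw [val_cons]
    have h1 : |(u : ℝ) ^ j| ≤ 16 ^ j * P ^ j := by
      rw [abs_of_nonneg (by positivity), ← mul_pow]
      exact pow_le_pow_left₀ (Nat.cast_nonneg _) hu.2 _
    have h2 : |(v : ℝ) ^ j| ≤ P ^ j := by
      rw [abs_of_nonneg (by positivity)]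
      exact pow_le_pow_left₀ (Nat.cast_nonneg _) (by linarith [hv.2]) _
    have h3 : |val (fun x => (x : ℝ) ^ j) (fun x => (x : ℝ) ^ j) w'| ≤ C * P ^ j := by
      have h4 := ih (nxt k P) (hP2 P hPP2) w' hw'
      have h5 : nxt k P ≤ P := nxt_le_self (by omega) hPn
      have h6 : (nxt k P) ^ j ≤ P ^ j := pow_le_pow_left₀ (nxt_nonneg hPpos) h5 _
      exact h4.trans (mul_le_mul_of_nonneg_left h6 hC.le)
    calc |(((u, v).1 : ℕ) : ℝ) ^ j + (((u, v).2 : ℕ) : ℝ) ^ j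
          + val (fun x => (x : ℝ) ^ j) (fun x => (x : ℝ) ^ j) w'|
        ≤ |(u : ℝ) ^ j| + |(v : ℝ) ^ j|
          + |val (fun x => (x : ℝ) ^ j) (fun x => (x : ℝ) ^ j) w'| := abs_add_three _ _ _
      _ ≤ 16 ^ j * P ^ j + P ^ j + C * P ^ j := by linarith
      _ = (16 ^ j + 1 + C) * P ^ j := by ring

end MWg
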