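import Pool.Agent.MWg.Count

/-!
# MWg.Pair: pairs (u, v) with two conditions

`k > j ≥ 1`, `f` behaves like the `k`-th power. Count pairs `u ∈ (P, 16P]`, `v ∈ (P/8, P/4]` with
`|f u + f v - α| ≤ L1` and `|u^j + v^j - β| ≤ L2`.

PROOF. Write `f x = x^k + g x`; then `(g (x+1) - g x)/x^(k-1) → 0` (because
`((x+1)^k - x^k)/x^(k-1) → k`, `good_pow`). Let `η > 0` be small (depending on `k`:
`η 16^(k-1)/k ≤ 1/4`); for `x ≥ x0`, `|g (x+1) - g x| ≤ η x^(k-1)`. Let `P ≥ 8 x0`.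

Let `(u,v)` and `(u',v')` be two solutions, `u > u'` w.l.o.g. We show
`(*)  u - u' ≤ R := C (L1/P^(k-1) + L2/P^(j-1))`.
Elementary facts for `0 < y < x`: `(k/j) y^(k-j) (x^j - y^j) ≤ x^k - y^k ≤ (k/j) x^(k-j) (x^j - y^j)`
(the function `s ↦ s^k - (k/j) y^(k-j) s^j` is nondecreasing for `s ≥ y`, and
`s ↦ (k/j) x^(k-j) s^j - s^k` is nondecreasing for `0 < s ≤ x`), and
`n y^(n-1) (x-y) ≤ x^n - y^n ≤ n x^(n-1) (x-y)`.
For `u, u' ∈ (P, 16P]`, with `A_u = (f u - f u')/(u - u')`, `B_u = (u^j - u'^j)/(u - u')`: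
`A_u ≥ (u^k - u'^k)/(u-u') (1 - η 16^(k-1)/k) ≥ (3/4) (k/j) P^(k-j) B_u`, and `B_u ≥ P^(j-1)`.
If `v ≠ v'`, with `A_v = (f v - f v')/(v - v')`, `B_v = (v^j - v'^j)/(v - v')` (both positive):
`A_v ≤ (v^k - v'^k)/(v-v') (1 + η 2^(k-1)/k) ≤ (5/4)(k/j)(P/4)^(k-j) B_v ≤ (5/16)(k/j) P^(k-j) B_v`,
`A_v > 0`, `B_v > 0`.
From `|A_u (u-u') + A_v (v-v')| ≤ 2 L1` and `|B_u (u-u') + B_v (v-v')| ≤ 2 L2` and
`(A_u B_v - A_v B_u)(u-u') = B_v (A_u (u-u') + A_v (v-v')) - A_v (B_u (u-u') + B_v (v-v'))` we get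
`(A_u B_v - A_v B_u) (u-u') ≤ 2 L1 B_v + 2 L2 A_v`, while
`A_u B_v - A_v B_u ≥ (3/4 - 5/16)(k/j) P^(k-j) B_u B_v = (7/16)(k/j) P^(k-j) B_u B_v`. So
`u - u' ≤ (2 L1 + 2 L2 (5/16)(k/j) P^(k-j)) / ((7/16)(k/j) P^(k-j) B_u)
        ≤ C (L1/P^(k-1) + L2/P^(j-1))`.
If `v = v'` then `|f u - f u'| ≤ 2 L1` and `f u - f u' ≥ P^(k-1) (u-u')` gives
`u - u' ≤ 2 L1/P^(k-1)`. This proves `(*)`.

Therefore the first components of the solutions lie in an interval of length `R` and there are at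
most `1 + R` of them. For each `u` the `v` satisfy `|f v - (α - f u)| ≤ L1`; by `count_up_J1` there are
at most `1 + 2 * 8^(k-1) L1/P^(k-1)` of them. The product is at most
`C' (1 + L1/P^(k-1)) (1 + L1/P^(k-1) + L2/P^(j-1))`.
-/

namespace MWg

open Filter Topology

private theorem pr_am (n : ℕ) {x y : ℝ} (hx : 0 ≤ x) (hy : 0 ≤ y) :
    0 ≤ (n : ℝ) * x ^ (n + 1) + y ^ (n + 1) - (n + 1) * (x ^ n * y) := by
  induction n with
  | zero => simp
  | succ n ih =>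
    have h1 : ((n + 1 : ℕ) : ℝ) * x ^ (n + 1 + 1) + y ^ (n + 1 + 1) -
        (((n + 1 : ℕ) : ℝ) + 1) * (x ^ (n + 1) * y) =
        y * ((n : ℝ) * x ^ (n + 1) + y ^ (n + 1) - (n + 1) * (x ^ n * y)) +
          ((n : ℝ) + 1) * x ^ n * (x - y) ^ 2 := by
      push_cast
      ring
    rw [h1]
    have h2 := mul_nonneg hy ih
    have h3 : 0 ≤ ((n : ℝ) + 1) * x ^ n * (x - y) ^ 2 := by positivity
    linarith

private theorem pr_low (j : ℕ) (hj : 1 ≤ j) (m : ℕ) {x y : ℝ} (hy : 0 ≤ y) (hxy : y ≤ x) :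
    ((j + m : ℕ) : ℝ) * (y ^ m * (x ^ j - y ^ j)) ≤ (j : ℝ) * (x ^ (j + m) - y ^ (j + m)) := by
  have hx : 0 ≤ x := hy.trans hxy
  induction m with
  | zero => simp
  | succ m ih =>
    have h1 := pr_am (j + m) hx hy
    have hn : (0 : ℝ) < ((j + m : ℕ) : ℝ) := by
      have : 0 < j + m := by omega
      exact_mod_cast this
    set n : ℕ := j + m with hnm
    have h2 : ((n : ℝ) + 1) * (y * (x ^ n - y ^ n)) ≤ n * (x ^ (n + 1) - y ^ (n + 1)) := by
      have : (n : ℝ) * (x ^ (n + 1) - y ^ (n + 1)) - ((n : ℝ) + 1) * (y * (x ^ n - y ^ n)) =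
          (n : ℝ) * x ^ (n + 1) + y ^ (n + 1) - (n + 1) * (x ^ n * y) := by ring
      linarith
    have h3 : (n : ℝ) * ((n + 1) * (y ^ (m + 1) * (x ^ j - y ^ j))) ≤
        n * (j * (x ^ (n + 1) - y ^ (n + 1))) := by
      have h4 := mul_le_mul_of_nonneg_left ih (by positivity : 0 ≤ ((n : ℝ) + 1) * y)
      have h5 := mul_le_mul_of_nonneg_left h2 (Nat.cast_nonneg j : (0 : ℝ) ≤ (j : ℝ))
      calc (n : ℝ) * ((n + 1) * (y ^ (m + 1) * (x ^ j - y ^ j)))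
          = ((n : ℝ) + 1) * y * (n * (y ^ m * (x ^ j - y ^ j))) := by ring
        _ ≤ ((n : ℝ) + 1) * y * (j * (x ^ n - y ^ n)) := h4
        _ = (j : ℝ) * (((n : ℝ) + 1) * (y * (x ^ n - y ^ n))) := by ring
        _ ≤ (j : ℝ) * (n * (x ^ (n + 1) - y ^ (n + 1))) := h5
        _ = _ := by ring
    have h6 := le_of_mul_le_mul_left h3 hn
    have h7 : j + (m + 1) = n + 1 := by omega
    rw [h7]
    push_cast
    exact h6

private theorem pr_up (j : ℕ) (hj : 1 ≤ j) (m : ℕ) {x y : ℝ} (hy : 0 ≤ y) (hxy : y ≤ x) :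
    (j : ℝ) * (x ^ (j + m) - y ^ (j + m)) ≤ ((j + m : ℕ) : ℝ) * (x ^ m * (x ^ j - y ^ j)) := by
  have hx : 0 ≤ x := hy.trans hxy
  induction m with
  | zero => simp
  | succ m ih =>
    have h1 := pr_am (j + m) hy hx
    have hn : (0 : ℝ) < ((j + m : ℕ) : ℝ) := by
      have : 0 < j + m := by omega
      exact_mod_cast this
    set n : ℕ := j + m with hnm
    have h2 : (n : ℝ) * (x ^ (n + 1) - y ^ (n + 1)) ≤ ((n : ℝ) + 1) * (x * (x ^ n - y ^ n)) := by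
      have : ((n : ℝ) + 1) * (x * (x ^ n - y ^ n)) - (n : ℝ) * (x ^ (n + 1) - y ^ (n + 1)) =
          (n : ℝ) * y ^ (n + 1) + x ^ (n + 1) - (n + 1) * (y ^ n * x) := by ring
      linarith
    have h3 : (n : ℝ) * (j * (x ^ (n + 1) - y ^ (n + 1))) ≤
        (n : ℝ) * ((n + 1) * (x ^ (m + 1) * (x ^ j - y ^ j))) := by
      have h4 := mul_le_mul_of_nonneg_left ih (by positivity : 0 ≤ ((n : ℝ) + 1) * x)
      have h5 := mul_le_mul_of_nonneg_left h2 (Nat.cast_nonneg j : (0 : ℝ) ≤ (j : ℝ))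
      calc (n : ℝ) * (j * (x ^ (n + 1) - y ^ (n + 1)))
          = (j : ℝ) * (n * (x ^ (n + 1) - y ^ (n + 1))) := by ring
        _ ≤ (j : ℝ) * (((n : ℝ) + 1) * (x * (x ^ n - y ^ n))) := h5
        _ = ((n : ℝ) + 1) * x * (j * (x ^ n - y ^ n)) := by ring
        _ ≤ ((n : ℝ) + 1) * x * (n * (x ^ m * (x ^ j - y ^ j))) := h4
        _ = _ := by ring
    have h6 := le_of_mul_le_mul_left h3 hn
    have h7 : j + (m + 1) = n + 1 := by omega
    rw [h7]
    push_cast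
    exact h6

/-- a finite set of naturals of diameter at most `R` -/
private theorem pr_card {S : Finset ℕ} {R : ℝ} (hR : 0 ≤ R)
    (h : ∀ a ∈ S, ∀ b ∈ S, b < a → (a : ℝ) - b ≤ R) : (S.card : ℝ) ≤ 1 + R := by
  rcases S.eq_empty_or_nonempty with rfl | hne
  · simp
    linarith
  · have h1 : S ⊆ Finset.Icc (S.min' hne) (S.max' hne) := by
      intro a ha
      exact Finset.mem_Icc.2 ⟨S.min'_le a ha, S.le_max' a ha⟩
    have h2 := Finset.card_le_card h1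
    rw [Nat.card_Icc] at h2
    have h3 : S.min' hne ≤ S.max' hne := S.min'_le _ (S.max'_mem hne)
    have h4 : ((S.max' hne : ℕ) : ℝ) - (S.min' hne : ℕ) ≤ R := by
      rcases h3.eq_or_lt with h5 | h5
      · rw [h5, sub_self]
        exact hR
      · exact h _ (S.max'_mem hne) _ (S.min'_mem hne) h5
    have h5 : ((S.card : ℕ) : ℝ) ≤ ((S.max' hne + 1 - S.min' hne : ℕ) : ℝ) := by exact_mod_cast h2
    rw [Nat.cast_sub (by omega)] at h5
    push_cast at h5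
    linarith

/-- the increments of `f` compared to those of the power -/
private theorem pr_cmp {k : ℕ} (hk : 1 ≤ k) {f : ℕ → ℝ} (hf : Good k f) {η : ℝ} (hη : 0 < η) :
    ∃ x0 : ℕ, ∀ y x : ℕ, x0 ≤ y → y ≤ x →
      |(f x - f y) - ((x : ℝ) ^ k - (y : ℝ) ^ k)| ≤ η * (x : ℝ) ^ (k - 1) * ((x : ℝ) - y) := by
  have h1 : Tendsto (fun x : ℕ => (f (x + 1) - f x) / (x : ℝ) ^ (k - 1) -
      (((x + 1 : ℕ) : ℝ) ^ k - (x : ℝ) ^ k) / (x : ℝ) ^ (k - 1)) atTop (𝓝 ((k : ℝ) - k)) :=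
    Tendsto.sub hf (good_pow hk)
  rw [sub_self] at h1
  have h2 : ∀ᶠ x : ℕ in atTop, |(f (x + 1) - f x) / (x : ℝ) ^ (k - 1) -
      (((x + 1 : ℕ) : ℝ) ^ k - (x : ℝ) ^ k) / (x : ℝ) ^ (k - 1)| < η := by
    have := (Metric.tendsto_nhds.1 h1) η hη
    filter_upwards [this] with x hx
    rwa [Real.dist_eq, sub_zero] at hx
  obtain ⟨x1, hx1⟩ := eventually_atTop.1 h2
  refine ⟨max x1 1, fun y x hy hyx => ?_⟩
  have hstep : ∀ z : ℕ, max x1 1 ≤ z →
      |(f (z + 1) - f z) - (((z + 1 : ℕ) : ℝ) ^ k - (z : ℝ) ^ k)| ≤ η * (z : ℝ) ^ (k - 1) := by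
    intro z hz
    have hz0 : (0 : ℝ) < z := by
      have : 0 < z := by omega
      exact_mod_cast this
    have hzp : (0 : ℝ) < (z : ℝ) ^ (k - 1) := pow_pos hz0 _
    have h3 := (hx1 z (by omega)).le
    rw [← sub_div, abs_div, abs_of_pos hzp, div_le_iff₀ hzp] at h3
    exact h3
  induction x, hyx using Nat.le_induction with
  | base => simp
  | succ x hyx ih =>
    have h3 := hstep x (hy.trans hyx)
    have hyx' : (y : ℝ) ≤ x := by exact_mod_cast hyx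
    have h4 : (f (x + 1) - f y) - (((x + 1 : ℕ) : ℝ) ^ k - (y : ℝ) ^ k) =
        ((f x - f y) - ((x : ℝ) ^ k - (y : ℝ) ^ k)) +
          ((f (x + 1) - f x) - (((x + 1 : ℕ) : ℝ) ^ k - (x : ℝ) ^ k)) := by ring
    rw [h4]
    refine (abs_add_le _ _).trans ?_
    have h5 : (x : ℝ) ^ (k - 1) ≤ ((x + 1 : ℕ) : ℝ) ^ (k - 1) := by
      apply pow_le_pow_left₀ (Nat.cast_nonneg x)
      push_cast
      linarith
    have h6 : η * (x : ℝ) ^ (k - 1) * ((x : ℝ) - y) + η * (x : ℝ) ^ (k - 1) =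
        η * (x : ℝ) ^ (k - 1) * (((x + 1 : ℕ) : ℝ) - y) := by
      push_cast
      ring
    have h7 : η * (x : ℝ) ^ (k - 1) * (((x + 1 : ℕ) : ℝ) - y) ≤
        η * ((x + 1 : ℕ) : ℝ) ^ (k - 1) * (((x + 1 : ℕ) : ℝ) - y) := by
      apply mul_le_mul_of_nonneg_right
      · exact mul_le_mul_of_nonneg_left h5 hη.le
      · push_cast
        linarith
    linarith

theorem lemPair {k j : ℕ} (hj : 1 ≤ j) (hjk : j < k) {f : ℕ → ℝ} (hf : Good k f) :
    ∃ C : ℝ, 0 < C ∧ ∃ P0 : ℝ, 1 ≤ P0 ∧ ∀ P, P0 ≤ P → ∀ α β L1 L2 : ℝ, 0 ≤ L1 → 0 ≤ L2 →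
      ((open Classical in ((mainI P ×ˢ J1 P).filter fun p =>
        |f p.1 + f p.2 - α| ≤ L1 ∧ |(p.1 : ℝ) ^ j + (p.2 : ℝ) ^ j - β| ≤ L2).card : ℕ) : ℝ) ≤
        C * (1 + L1 / P ^ (k - 1)) * (1 + L1 / P ^ (k - 1) + L2 / P ^ (j - 1)) := by
  classical
  obtain ⟨m, hm⟩ : ∃ m, k = j + m := ⟨k - j, by omega⟩
  have hm1 : 1 ≤ m := by omega
  have hk1 : 1 ≤ k := by omega
  have hk0 : (0 : ℝ) < k := by exact_mod_cast hk1
  have hk1' : (1 : ℝ) ≤ k := by exact_mod_cast hk1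
  have hj0 : (0 : ℝ) < j := by exact_mod_cast hj
  have hj1' : (1 : ℝ) ≤ j := by exact_mod_cast hj
  have hjk' : (j : ℝ) ≤ k := by exact_mod_cast hjk.le
  set η : ℝ := 1 / (4 * 16 ^ (k - 1)) with hη
  have hη0 : 0 < η := by positivity
  have hη16 : η * 16 ^ (k - 1) = 1 / 4 := by
    rw [hη]
    field_simp
  have hη2 : η * 2 ^ (k - 1) ≤ 1 / 4 := by
    rw [← hη16]
    apply mul_le_mul_of_nonneg_left _ hη0.le
    exact pow_le_pow_left₀ (by norm_num) (by norm_num) _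
  obtain ⟨x0, hx0⟩ := pr_cmp hk1 hf hη0
  obtain ⟨P1, hP1, hcnt⟩ := count_up_J1 (n := k) (by omega) hf
  refine ⟨10 * 8 ^ (k - 1), by positivity, max P1 (8 * (x0 : ℝ) + 8), le_max_of_le_left hP1, ?_⟩
  intro P hP α β L1 L2 hL1 hL2
  have hPP1 : P1 ≤ P := (le_max_left _ _).trans hP
  have hPx : 8 * (x0 : ℝ) + 8 ≤ P := (le_max_right _ _).trans hP
  have hP1' : 1 ≤ P := hP1.trans hPP1
  have hP0 : 0 < P := by linarith
  have hPk : 0 < P ^ (k - 1) := pow_pos hP0 _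
  have hPj : 0 < P ^ (j - 1) := pow_pos hP0 _
  have hPm : 0 < P ^ m := pow_pos hP0 _
  have hPkj : P ^ (k - 1) = P ^ m * P ^ (j - 1) := by
    rw [← pow_add]
    congr 1
    omega
  set R : ℝ := 5 * (L1 / P ^ (k - 1) + L2 / P ^ (j - 1)) with hR
  have hR0 : 0 ≤ R := by positivity
  -- the key inequality
  have key : ∀ u u' v v' : ℕ, u ∈ mainI P → u' ∈ mainI P → v ∈ J1 P → v' ∈ J1 P → u' < u →
      |f u + f v - α| ≤ L1 → |f u' + f v' - α| ≤ L1 →
      |(u : ℝ) ^ j + (v : ℝ) ^ j - β| ≤ L2 → |(u' : ℝ) ^ j + (v' : ℝ) ^ j - β| ≤ L2 →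
      (u : ℝ) - u' ≤ R := by
    intro u u' v v' hu hu' hv hv' huu h1 h2 h3 h4
    obtain ⟨hu1, hu2⟩ := (mem_mainI hP0.le).1 hu
    obtain ⟨hu1', hu2'⟩ := (mem_mainI hP0.le).1 hu'
    have huu' : (u' : ℝ) < u := by exact_mod_cast huu
    -- (i) the big letters
    have hxu : x0 ≤ u' := by
      have : (x0 : ℝ) ≤ u' := by linarith
      exact_mod_cast this
    have a1 := hx0 u' u hxu huu.le
    have a2 := pr_low j hj m (x := u) (y := u') (by linarith) huu'.le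
    have a3 := pr_low 1 le_rfl (k - 1) (x := u) (y := u') (by linarith) huu'.le
    have a4 := pr_low 1 le_rfl (j - 1) (x := u) (y := u') (by linarith) huu'.le
    have e1 : 1 + (k - 1) = k := by omega
    have e2 : 1 + (j - 1) = j := by omega
    rw [← hm] at a2
    rw [e1, pow_one, pow_one, Nat.cast_one, one_mul] at a3
    rw [e2, pow_one, pow_one, Nat.cast_one, one_mul] at a4
    set Fu : ℝ := f u - f u' with hFu
    set Gu : ℝ := (u : ℝ) ^ j - (u' : ℝ) ^ j with hGu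
    set Ku : ℝ := (u : ℝ) ^ k - (u' : ℝ) ^ k with hKu
    have huk : P ^ (k - 1) ≤ (u' : ℝ) ^ (k - 1) := pow_le_pow_left₀ hP0.le hu1'.le _
    have huj : P ^ (j - 1) ≤ (u' : ℝ) ^ (j - 1) := pow_le_pow_left₀ hP0.le hu1'.le _
    have hum : P ^ m ≤ (u' : ℝ) ^ m := pow_le_pow_left₀ hP0.le hu1'.le _
    have hd : 0 < (u : ℝ) - u' := by linarith
    have hGpos : 0 ≤ Gu := by
      rw [hGu, sub_nonneg]
      exact pow_le_pow_left₀ (by linarith) huu'.le _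
    have b1 : P ^ (k - 1) * ((u : ℝ) - u') ≤ Ku := by
      have c1 : P ^ (k - 1) * ((u : ℝ) - u') ≤ (u' : ℝ) ^ (k - 1) * ((u : ℝ) - u') :=
        mul_le_mul_of_nonneg_right huk hd.le
      have c2 : 0 ≤ (u' : ℝ) ^ (k - 1) * ((u : ℝ) - u') := by
        refine mul_nonneg (by positivity) hd.le
      nlinarith
    have b2 : P ^ (j - 1) * ((u : ℝ) - u') ≤ Gu := by
      have c1 : P ^ (j - 1) * ((u : ℝ) - u') ≤ (u' : ℝ) ^ (j - 1) * ((u : ℝ) - u') :=
        mul_le_mul_of_nonneg_right huj hd.le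
      have c2 : 0 ≤ (u' : ℝ) ^ (j - 1) * ((u : ℝ) - u') := by
        refine mul_nonneg (by positivity) hd.le
      nlinarith
    have b3 : k * (P ^ m * Gu) ≤ j * Ku := by
      refine le_trans ?_ a2
      apply mul_le_mul_of_nonneg_left _ hk0.le
      exact mul_le_mul_of_nonneg_right hum hGpos
    have b4 : η * (u : ℝ) ^ (k - 1) * ((u : ℝ) - u') ≤ 1 / 4 * Ku := by
      have c1 : (u : ℝ) ^ (k - 1) ≤ 16 ^ (k - 1) * P ^ (k - 1) := by
        rw [← mul_pow]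
        exact pow_le_pow_left₀ (by linarith) hu2 _
      calc η * (u : ℝ) ^ (k - 1) * ((u : ℝ) - u')
          ≤ η * (16 ^ (k - 1) * P ^ (k - 1)) * ((u : ℝ) - u') :=
            mul_le_mul_of_nonneg_right (mul_le_mul_of_nonneg_left c1 hη0.le) hd.le
        _ = (η * 16 ^ (k - 1)) * (P ^ (k - 1) * ((u : ℝ) - u')) := by ring
        _ = 1 / 4 * (P ^ (k - 1) * ((u : ℝ) - u')) := by rw [hη16]
        _ ≤ _ := by linarith
    have b5 : 3 / 4 * Ku ≤ Fu := by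
      have := (abs_le.1 a1).1
      linarith
    have b6 : 3 / 4 * (k * (P ^ m * Gu)) ≤ j * Fu := by
      have := mul_le_mul_of_nonneg_left b5 hj0.le
      linarith
    -- (ii) the small letters
    have small : ∀ v v' : ℕ, v ∈ J1 P → v' ∈ J1 P → v' ≤ v →
        j * |f v - f v'| ≤ 5 / 16 * (k * (P ^ m * |(v : ℝ) ^ j - (v' : ℝ) ^ j|)) := by
      intro v v' hv hv' hvv
      obtain ⟨hv1, hv2⟩ := (mem_J1 hP0.le).1 hv
      obtain ⟨hv1', hv2'⟩ := (mem_J1 hP0.le).1 hv'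
      have hvv' : (v' : ℝ) ≤ v := by exact_mod_cast hvv
      have hv0 : (0 : ℝ) < v' := by linarith
      have hxv : x0 ≤ v' := by
        have : (x0 : ℝ) ≤ v' := by linarith
        exact_mod_cast this
      have a1 := hx0 v' v hxv hvv
      have a2 := pr_up j hj m (x := v) (y := v') hv0.le hvv'
      have a3 := pr_low 1 le_rfl (k - 1) (x := v) (y := v') hv0.le hvv'
      rw [← hm] at a2
      rw [e1, pow_one, pow_one, Nat.cast_one, one_mul] at a3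
      have hd : 0 ≤ (v : ℝ) - v' := by linarith
      have hG : 0 ≤ (v : ℝ) ^ j - (v' : ℝ) ^ j := by
        rw [sub_nonneg]
        exact pow_le_pow_left₀ hv0.le hvv' _
      have hK : 0 ≤ (v : ℝ) ^ k - (v' : ℝ) ^ k := by
        rw [sub_nonneg]
        exact pow_le_pow_left₀ hv0.le hvv' _
      have c1 : (v : ℝ) ^ (k - 1) ≤ 2 ^ (k - 1) * (v' : ℝ) ^ (k - 1) := by
        rw [← mul_pow]
        exact pow_le_pow_left₀ (by linarith) (by linarith) _
      have c2 : η * (v : ℝ) ^ (k - 1) * ((v : ℝ) - v') ≤ 1 / 4 * ((v : ℝ) ^ k - (v' : ℝ) ^ k) := by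
        have d0 : 0 ≤ (v' : ℝ) ^ (k - 1) * ((v : ℝ) - v') := mul_nonneg (by positivity) hd
        calc η * (v : ℝ) ^ (k - 1) * ((v : ℝ) - v')
            ≤ η * (2 ^ (k - 1) * (v' : ℝ) ^ (k - 1)) * ((v : ℝ) - v') :=
              mul_le_mul_of_nonneg_right (mul_le_mul_of_nonneg_left c1 hη0.le) hd
          _ = (η * 2 ^ (k - 1)) * ((v' : ℝ) ^ (k - 1) * ((v : ℝ) - v')) := by ring
          _ ≤ 1 / 4 * ((v' : ℝ) ^ (k - 1) * ((v : ℝ) - v')) :=
              mul_le_mul_of_nonneg_right hη2 d0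
          _ ≤ _ := by nlinarith
      have c3 : |f v - f v'| ≤ 5 / 4 * ((v : ℝ) ^ k - (v' : ℝ) ^ k) := by
        have d1 : f v - f v' = ((f v - f v') - ((v : ℝ) ^ k - (v' : ℝ) ^ k)) +
            ((v : ℝ) ^ k - (v' : ℝ) ^ k) := by ring
        rw [d1]
        refine (abs_add_le _ _).trans ?_
        rw [abs_of_nonneg hK]
        linarith
      have c4 : (v : ℝ) ^ m ≤ 1 / 4 * P ^ m := by
        have d1 : (v : ℝ) ^ m ≤ (P / 4) ^ m := pow_le_pow_left₀ (Nat.cast_nonneg v) hv2 _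
        have d2 : (P / 4) ^ m = (1 / 4) ^ m * P ^ m := by
          rw [← mul_pow]
          congr 1
          ring
        have d3 : ((1 : ℝ) / 4) ^ m ≤ 1 / 4 := by
          calc ((1 : ℝ) / 4) ^ m ≤ (1 / 4) ^ 1 :=
                pow_le_pow_of_le_one (by norm_num) (by norm_num) hm1
            _ = 1 / 4 := pow_one _
        rw [d2] at d1
        exact d1.trans (mul_le_mul_of_nonneg_right d3 hPm.le)
      rw [abs_of_nonneg hG]
      calc (j : ℝ) * |f v - f v'| ≤ j * (5 / 4 * ((v : ℝ) ^ k - (v' : ℝ) ^ k)) :=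
            mul_le_mul_of_nonneg_left c3 hj0.le
        _ = 5 / 4 * (j * ((v : ℝ) ^ k - (v' : ℝ) ^ k)) := by ring
        _ ≤ 5 / 4 * (k * ((v : ℝ) ^ m * ((v : ℝ) ^ j - (v' : ℝ) ^ j))) := by linarith
        _ ≤ 5 / 4 * (k * (1 / 4 * P ^ m * ((v : ℝ) ^ j - (v' : ℝ) ^ j))) := by
            apply mul_le_mul_of_nonneg_left _ (by norm_num)
            apply mul_le_mul_of_nonneg_left _ hk0.le
            exact mul_le_mul_of_nonneg_right c4 hG
        _ = _ := by ring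
    have small' : j * |f v - f v'| ≤ 5 / 16 * (k * (P ^ m * |(v : ℝ) ^ j - (v' : ℝ) ^ j|)) := by
      rcases le_total v' v with h | h
      · exact small v v' hv hv' h
      · have := small v' v hv' hv h
        rwa [abs_sub_comm (f v'), abs_sub_comm ((v' : ℝ) ^ j)] at this
    set Fv : ℝ := f v - f v' with hFv
    set Gv : ℝ := (v : ℝ) ^ j - (v' : ℝ) ^ j with hGv
    have g1 : |Fu + Fv| ≤ 2 * L1 := by
      have : Fu + Fv = (f u + f v - α) - (f u' + f v' - α) := by rw [hFu, hFv]; ring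
      rw [this]
      refine (abs_sub _ _).trans ?_
      linarith
    have g2 : |Gu + Gv| ≤ 2 * L2 := by
      have : Gu + Gv = ((u : ℝ) ^ j + (v : ℝ) ^ j - β) - ((u' : ℝ) ^ j + (v' : ℝ) ^ j - β) := by
        rw [hGu, hGv]; ring
      rw [this]
      refine (abs_sub _ _).trans ?_
      linarith
    have g3 : Fu ≤ 2 * L1 + |Fv| := by
      have e1 := (abs_le.1 g1).2
      have e2 := neg_abs_le Fv
      linarith
    have g4 : |Gv| ≤ Gu + 2 * L2 := by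
      have e1 := abs_le.1 g2
      rw [abs_le]
      constructor <;> linarith [e1.1, e1.2]
    have g5 : 7 / 16 * (k * (P ^ m * Gu)) ≤ 2 * (j * L1) + 5 / 8 * (k * (P ^ m * L2)) := by
      have e1 : (j : ℝ) * Fu ≤ j * (2 * L1 + |Fv|) := mul_le_mul_of_nonneg_left g3 hj0.le
      have e2 : (k : ℝ) * (P ^ m * |Gv|) ≤ k * (P ^ m * (Gu + 2 * L2)) :=
        mul_le_mul_of_nonneg_left (mul_le_mul_of_nonneg_left g4 hPm.le) hk0.le
      nlinarith
    have g6 : 7 / 16 * (P ^ m * Gu) ≤ 2 * L1 + 5 / 8 * (P ^ m * L2) := by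
      have e1 : 2 * (j * L1) ≤ k * (2 * L1) := by nlinarith
      have e2 : (k : ℝ) * (7 / 16 * (P ^ m * Gu)) ≤ k * (2 * L1 + 5 / 8 * (P ^ m * L2)) := by
        nlinarith
      exact le_of_mul_le_mul_left e2 hk0
    have g7 : 7 / 16 * (P ^ (k - 1) * ((u : ℝ) - u')) ≤ 2 * L1 + 5 / 8 * (P ^ m * L2) := by
      refine le_trans ?_ g6
      rw [hPkj, mul_assoc]
      apply mul_le_mul_of_nonneg_left _ (by norm_num)
      exact mul_le_mul_of_nonneg_left b2 hPm.le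
    have g8 : P ^ (k - 1) * ((u : ℝ) - u') ≤ 5 * (L1 + P ^ m * L2) := by
      have e1 : 0 ≤ P ^ m * L2 := mul_nonneg hPm.le hL2
      linarith
    have g9 : R * P ^ (k - 1) = 5 * (L1 + P ^ m * L2) := by
      rw [hR]
      have e1 : L1 / P ^ (k - 1) * P ^ (k - 1) = L1 := div_mul_cancel₀ _ hPk.ne'
      have e2 : L2 / P ^ (j - 1) * P ^ (k - 1) = P ^ m * L2 := by
        rw [hPkj]
        field_simp
      calc 5 * (L1 / P ^ (k - 1) + L2 / P ^ (j - 1)) * P ^ (k - 1)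
          = 5 * (L1 / P ^ (k - 1) * P ^ (k - 1) + L2 / P ^ (j - 1) * P ^ (k - 1)) := by ring
        _ = _ := by rw [e1, e2]
    rw [← g9, mul_comm R] at g8
    exact le_of_mul_le_mul_left g8 hPk
  -- the count
  set S := (mainI P ×ˢ J1 P).filter fun p : ℕ × ℕ =>
        |f p.1 + f p.2 - α| ≤ L1 ∧ |(p.1 : ℝ) ^ j + (p.2 : ℝ) ^ j - β| ≤ L2 with hS
  have hmemS : ∀ p, p ∈ S → p.1 ∈ mainI P ∧ p.2 ∈ J1 P ∧ |f p.1 + f p.2 - α| ≤ L1 ∧
      |(p.1 : ℝ) ^ j + (p.2 : ℝ) ^ j - β| ≤ L2 := by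
    intro p hp
    rw [hS, Finset.mem_filter, Finset.mem_product] at hp
    exact ⟨hp.1.1, hp.1.2, hp.2.1, hp.2.2⟩
  have h1 : ((S.image Prod.fst).card : ℝ) ≤ 1 + R := by
    apply pr_card hR0
    intro a ha b hb hab
    obtain ⟨p, hp, rfl⟩ := Finset.mem_image.1 ha
    obtain ⟨p', hp', rfl⟩ := Finset.mem_image.1 hb
    obtain ⟨q1, q2, q3, q4⟩ := hmemS p hp
    obtain ⟨r1, r2, r3, r4⟩ := hmemS p' hp'
    exact key p.1 p'.1 p.2 p'.2 q1 r1 q2 r2 hab q3 r3 q4 r4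
  have h2 : ∀ a ∈ S.image Prod.fst, ((S.filter fun p => p.1 = a).card : ℝ) ≤
      1 + 2 * 8 ^ (k - 1) * L1 / P ^ (k - 1) := by
    intro a _
    refine le_trans ?_ (hcnt P hPP1 (α - f a) L1 hL1)
    have h3 : (S.filter fun p => p.1 = a).card ≤
        ((J1 P).filter fun v => |f v - (α - f a)| ≤ L1).card := by
      apply Finset.card_le_card_of_injOn Prod.snd
      · intro p hp
        rw [Finset.mem_coe, Finset.mem_filter] at hp
        obtain ⟨q1, q2, q3, q4⟩ := hmemS p hp.1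
        rw [Finset.mem_coe, Finset.mem_filter]
        refine ⟨q2, ?_⟩
        rw [hp.2] at q3
        have : f p.2 - (α - f a) = f a + f p.2 - α := by ring
        rwa [this]
      · intro p hp p' hp' h
        rw [Finset.mem_coe, Finset.mem_filter] at hp hp'
        exact Prod.ext (hp.2.trans hp'.2.symm) h
    exact_mod_cast h3
  have h3 : (S.card : ℝ) ≤ (1 + R) * (1 + 2 * 8 ^ (k - 1) * L1 / P ^ (k - 1)) := by
    have h4 : S.card = ∑ b ∈ S.image Prod.fst, (S.filter fun p => p.1 = b).card :=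
      Finset.card_eq_sum_card_image Prod.fst S
    rw [h4]
    push_cast
    refine (Finset.sum_le_sum h2).trans ?_
    rw [Finset.sum_const, nsmul_eq_mul]
    apply mul_le_mul_of_nonneg_right h1
    positivity
  refine h3.trans ?_
  set x : ℝ := L1 / P ^ (k - 1) with hx
  set y : ℝ := L2 / P ^ (j - 1) with hy
  have hx0 : 0 ≤ x := by positivity
  have hy0 : 0 ≤ y := by positivity
  have h8 : (1 : ℝ) ≤ 8 ^ (k - 1) := one_le_pow₀ (by norm_num)
  have e3 : 2 * 8 ^ (k - 1) * L1 / P ^ (k - 1) = 2 * 8 ^ (k - 1) * x := by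
    rw [hx]
    ring
  rw [e3]
  have e4 : 1 + R ≤ 5 * (1 + x + y) := by
    rw [hR]
    linarith
  have e5 : 1 + 2 * 8 ^ (k - 1) * x ≤ 2 * 8 ^ (k - 1) * (1 + x) := by
    have : 2 * 8 ^ (k - 1) * (1 + x) = 2 * 8 ^ (k - 1) + 2 * 8 ^ (k - 1) * x := by ring
    rw [this]
    linarith
  calc (1 + R) * (1 + 2 * 8 ^ (k - 1) * x) ≤ (5 * (1 + x + y)) * (2 * 8 ^ (k - 1) * (1 + x)) := by
        apply mul_le_mul e4 e5
        · positivity
        · positivity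
    _ = _ := by ring

end MWg
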