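import Pool.Agent.MWg.GoodF

/-!
# MWg.Count: counting one letter

`mainI P` is the set of naturals in `(P, 16P]`.

PROOF of `count_up`: let `x0` be as in `good_step`, `P ≥ x0`. If `u ≤ u'` in `mainI P` both satisfy
`|f u - α| ≤ M`, then `P^(n-1) (u' - u) ≤ f u' - f u ≤ 2M`; so all such `u` lie in an interval of
length `2M/P^(n-1)`, which contains at most `1 + 2M/P^(n-1)` integers.

PROOF of `count_up_J1`: the same with `v > P/8`: `(P/8)^(n-1) (v' - v) ≤ 2M`, so the count is at most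
`1 + 2 * 8^(n-1) M/P^(n-1)`.

PROOF of `count_low`. Let `D = 2 n 16^(n-1)`. For `P` large: `f` is increasing on the naturals `≥ P`
and `f u' - f u ≤ D P^(n-1) (u' - u)` for `P ≤ u ≤ u' ≤ 16 P` (`good_step`), and by `good_lim`
`f ⌊2P⌋ ≤ 2.5^n P^n`... more precisely: (i) `f ⌊2P⌋ < (5/2)^n P^n ≤ A`
(because `f ⌊2P⌋ ≤ (1+η) (2P)^n`), and (ii) every natural `u ≥ 14 P - 1` has `f u > 13^n P^n ≥ B`
(because `f u ≥ (1-η) u^n` and `14 P - 1 ≥ 13.5 P`). Let `u0 ∈ [⌊2P⌋, 14P]` be the largest natural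
number `≤ 14 P` with `f u0 < A`. By (ii) `u0 < 14P - 1`, and by maximality `f (u0+1) ≥ A`; by
monotonicity `f (u0+i) ≥ A` for all `i ≥ 1`. Let `m = ⌊(B-A)/(D P^(n-1))⌋ ≥ 1`. For `1 ≤ i ≤ m`,
by induction on `i`: `u0 + i ≤ 16P` and `f (u0+i) ≤ f u0 + i D P^(n-1) < A + (B-A) = B`, hence by (ii)
`u0 + i < 14P - 1`, so `u0 + i + 1 ≤ 16P`. So the `m` naturals `u0+1, …, u0+m` are in `mainI P`
(`u0 ≥ ⌊2P⌋ ≥ P` as `P ≥ 1`) and have `A ≤ f ≤ B`; finally `m ≥ (B-A)/(2 D P^(n-1))`.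
-/

namespace MWg

open Filter Topology

private theorem card_le_of_diam {S : Finset ℕ} {c D : ℝ} (hc : 0 < c) (hD : 0 ≤ D)
    (h : ∀ u ∈ S, ∀ u' ∈ S, u ≤ u' → c * ((u' : ℝ) - u) ≤ D) : (S.card : ℝ) ≤ 1 + D / c := by
  rcases S.eq_empty_or_nonempty with rfl | hS
  · rw [Finset.card_empty, Nat.cast_zero]
    positivity
  · obtain ⟨a, ha⟩ : ∃ a, a = S.min' hS := ⟨_, rfl⟩
    obtain ⟨b, hb⟩ : ∃ b, b = S.max' hS := ⟨_, rfl⟩
    have haS : a ∈ S := ha ▸ S.min'_mem hS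
    have hbS : b ∈ S := hb ▸ S.max'_mem hS
    have hab : a ≤ b := ha ▸ S.min'_le b hbS
    have hsub : S ⊆ Finset.Icc a b := by
      intro x hx
      rw [Finset.mem_Icc]
      exact ⟨ha ▸ S.min'_le x hx, hb ▸ S.le_max' x hx⟩
    have hcard := Finset.card_le_card hsub
    rw [Nat.card_Icc] at hcard
    have h1 := h a haS b hbS hab
    have h2 : ((S.card : ℕ) : ℝ) ≤ (b : ℝ) + 1 - a := by
      have : S.card + a ≤ b + 1 := by omega
      have h3 : ((S.card + a : ℕ) : ℝ) ≤ ((b + 1 : ℕ) : ℝ) := by exact_mod_cast this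
      push_cast at h3
      linarith
    have h3 : (b : ℝ) - a ≤ D / c := by
      rw [le_div_iff₀ hc]
      linarith
    linarith

theorem count_up {n : ℕ} (hn : 2 ≤ n) {f : ℕ → ℝ} (hf : Good n f) :
    ∃ P0 : ℝ, 1 ≤ P0 ∧ ∀ P, P0 ≤ P → ∀ α M : ℝ, 0 ≤ M →
      ((open Classical in ((mainI P).filter fun u => |f u - α| ≤ M).card : ℕ) : ℝ) ≤
        1 + 2 * M / P ^ (n - 1) := by
  obtain ⟨x0, hx0⟩ := good_step hn hf
  refine ⟨max 1 (x0 : ℝ), le_max_left _ _, fun P hP α M hM => ?_⟩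
  have hP1 : 1 ≤ P := le_trans (le_max_left _ _) hP
  have hPx : (x0 : ℝ) ≤ P := le_trans (le_max_right _ _) hP
  have hPpos : (0 : ℝ) < P ^ (n - 1) := by positivity
  classical
  refine card_le_of_diam hPpos (by positivity) ?_
  intro u hu u' hu' huu
  rw [Finset.mem_filter, mem_mainI (by linarith)] at hu hu'
  obtain ⟨⟨hu1, hu2⟩, hu3⟩ := hu
  obtain ⟨⟨hv1, hv2⟩, hv3⟩ := hu'
  have hxu : x0 ≤ u := by
    have : (x0 : ℝ) ≤ (u : ℝ) := by linarith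
    exact_mod_cast this
  have h1 := (hx0 u u' hxu huu).1
  have h2 : P ^ (n - 1) ≤ (u : ℝ) ^ (n - 1) := pow_le_pow_left₀ (by linarith) hu1.le _
  have h3 : (0 : ℝ) ≤ (u' : ℝ) - u := by
    have : (u : ℝ) ≤ u' := by exact_mod_cast huu
    linarith
  have h4 : P ^ (n - 1) * ((u' : ℝ) - u) ≤ (u : ℝ) ^ (n - 1) * ((u' : ℝ) - u) :=
    mul_le_mul_of_nonneg_right h2 h3
  rw [abs_le] at hu3 hv3
  linarith [hu3.1, hv3.2]

theorem count_up_J1 {n : ℕ} (hn : 2 ≤ n) {f : ℕ → ℝ} (hf : Good n f) :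
    ∃ P0 : ℝ, 1 ≤ P0 ∧ ∀ P, P0 ≤ P → ∀ α M : ℝ, 0 ≤ M →
      ((open Classical in ((J1 P).filter fun v => |f v - α| ≤ M).card : ℕ) : ℝ) ≤
        1 + 2 * 8 ^ (n - 1) * M / P ^ (n - 1) := by
  obtain ⟨x0, hx0⟩ := good_step hn hf
  refine ⟨max 1 (8 * (x0 : ℝ)), le_max_left _ _, fun P hP α M hM => ?_⟩
  have hP1 : 1 ≤ P := le_trans (le_max_left _ _) hP
  have hPx : 8 * (x0 : ℝ) ≤ P := le_trans (le_max_right _ _) hP
  have hPpos : (0 : ℝ) < (P / 8) ^ (n - 1) := by positivity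
  classical
  have key : (((J1 P).filter fun v => |f v - α| ≤ M).card : ℝ) ≤ 1 + 2 * M / (P / 8) ^ (n - 1) := by
    refine card_le_of_diam hPpos (by positivity) ?_
    intro u hu u' hu' huu
    rw [Finset.mem_filter, mem_J1 (by linarith)] at hu hu'
    obtain ⟨⟨hu1, hu2⟩, hu3⟩ := hu
    obtain ⟨⟨hv1, hv2⟩, hv3⟩ := hu'
    have hxu : x0 ≤ u := by
      have : (x0 : ℝ) ≤ (u : ℝ) := by linarith
      exact_mod_cast this
    have h1 := (hx0 u u' hxu huu).1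
    have h2 : (P / 8) ^ (n - 1) ≤ (u : ℝ) ^ (n - 1) := pow_le_pow_left₀ (by positivity) hu1.le _
    have h3 : (0 : ℝ) ≤ (u' : ℝ) - u := by
      have : (u : ℝ) ≤ u' := by exact_mod_cast huu
      linarith
    have h4 : (P / 8) ^ (n - 1) * ((u' : ℝ) - u) ≤ (u : ℝ) ^ (n - 1) * ((u' : ℝ) - u) :=
      mul_le_mul_of_nonneg_right h2 h3
    rw [abs_le] at hu3 hv3
    linarith [hu3.1, hv3.2]
  have e : 2 * M / (P / 8) ^ (n - 1) = 2 * 8 ^ (n - 1) * M / P ^ (n - 1) := by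
    rw [div_pow]
    field_simp
  rw [e] at key
  exact key

theorem count_low {n : ℕ} (hn : 2 ≤ n) {f : ℕ → ℝ} (hf : Good n f) :
    ∃ P0 : ℝ, 1 ≤ P0 ∧ ∀ P, P0 ≤ P → ∀ A B : ℝ, (5 / 2) ^ n * P ^ n ≤ A → B ≤ 13 ^ n * P ^ n →
      2 * n * 16 ^ (n - 1) * P ^ (n - 1) ≤ B - A →
      (B - A) / (4 * n * 16 ^ (n - 1) * P ^ (n - 1)) ≤
        ((open Classical in ((mainI P).filter fun u => A ≤ f u ∧ f u ≤ B).card : ℕ) : ℝ) := by
  obtain ⟨x0, hx0⟩ := good_step hn hf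
  have hlim := good_lim (by omega : 1 ≤ n) hf
  -- (1 - η) u^n ≤ f u ≤ (1 + η) u^n, with (1+η) 2^n < (5/2)^n, (1-η) (27/2)^n > 13^n
  obtain ⟨c1, hc1⟩ : ∃ c1 : ℝ, c1 = (5 / 4) ^ n := ⟨_, rfl⟩
  obtain ⟨c2, hc2⟩ : ∃ c2 : ℝ, c2 = (26 / 27) ^ n := ⟨_, rfl⟩
  have hc1' : 1 < c1 := by
    rw [hc1]; exact one_lt_pow₀ (by norm_num) (by omega)
  have hc2' : c2 < 1 := by
    rw [hc2]; exact pow_lt_one₀ (by norm_num) (by norm_num) (by omega)
  obtain ⟨x1, hx1⟩ := eventually_atTop.1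
    ((hlim.eventually (gt_mem_nhds hc1')).and (hlim.eventually (lt_mem_nhds hc2')))
  have hup : ∀ u : ℕ, x1 + 1 ≤ u → f u < c1 * (u : ℝ) ^ n := by
    intro u hu
    have h := (hx1 u (by omega)).1
    have hu0 : (0 : ℝ) < (u : ℝ) ^ n := by
      have : 0 < u := by omega
      positivity
    rwa [div_lt_iff₀ hu0] at h
  have hlow : ∀ u : ℕ, x1 + 1 ≤ u → c2 * (u : ℝ) ^ n < f u := by
    intro u hu
    have h := (hx1 u (by omega)).2
    have hu0 : (0 : ℝ) < (u : ℝ) ^ n := by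
      have : 0 < u := by omega
      positivity
    rwa [lt_div_iff₀ hu0] at h
  refine ⟨max 2 (max (x0 : ℝ) (x1 + 1 : ℝ)), le_trans (by norm_num) (le_max_left _ _),
    fun P hP A B hA hB hAB => ?_⟩
  have hP2 : 2 ≤ P := le_trans (le_max_left _ _) hP
  have hPx0 : (x0 : ℝ) ≤ P := le_trans (le_trans (le_max_left _ _) (le_max_right _ _)) hP
  have hPx1 : (x1 + 1 : ℝ) ≤ P := le_trans (le_trans (le_max_right _ _) (le_max_right _ _)) hP
  have hPp : (0 : ℝ) < P := by linarith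
  have hnpos : (0 : ℝ) < n := by
    have : 0 < n := by omega
    exact_mod_cast this
  -- natural numbers `≥ P`
  have hge0 : ∀ u : ℕ, P ≤ (u : ℝ) → x0 ≤ u := fun u hu => by
    have : (x0 : ℝ) ≤ (u : ℝ) := by linarith
    exact_mod_cast this
  have hge1 : ∀ u : ℕ, P ≤ (u : ℝ) → x1 + 1 ≤ u := fun u hu => by
    have : ((x1 + 1 : ℕ) : ℝ) ≤ (u : ℝ) := by push_cast; linarith
    exact_mod_cast this
  -- (i)
  have hu2 : P ≤ ((⌊2 * P⌋₊ : ℕ) : ℝ) := by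
    have := Nat.sub_one_lt_floor (2 * P)
    linarith
  have hi : f ⌊2 * P⌋₊ < A := by
    have h1 := hup _ (hge1 _ hu2)
    have h2 : ((⌊2 * P⌋₊ : ℕ) : ℝ) ^ n ≤ (2 * P) ^ n :=
      pow_le_pow_left₀ (Nat.cast_nonneg _) (Nat.floor_le (by positivity)) _
    have h3 : c1 * (2 * P) ^ n = (5 / 2) ^ n * P ^ n := by
      rw [hc1, mul_pow, ← mul_assoc, ← mul_pow]
      norm_num
    have h4 : c1 * ((⌊2 * P⌋₊ : ℕ) : ℝ) ^ n ≤ c1 * (2 * P) ^ n :=
      mul_le_mul_of_nonneg_left h2 (by linarith)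
    linarith
  -- (ii)
  have hii : ∀ u : ℕ, 14 * P - 1 ≤ (u : ℝ) → B < f u := by
    intro u hu
    have h1 : 27 / 2 * P ≤ (u : ℝ) := by linarith
    have h2 := hlow u (hge1 u (by linarith))
    have h3 : (27 / 2 * P) ^ n ≤ (u : ℝ) ^ n := pow_le_pow_left₀ (by positivity) h1 _
    have h4 : c2 * (27 / 2 * P) ^ n = 13 ^ n * P ^ n := by
      rw [hc2, mul_pow, ← mul_assoc, ← mul_pow]
      norm_num
    have h5 : c2 * (27 / 2 * P) ^ n ≤ c2 * (u : ℝ) ^ n :=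
      mul_le_mul_of_nonneg_left h3 (by rw [hc2]; positivity)
    linarith
  -- the largest natural number `u0 ≤ 14 P` with `f u0 < A`
  classical
  obtain ⟨S, hS⟩ : ∃ S : Finset ℕ, S = (Finset.Icc ⌊2 * P⌋₊ ⌊14 * P⌋₊).filter (fun u => f u < A) :=
    ⟨_, rfl⟩
  have hmem : ⌊2 * P⌋₊ ∈ S := by
    rw [hS, Finset.mem_filter, Finset.mem_Icc]
    exact ⟨⟨le_rfl, Nat.floor_le_floor (by linarith)⟩, hi⟩
  obtain ⟨u0, hu0def⟩ : ∃ u0, u0 = S.max' ⟨_, hmem⟩ := ⟨_, rfl⟩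
  have hu0S : u0 ∈ S := hu0def ▸ S.max'_mem _
  have hu0max : ∀ u ∈ S, u ≤ u0 := fun u hu => hu0def ▸ S.le_max' u hu
  rw [hS, Finset.mem_filter, Finset.mem_Icc] at hu0S
  obtain ⟨⟨hu0a, hu0b⟩, hu0c⟩ := hu0S
  have hu0P : P ≤ (u0 : ℝ) := by
    have : ((⌊2 * P⌋₊ : ℕ) : ℝ) ≤ (u0 : ℝ) := by exact_mod_cast hu0a
    linarith
  have hABlt : A < B := by
    have : 0 < 2 * (n : ℝ) * 16 ^ (n - 1) * P ^ (n - 1) := by positivity
    linarith
  have hu0lt : (u0 : ℝ) < 14 * P - 1 := by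
    by_contra hc
    push Not at hc
    have := hii u0 hc
    linarith
  -- `A ≤ f (u0 + i)` for `i ≥ 1`
  have hAone : A ≤ f (u0 + 1) := by
    by_contra hc
    push Not at hc
    have hin : u0 + 1 ∈ S := by
      rw [hS, Finset.mem_filter, Finset.mem_Icc]
      refine ⟨⟨by omega, ?_⟩, hc⟩
      apply Nat.le_floor
      push_cast
      linarith
    have := hu0max _ hin
    omega
  have hAi : ∀ i : ℕ, 1 ≤ i → A ≤ f (u0 + i) := by
    intro i hi1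
    have h1 := (hx0 (u0 + 1) (u0 + i) (by have := hge0 u0 hu0P; omega) (by omega)).1
    have h2 : (0 : ℝ) ≤ ((u0 + 1 : ℕ) : ℝ) ^ (n - 1) * (((u0 + i : ℕ) : ℝ) - ((u0 + 1 : ℕ) : ℝ)) := by
      apply mul_nonneg (by positivity)
      have : ((u0 + 1 : ℕ) : ℝ) ≤ ((u0 + i : ℕ) : ℝ) := by exact_mod_cast (by omega)
      linarith
    linarith
  obtain ⟨D, hD⟩ : ∃ D : ℝ, D = 2 * n * 16 ^ (n - 1) * P ^ (n - 1) := ⟨_, rfl⟩
  have hDpos : 0 < D := by rw [hD]; positivity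
  rw [← hD] at hAB
  obtain ⟨m, hm⟩ : ∃ m : ℕ, m = ⌊(B - A) / D⌋₊ := ⟨_, rfl⟩
  have hmle : (m : ℝ) * D ≤ B - A := by
    have h := Nat.floor_le (show 0 ≤ (B - A) / D from div_nonneg (by linarith) hDpos.le)
    rw [← hm, le_div_iff₀ hDpos] at h
    exact h
  -- upper bound
  have hup2 : ∀ i : ℕ, i ≤ m → f (u0 + i) ≤ f u0 + i * D ∧ ((u0 + i : ℕ) : ℝ) < 14 * P - 1 := by
    intro i
    induction i with
    | zero =>
      intro _
      constructor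
      · simp
      · simpa using hu0lt
    | succ i ih =>
      intro him
      obtain ⟨ih1, ih2⟩ := ih (by omega)
      have hP1 : P ≤ ((u0 + i : ℕ) : ℝ) := by push_cast; linarith [(Nat.cast_nonneg i : (0 : ℝ) ≤ i)]
      have h1 := (hx0 (u0 + i) (u0 + i + 1) (hge0 _ hP1) (by omega)).2
      have h2 : ((u0 + i + 1 : ℕ) : ℝ) ≤ 16 * P := by push_cast at ih2 ⊢; linarith
      have h3 : ((u0 + i + 1 : ℕ) : ℝ) ^ (n - 1) ≤ 16 ^ (n - 1) * P ^ (n - 1) := by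
        rw [← mul_pow]
        exact pow_le_pow_left₀ (Nat.cast_nonneg _) h2 _
      have h4 : (((u0 + i + 1 : ℕ) : ℝ) - ((u0 + i : ℕ) : ℝ)) = 1 := by push_cast; ring
      rw [h4, mul_one] at h1
      have h5 : 2 * (n : ℝ) * ((u0 + i + 1 : ℕ) : ℝ) ^ (n - 1) ≤ D := by
        rw [hD, mul_assoc (2 * (n : ℝ))]
        exact mul_le_mul_of_nonneg_left h3 (by positivity)
      have h6 : f (u0 + (i + 1)) ≤ f u0 + ((i + 1 : ℕ) : ℝ) * D := by
        rw [← Nat.add_assoc]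
        push_cast
        linarith
      refine ⟨h6, ?_⟩
      by_contra hc
      push Not at hc
      have h7 := hii _ hc
      have h8 : ((i + 1 : ℕ) : ℝ) * D ≤ (m : ℝ) * D :=
        mul_le_mul_of_nonneg_right (by exact_mod_cast him) hDpos.le
      linarith
  -- the `m` numbers
  have hsub : (Finset.Icc 1 m).image (fun i => u0 + i) ⊆
      (mainI P).filter fun u => A ≤ f u ∧ f u ≤ B := by
    intro u hu
    rw [Finset.mem_image] at hu
    obtain ⟨i, hi, rfl⟩ := hu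
    rw [Finset.mem_Icc] at hi
    obtain ⟨h1, h2⟩ := hup2 i hi.2
    rw [Finset.mem_filter, mem_mainI hPp.le]
    refine ⟨⟨?_, ?_⟩, hAi i hi.1, ?_⟩
    · have : (1 : ℝ) ≤ i := by exact_mod_cast hi.1
      push_cast
      linarith
    · linarith
    · have h8 : (i : ℝ) * D ≤ (m : ℝ) * D :=
        mul_le_mul_of_nonneg_right (by exact_mod_cast hi.2) hDpos.le
      linarith
  have hcard := Finset.card_le_card hsub
  rw [Finset.card_image_of_injective _ (add_right_injective u0), Nat.card_Icc,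
    Nat.add_sub_cancel] at hcard
  have hmge : (B - A) / (4 * n * 16 ^ (n - 1) * P ^ (n - 1)) ≤ (m : ℝ) := by
    have e : (B - A) / (4 * n * 16 ^ (n - 1) * P ^ (n - 1)) = (B - A) / D / 2 := by
      rw [hD, div_div]
      congr 1
      ring
    rw [e]
    have h1 : 1 ≤ (B - A) / D := by
      rw [le_div_iff₀ hDpos]
      linarith
    have h2 : (B - A) / D < m + 1 := by
      rw [hm]
      exact Nat.lt_floor_add_one _
    have h3 : (1 : ℝ) ≤ m := by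
      have : 1 ≤ m := by
        rw [hm]
        exact Nat.le_floor (by simpa using h1)
      exact_mod_cast this
    linarith
  exact hmge.trans (by exact_mod_cast hcard)

end MWg
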