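import Pool.Agent.MWg.Defs

/-!
# MWg.Bump: if no value is close to `y`, few values are moderately close, up to exponential sums

PROOF. Let `ψ : ℝ → ℝ` be a smooth even bump function, `0 ≤ ψ ≤ 1`, `ψ = 1` on `[-1/2, 1/2]` and
`ψ = 0` outside `(-1, 1)` (e.g. a `ContDiffBump` at `0` with `rIn = 1/2`, `rOut = 1`), and
`g = 𝓕 ψ` its Fourier transform, `g ξ = ∫ ψ x e(-x ξ) dx` (`ψ` is a Schwartz function:
`HasCompactSupport.toSchwartzMap` or `ContDiff` + compact support; so `g` is Schwartz as well).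
For a scale `η > 0` let `ψ_η x = η⁻¹ ψ (x/η)`. Fourier inversion gives, for all real `x`,
`ψ_η x = ∫ g (η θ) e(θ x) dθ`   (substitute `ξ = η θ` in `ψ (x/η) = ∫ g ξ e(ξ x/η) dξ`).
Therefore, with `F θ = ∑_i e(θ S_i)`,
`∑_i (ψ_H (S_i - y) - ψ_ε (S_i - y)) = ∫ (g (Hθ) - g (εθ)) e(-θ y) F θ dθ`.
By hypothesis `|S_i - y| ≥ ε` for every `i ∈ s`, so `ψ_ε (S_i - y) = 0`; and
`ψ_H (S_i - y) ≥ 0`, with `ψ_H (S_i - y) = 1/H` if `|S_i - y| ≤ H/2`. So the left side is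
`≥ (1/H) #{i : |S_i - y| ≤ H/2}`.
On the right side `|g (Hθ) - g (εθ)| ≤ C wt H θ` for `θ ≠ 0` with a constant `C` depending on
`ε` (and `ψ`) only:
* `g` is Lipschitz (derivative bounded): `|g (Hθ) - g (εθ)| ≤ C (H - ε) |θ| ≤ C H |θ|`;
* `g` is bounded: `≤ 2 sup |g|`;
* `|ξ|³ |g ξ| ≤ C`: `|g (Hθ)| + |g (εθ)| ≤ C (H⁻³ + ε⁻³) |θ|⁻³ ≤ 2 C ε⁻³ |θ|⁻³` (as `H ≥ 1 ≥ ε`).
Integrate (the function `wt H θ * ‖F θ‖` is integrable: it is at most
`|s| min (1, |θ|⁻³) ≤ 2|s| (1+θ²)⁻¹`).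
-/

namespace MWg

open MeasureTheory

private theorem Bump_ee_cont (x : ℝ) : Continuous fun θ : ℝ => ee (θ * x) := by
  unfold ee
  fun_prop

private theorem Bump_ee_norm (x : ℝ) : ‖ee x‖ = 1 := by
  unfold ee
  have : (2 * (Real.pi : ℂ) * x * Complex.I) = ((2 * Real.pi * x : ℝ) : ℂ) * Complex.I := by
    push_cast
    ring
  rw [this]
  exact Complex.norm_exp_ofReal_mul_I _

private theorem Bump_ee_add (x y : ℝ) : ee (x + y) = ee x * ee y := by
  unfold ee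
  rw [← Complex.exp_add]
  congr 1
  push_cast
  ring

private theorem Bump_wt_nonneg {H θ : ℝ} (hH : 0 ≤ H) : 0 ≤ wt H θ := by
  unfold wt
  positivity

private theorem Bump_wt_le (H θ : ℝ) : wt H θ ≤ 2 * (1 + θ ^ 2)⁻¹ := by
  unfold wt
  have h0 : 0 < 1 + θ ^ 2 := by positivity
  rcases le_or_gt (|θ|) 1 with h | h
  · refine (min_le_left _ _).trans ((min_le_right _ _).trans ?_)
    have h1 : θ ^ 2 ≤ 1 := by
      rw [← sq_abs]
      nlinarith [abs_nonneg θ]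
    rw [← div_eq_mul_inv, le_div_iff₀ h0]
    linarith
  · refine (min_le_right _ _).trans ?_
    have h1 : 1 + θ ^ 2 ≤ 2 * |θ| ^ 3 := by
      rw [← sq_abs]
      nlinarith [sq_nonneg (|θ|), mul_pos (lt_trans one_pos h) (lt_trans one_pos h)]
    rw [← div_eq_mul_inv, inv_eq_one_div, div_le_div_iff₀ (by positivity) h0]
    linarith

private theorem Bump_wt_meas (H : ℝ) : Measurable (wt H) := by
  unfold wt
  fun_prop

private theorem Bump_integrable {H : ℝ} (hH : 0 ≤ H) {F : ℝ → ℝ} (hF : Continuous F) {B : ℝ}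
    (h0 : ∀ θ, 0 ≤ F θ) (hB : ∀ θ, F θ ≤ B) : Integrable (fun θ : ℝ => wt H θ * F θ) := by
  have h1 : Integrable (fun θ : ℝ => 2 * B * (1 + θ ^ 2)⁻¹) := integrable_inv_one_add_sq.const_mul _
  refine h1.mono' ?_ ?_
  · exact ((Bump_wt_meas H).mul hF.measurable).aestronglyMeasurable
  · refine Filter.Eventually.of_forall fun θ => ?_
    rw [Real.norm_of_nonneg (mul_nonneg (Bump_wt_nonneg hH) (h0 θ))]
    calc wt H θ * F θ ≤ (2 * (1 + θ ^ 2)⁻¹) * B :=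
          mul_le_mul (Bump_wt_le H θ) (hB θ) (h0 θ) (by positivity)
      _ = 2 * B * (1 + θ ^ 2)⁻¹ := by ring

private theorem Bump_sum_cont {ι : Type*} (s : Finset ι) (S : ι → ℝ) :
    Continuous fun θ : ℝ => ‖∑ i ∈ s, ee (θ * S i)‖ :=
  (continuous_finset_sum _ fun i _ => Bump_ee_cont (S i)).norm

private theorem Bump_sum_le {ι : Type*} (s : Finset ι) (S : ι → ℝ) (θ : ℝ) :
    ‖∑ i ∈ s, ee (θ * S i)‖ ≤ s.card := by
  refine (norm_sum_le _ _).trans ?_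
  simp [Bump_ee_norm]

open SchwartzMap FourierTransform in
private theorem Bump_kernel : ∃ (f : ℝ → ℂ) (G : 𝓢(ℝ, ℂ)),
    (∀ x, f x = ∫ ξ : ℝ, ee (ξ * x) * G ξ) ∧ (∀ x, 1 ≤ |x| → f x = 0) ∧ (∀ x, 0 ≤ (f x).re) ∧
    (∀ x, |x| ≤ 1 / 2 → (f x).re = 1) := by
  let b : ContDiffBump (0 : ℝ) := ⟨1 / 2, 1, by norm_num, by norm_num⟩
  have h1 : HasCompactSupport (fun x => ((b x : ℝ) : ℂ)) :=
    b.hasCompactSupport.comp_left (g := fun r : ℝ => (r : ℂ)) rfl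
  have h2 : ContDiff ℝ (⊤ : ℕ∞) (fun x => ((b x : ℝ) : ℂ)) :=
    Complex.ofRealCLM.contDiff.comp b.contDiff
  let f : 𝓢(ℝ, ℂ) := h1.toSchwartzMap h2
  have hf : ∀ x, f x = ((b x : ℝ) : ℂ) := fun x => rfl
  refine ⟨f, 𝓕 f, ?_, ?_, ?_, ?_⟩
  · intro x
    have e1 : 𝓕⁻ (𝓕 f) = f := FourierTransform.fourierInv_fourier_eq f
    have e2 : f x = 𝓕⁻ ((𝓕 f : 𝓢(ℝ, ℂ)) : ℝ → ℂ) x := by
      rw [← SchwartzMap.fourierInv_coe, e1]
    rw [e2, Real.fourierInv_eq']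
    refine integral_congr_ae (Filter.Eventually.of_forall fun ξ => ?_)
    simp only [smul_eq_mul]
    congr 1
    unfold ee
    congr 1
    simp
    ring
  · intro x hx
    rw [hf, b.zero_of_le_dist, Complex.ofReal_zero]
    rw [dist_zero_right, Real.norm_eq_abs]
    exact hx
  · intro x
    rw [hf, Complex.ofReal_re]
    exact b.nonneg
  · intro x hx
    rw [hf, Complex.ofReal_re]
    refine b.one_of_mem_closedBall ?_
    rw [Metric.mem_closedBall, dist_zero_right, Real.norm_eq_abs]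
    exact hx

open SchwartzMap in
private theorem Bump_scaled {f : ℝ → ℂ} {G : 𝓢(ℝ, ℂ)} (h : ∀ x, f x = ∫ ξ : ℝ, ee (ξ * x) * G ξ)
    {η : ℝ} (hη : 0 < η) (x : ℝ) :
    ((η⁻¹ : ℝ) : ℂ) * f (x / η) = ∫ θ : ℝ, ee (θ * x) * G (η * θ) := by
  have e1 := Measure.integral_comp_mul_left (fun y : ℝ => ee (y * (x / η)) * G y) η
  have e2 : (∫ θ : ℝ, ee (θ * x) * G (η * θ)) = ∫ θ : ℝ, ee (η * θ * (x / η)) * G (η * θ) := by
    refine integral_congr_ae (Filter.Eventually.of_forall fun θ => ?_)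
    simp only
    congr 2
    field_simp
  rw [e2, e1, ← h, abs_of_pos (inv_pos.2 hη)]
  rfl

open SchwartzMap in
private theorem Bump_int {G : 𝓢(ℝ, ℂ)} {η : ℝ} (hη : 0 < η) (x : ℝ) :
    Integrable (fun θ : ℝ => ee (θ * x) * G (η * θ)) := by
  have h1 : Integrable (fun θ : ℝ => G (η * θ)) := (G.integrable (μ := volume)).comp_mul_left' hη.ne'
  refine h1.mono ?_ ?_
  · exact ((Bump_ee_cont x).mul (G.continuous.comp (continuous_const.mul continuous_id))).aestronglyMeasurable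
  · refine Filter.Eventually.of_forall fun θ => ?_
    rw [norm_mul, Bump_ee_norm, one_mul]

open SchwartzMap in
private theorem Bump_diff (G : 𝓢(ℝ, ℂ)) {ε : ℝ} (hε : 0 < ε) :
    ∃ C : ℝ, 0 < C ∧ ∀ H θ : ℝ, 1 ≤ H → ε ≤ H → ‖G (H * θ) - G (ε * θ)‖ ≤ C * wt H θ := by
  obtain ⟨C0, h0, hC0⟩ := G.decay 0 0
  obtain ⟨C1, h1, hC1⟩ := G.decay 0 1
  obtain ⟨C3, h3, hC3⟩ := G.decay 3 0
  have b0 : ∀ x, ‖G x‖ ≤ C0 := fun x => by
    have := hC0 x
    rwa [pow_zero, one_mul, norm_iteratedFDeriv_zero] at this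
  have b3 : ∀ x : ℝ, |x| ^ 3 * ‖G x‖ ≤ C3 := fun x => by
    have := hC3 x
    rwa [norm_iteratedFDeriv_zero, Real.norm_eq_abs] at this
  have b1 : ∀ x y : ℝ, ‖G x - G y‖ ≤ C1 * |x - y| := fun x y => by
    refine Convex.norm_image_sub_le_of_norm_fderiv_le (𝕜 := ℝ) (s := Set.univ)
      (fun z _ => G.differentiableAt) ?_ convex_univ (Set.mem_univ y) (Set.mem_univ x)
    intro z _
    have := hC1 z
    rwa [pow_zero, one_mul, norm_iteratedFDeriv_one] at this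
  refine ⟨C1 + 2 * C0 + C3 * (1 + (ε ^ 3)⁻¹), by positivity, fun H θ hH hεH => ?_⟩
  have hH0 : 0 < H := by linarith
  set C : ℝ := C1 + 2 * C0 + C3 * (1 + (ε ^ 3)⁻¹) with hC
  have hCpos : 0 < C := by positivity
  have k1 : ‖G (H * θ) - G (ε * θ)‖ ≤ C * (H * |θ|) := by
    refine (b1 _ _).trans ?_
    have e : H * θ - ε * θ = (H - ε) * θ := by ring
    rw [e, abs_mul, abs_of_nonneg (by linarith)]
    have c1 : C1 ≤ C := by
      rw [hC]
      have : 0 ≤ 2 * C0 + C3 * (1 + (ε ^ 3)⁻¹) := by positivity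
      linarith
    exact mul_le_mul c1 (mul_le_mul_of_nonneg_right (by linarith) (abs_nonneg _))
      (mul_nonneg (by linarith) (abs_nonneg _)) hCpos.le
  have k2 : ‖G (H * θ) - G (ε * θ)‖ ≤ C * 1 := by
    refine (norm_sub_le _ _).trans ?_
    have c1 : 2 * C0 ≤ C := by
      rw [hC]
      have : 0 ≤ C1 + C3 * (1 + (ε ^ 3)⁻¹) := by positivity
      linarith
    linarith [b0 (H * θ), b0 (ε * θ)]
  rcases eq_or_ne θ 0 with rfl | hθ
  · have e : wt H 0 = 0 := by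
      unfold wt
      simp
    rw [e, mul_zero, mul_zero, mul_zero, sub_self, norm_zero]
  have hθ0 : 0 < |θ| := abs_pos.2 hθ
  have k3 : ‖G (H * θ) - G (ε * θ)‖ ≤ C * (|θ| ^ 3)⁻¹ := by
    refine (norm_sub_le _ _).trans ?_
    have d1 : ‖G (H * θ)‖ ≤ C3 * (|θ| ^ 3)⁻¹ := by
      rw [← div_eq_mul_inv, le_div_iff₀ (by positivity)]
      have := b3 (H * θ)
      rw [abs_mul, abs_of_pos hH0, mul_pow] at this
      have hH3 : 1 ≤ H ^ 3 := one_le_pow₀ hH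
      have e : 0 ≤ |θ| ^ 3 * ‖G (H * θ)‖ := by positivity
      nlinarith
    have d2 : ‖G (ε * θ)‖ ≤ C3 * (ε ^ 3)⁻¹ * (|θ| ^ 3)⁻¹ := by
      rw [mul_assoc, ← mul_inv, ← div_eq_mul_inv, le_div_iff₀ (by positivity)]
      have := b3 (ε * θ)
      rw [abs_mul, abs_of_pos hε, mul_pow] at this
      linarith
    have c1 : C3 + C3 * (ε ^ 3)⁻¹ ≤ C := by
      rw [hC]
      have : 0 ≤ C1 + 2 * C0 := by positivity
      linarith
    have c2 := mul_le_mul_of_nonneg_right c1 (by positivity : (0 : ℝ) ≤ (|θ| ^ 3)⁻¹)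
    linarith
  unfold wt
  rcases min_choice (min (H * |θ|) 1) ((|θ| ^ 3)⁻¹) with h | h
  · rw [h]
    rcases min_choice (H * |θ|) 1 with h | h
    · rw [h]
      exact k1
    · rw [h]
      exact k2
  · rw [h]
    exact k3

theorem count_le_integral {ε : ℝ} (hε : 0 < ε) (hε1 : ε ≤ 1) :
    ∃ C : ℝ, 0 < C ∧ ∀ (ι : Type) (s : Finset ι) (S : ι → ℝ) (y H : ℝ), 1 ≤ H →
      (∀ i ∈ s, ε ≤ |S i - y|) →
      ((open Classical in (s.filter fun i => |S i - y| ≤ H / 2).card : ℕ) : ℝ) / H ≤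
        C * ∫ θ : ℝ, wt H θ * ‖∑ i ∈ s, ee (θ * S i)‖ := by
  obtain ⟨f, G, hinv, hzero, hnn, hone⟩ := Bump_kernel
  obtain ⟨C, hC, hd⟩ := Bump_diff G hε
  refine ⟨C, hC, fun ι s S y H hH hs => ?_⟩
  have hH0 : 0 < H := by linarith
  have key : ∀ i ∈ s, ((H⁻¹ : ℝ) : ℂ) * f ((S i - y) / H) =
      ∫ θ : ℝ, ee (θ * (S i - y)) * (G (H * θ) - G (ε * θ)) := by
    intro i hi
    have e1 := Bump_scaled hinv hH0 (S i - y)
    have e2 := Bump_scaled hinv hε (S i - y)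
    have e3 : f ((S i - y) / ε) = 0 := by
      refine hzero _ ?_
      rw [abs_div, abs_of_pos hε, le_div_iff₀ hε, one_mul]
      exact hs i hi
    rw [e3, mul_zero] at e2
    have e4 : (∫ θ : ℝ, ee (θ * (S i - y)) * (G (H * θ) - G (ε * θ))) =
        (∫ θ : ℝ, ee (θ * (S i - y)) * G (H * θ)) - ∫ θ : ℝ, ee (θ * (S i - y)) * G (ε * θ) := by
      rw [← integral_sub (Bump_int hH0 _) (Bump_int hε _)]
      refine integral_congr_ae (Filter.Eventually.of_forall fun θ => ?_)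
      simp only
      ring
    rw [e4, ← e2, sub_zero, e1]
  have hsum : ∑ i ∈ s, ((H⁻¹ : ℝ) : ℂ) * f ((S i - y) / H) =
      ∫ θ : ℝ, (G (H * θ) - G (ε * θ)) * ee (-(θ * y)) * ∑ i ∈ s, ee (θ * S i) := by
    rw [Finset.sum_congr rfl key, ← integral_finset_sum]
    · refine integral_congr_ae (Filter.Eventually.of_forall fun θ => ?_)
      simp only
      rw [Finset.mul_sum]
      refine Finset.sum_congr rfl fun i _ => ?_
      have e : θ * (S i - y) = -(θ * y) + θ * S i := by ring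
      rw [e, Bump_ee_add]
      ring
    · intro i _
      have h1 := (Bump_int (G := G) hH0 (S i - y)).sub (Bump_int (G := G) hε (S i - y))
      refine h1.congr (Filter.Eventually.of_forall fun θ => ?_)
      simp only [Pi.sub_apply]
      ring
  have hI : Integrable (fun θ : ℝ => C * (wt H θ * ‖∑ i ∈ s, ee (θ * S i)‖)) :=
    (Bump_integrable hH0.le (Bump_sum_cont s S) (fun _ => norm_nonneg _) (Bump_sum_le s S)).const_mul _
  have hle : ‖∑ i ∈ s, ((H⁻¹ : ℝ) : ℂ) * f ((S i - y) / H)‖ ≤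
      C * ∫ θ : ℝ, wt H θ * ‖∑ i ∈ s, ee (θ * S i)‖ := by
    rw [hsum, ← integral_const_mul]
    refine norm_integral_le_of_norm_le hI (Filter.Eventually.of_forall fun θ => ?_)
    rw [norm_mul, norm_mul, Bump_ee_norm, mul_one, ← mul_assoc]
    exact mul_le_mul_of_nonneg_right (hd H θ hH (by linarith)) (norm_nonneg _)
  refine le_trans ?_ hle
  refine le_trans ?_ (Complex.re_le_norm _)
  rw [Complex.re_sum, div_eq_mul_inv, Finset.card_filter, Nat.cast_sum, Finset.sum_mul]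
  refine Finset.sum_le_sum fun i _ => ?_
  rw [Complex.re_ofReal_mul]
  split_ifs with h
  · have h1 : |(S i - y) / H| ≤ 1 / 2 := by
      rw [abs_div, abs_of_pos hH0, div_le_iff₀ hH0]
      linarith
    rw [hone _ h1]
    simp
  · have h1 := hnn ((S i - y) / H)
    rw [Nat.cast_zero, zero_mul]
    positivity

/-- The same for sums over pairs: `∑_{(w,w')} ee (θ (S w + S w')) = (∑_w ee (θ S w)) ^ 2`. -/
theorem pair_count_le_integral {ε : ℝ} (hε : 0 < ε) (hε1 : ε ≤ 1) :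
    ∃ C : ℝ, 0 < C ∧ ∀ (ι : Type) (W : Finset ι) (S : ι → ℝ) (y H : ℝ), 1 ≤ H →
      (∀ w ∈ W, ∀ w' ∈ W, ε ≤ |S w + S w' - y|) →
      pairs W (fun p => |S p.1 + S p.2 - y| ≤ H / 2) / H ≤
        C * ∫ θ : ℝ, wt H θ * ‖∑ w ∈ W, ee (θ * S w)‖ ^ 2 := by
  obtain ⟨C, hC, h⟩ := count_le_integral hε hε1
  refine ⟨C, hC, fun ι W S y H hH hW => ?_⟩
  have h1 := h (ι × ι) (W ×ˢ W) (fun p => S p.1 + S p.2) y H hH (fun p hp => by
    rw [Finset.mem_product] at hp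
    exact hW _ hp.1 _ hp.2)
  have e : ∀ θ : ℝ, ‖∑ p ∈ W ×ˢ W, ee (θ * (S p.1 + S p.2))‖ = ‖∑ w ∈ W, ee (θ * S w)‖ ^ 2 := by
    intro θ
    rw [← norm_pow, sq, Finset.sum_mul_sum, ← Finset.sum_product']
    congr 1
    refine Finset.sum_congr rfl fun p _ => ?_
    rw [mul_add, Bump_ee_add]
  simp only [e] at h1
  exact h1

/-- Integrability of the weighted square. -/
theorem integrable_wt_sq {ι : Type*} (W : Finset ι) (S : ι → ℝ) {H : ℝ} (hH : 0 ≤ H) :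
    Integrable (fun θ : ℝ => wt H θ * ‖∑ w ∈ W, ee (θ * S w)‖ ^ 2) := by
  refine Bump_integrable (B := (W.card : ℝ) ^ 2) hH ((Bump_sum_cont W S).pow 2) (fun θ => by positivity)
    fun θ => ?_
  exact pow_le_pow_left₀ (norm_nonneg _) (Bump_sum_le W S θ) 2

end MWg
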