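import Pool.Agent.MWg.Defs

/-!
# MWg.MData: hypotheses of the abstract metric theorem
-/

namespace MWg

open MeasureTheory Filter

/-- Hypotheses of the abstract theorem. -/
structure MData (k j : ℕ) (δ : ℝ) {ι : Type} (W : ℕ → Finset ι) (a b : ι → ℝ) : Prop where
  hδ : 0 < δ
  hδj : 5 * δ ≤ j
  ne : ∀ᶠ r in atTop, (W r).Nonempty
  h1 : ∃ C : ℝ, ∀ᶠ r in atTop, ∃ m0 m1 : ℝ, 0 ≤ m0 ∧ 0 ≤ m1 ∧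
    m0 ≤ C * XX r ^ ((j : ℝ) - 5 * δ) ∧ m1 ≤ C * XX r ^ ((j : ℝ) - 5 * δ) ∧
    m0 * m1 ≤ C * XX r ^ ((j : ℝ) - 5 * δ) ∧
    ∀ M : ℝ, 0 < M → M ≤ XX r ^ j →
      pairs (W r) (fun p => |a p.1 - a p.2| ≤ M ∧ |b p.1 - b p.2| ≤ M) ≤
        C * ((W r).card : ℝ) ^ 2 * (M + m0) * (M + m1) / XX r ^ (k + j)
  h2 : ∀ t : ℝ, ∃ C : ℝ, ∀ᶠ r in atTop, ∀ M : ℝ, XX r ^ ((j : ℝ) - δ) ≤ M → M ≤ XX r ^ j →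
    pairs (W r) (fun p => |(a p.1 + t * b p.1) - (a p.2 + t * b p.2)| ≤ M) ≤
      C * ((W r).card : ℝ) ^ 2 * M / XX r ^ k
  h3 : ∀ t : ℝ, ∃ c : ℝ, 0 < c ∧ ∀ᶠ r in atTop, ∀ y : ℝ, 4 ^ k * XX r ^ k ≤ y →
    y ≤ 8 ^ k * XX r ^ k →
    c * ((W r).card : ℝ) ^ 2 * XX r ^ ((j : ℝ) - 3 * δ) / XX r ^ k ≤
      pairs (W r) (fun p => |(a p.1 + t * b p.1) + (a p.2 + t * b p.2) - y| ≤
        XX r ^ ((j : ℝ) - 3 * δ) / 2)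

end MWg
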