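import Pool.Agent.MWg.MeanSq
import Pool.Agent.MWg.MData
import Pool.Agent.MWg.Bump

/-!
# MWg.FinalD: the conclusion for a parameter t with small tails

Throughout `X = XX r = 2 ^ r`. `MData k j δ W a b` collects the hypotheses on the finite families
`W r` and the two value functions `a, b`; `S_t w = a w + t * b w`.

Put `L = X^{δ/4}`, `Θ0 = X^{δ-j}` (`≤ 1`), `H = X^{j-3δ}` (`≥ 1` since `5δ ≤ j`).

PROOF of `final_of_D`. Fix `t` with the eventual bound for `Dfun`, and `ε > 0`; w.l.o.g. `ε ≤ 1`.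
Every real `y ≥ 4^k` lies in `[4^k X^k, 8^k X^k]` for some `r` (because `8^k X_r^k = 4^k X_{r+1}^k`),
and `r → ∞` as `y → ∞`. Suppose no `w, w' ∈ W r` have `|S w + S w' - y| < ε`. Apply
`pair_count_le_integral` with `H = X^{j-3δ}`: by `h3`
`c |W|² / X^k ≤ pairs (...)/H ≤ C_ε ∫ wt H θ ‖F θ‖² dθ`, `F θ = ∑_w ee (θ S w)`.
Split the integral at `|θ| = Θ0`.
* `|θ| ≤ Θ0`: `wt H θ ≤ H |θ| ≤ H Θ0 = X^{-2δ}`, and `gauss_one` (with `Θ = Θ0`, `L/Θ0 = X^{j-3δ/4}`)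
and `h2` with `M = X^{j-3δ/4} ∈ [X^{j-δ}, X^j]` give
`∫_{-Θ0}^{Θ0} ‖F‖² ≤ e^π Θ0 (C_t |W|² X^{j-3δ/4}/X^k + |W|² exp (-π X^{δ/2})) ≤ C |W|² X^{δ/4 - k}`
for large `r` (`Θ0 ≤ 1` and the exponential is `≤ X^{-k}` eventually).
So this part contributes at most `C |W|² X^{-k - 7δ/4}`.
* `|θ| > Θ0`: `‖F (-θ)‖ = ‖F θ‖` (`ee (-x)` is the conjugate of `ee x`) and
`wt H θ ≤ min (1, |θ|⁻³)`, so this part is at most `2 Dfun ≤ 2 |W|² X^{-k-δ/4}`.
Hence `c |W|²/X^k ≤ C'' |W|² X^{-k} (X^{-7δ/4} + X^{-δ/4})`, and dividing by `|W|²/X^k > 0`: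
`c ≤ C'' (X^{-7δ/4} + X^{-δ/4})`, false for large `r`.

-/

namespace MWg

open MeasureTheory Filter

theorem finalD_ee_neg (x : ℝ) : ee (-x) = (starRingEnd ℂ) (ee x) := by
  unfold ee
  rw [← Complex.exp_conj]
  congr 1
  simp only [map_mul, Complex.conj_ofReal, Complex.conj_I]
  push_cast
  have h2 : (starRingEnd ℂ) 2 = 2 := Complex.conj_ofNat 2
  rw [h2]
  ring

theorem finalD_norm_neg {ι : Type*} (W : Finset ι) (S : ι → ℝ) (θ : ℝ) :
    ‖∑ w ∈ W, ee (-θ * S w)‖ = ‖∑ w ∈ W, ee (θ * S w)‖ := by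
  have h : ∑ w ∈ W, ee (-θ * S w) = (starRingEnd ℂ) (∑ w ∈ W, ee (θ * S w)) := by
    rw [map_sum]
    refine Finset.sum_congr rfl fun w _ => ?_
    rw [← finalD_ee_neg]
    congr 1
    ring
  rw [h, Complex.norm_conj]

theorem finalD_wt_neg (H θ : ℝ) : wt H (-θ) = wt H θ := by
  unfold wt
  rw [abs_neg]

theorem finalD_F_cont {ι : Type*} (W : Finset ι) (S : ι → ℝ) :
    Continuous (fun θ : ℝ => ‖∑ w ∈ W, ee (θ * S w)‖ ^ 2) := by
  unfold ee
  fun_prop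

theorem finalD_split {ι : Type*} (W : Finset ι) (a b : ι → ℝ) (t : ℝ) {H Θ0 : ℝ} (hH : 0 ≤ H)
    (hΘ : 0 < Θ0) :
    ∫ θ : ℝ, wt H θ * ‖∑ w ∈ W, ee (θ * (a w + t * b w))‖ ^ 2 ≤
      H * Θ0 * (∫ θ in (-Θ0)..Θ0, ‖∑ w ∈ W, ee (θ * (a w + t * b w))‖ ^ 2) +
        2 * Dfun W a b Θ0 t := by
  set g : ℝ → ℝ := fun θ => wt H θ * ‖∑ w ∈ W, ee (θ * (a w + t * b w))‖ ^ 2 with hg
  have hint : Integrable g := integrable_wt_sq W (fun w => a w + t * b w) hH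
  have heven : ∀ θ, g (-θ) = g θ := by
    intro θ
    simp only [hg]
    rw [finalD_wt_neg, finalD_norm_neg W (fun w => a w + t * b w) θ]
  have h1 : ∫ θ, g θ = (∫ θ in Set.Iic Θ0, g θ) + ∫ θ in Set.Ioi Θ0, g θ :=
    (intervalIntegral.integral_Iic_add_Ioi hint.integrableOn hint.integrableOn).symm
  have h2 : (∫ θ in Set.Iic Θ0, g θ) - (∫ θ in Set.Iic (-Θ0), g θ) = ∫ θ in (-Θ0)..Θ0, g θ :=
    intervalIntegral.integral_Iic_sub_Iic hint.integrableOn hint.integrableOn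
  have h3 : (∫ θ in Set.Iic (-Θ0), g θ) = ∫ θ in Set.Ioi Θ0, g θ := by
    rw [← integral_comp_neg_Ioi]
    simp only [heven]
  have h4 : (∫ θ in Set.Ioi Θ0, g θ) ≤ Dfun W a b Θ0 t := by
    unfold Dfun
    refine setIntegral_mono_on hint.integrableOn (meanSq_mG_int W a b hΘ t) measurableSet_Ioi ?_
    intro θ hθ
    have hθ0 : 0 < θ := hΘ.trans hθ
    simp only [hg]
    refine mul_le_mul_of_nonneg_right ?_ (by positivity)
    unfold wt
    rw [abs_of_pos hθ0]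
    exact min_le_min_right _ (min_le_right _ _)
  have h5 : (∫ θ in (-Θ0)..Θ0, g θ) ≤
      ∫ θ in (-Θ0)..Θ0, H * Θ0 * ‖∑ w ∈ W, ee (θ * (a w + t * b w))‖ ^ 2 := by
    refine intervalIntegral.integral_mono_on (by linarith) hint.intervalIntegrable ?_ ?_
    · exact ((finalD_F_cont W (fun w => a w + t * b w)).const_mul (H * Θ0)).intervalIntegrable _ _
    · intro θ hθ
      simp only [hg]
      refine mul_le_mul_of_nonneg_right ?_ (by positivity)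
      unfold wt
      refine (min_le_left _ _).trans ((min_le_left _ _).trans ?_)
      exact mul_le_mul_of_nonneg_left (abs_le.mpr ⟨hθ.1, hθ.2⟩) hH
  rw [intervalIntegral.integral_const_mul] at h5
  linarith

theorem finalD_XX_tendsto : Tendsto XX atTop atTop := by
  unfold XX
  exact tendsto_pow_atTop_atTop_of_one_lt (by norm_num)

theorem finalD_XX_pos (r : ℕ) : 0 < XX r := by
  unfold XX
  positivity

theorem finalD_XX_one (r : ℕ) : 1 ≤ XX r := by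
  unfold XX
  exact one_le_pow₀ (by norm_num)

theorem finalD_exp (k : ℕ) {δ : ℝ} (hδ : 0 < δ) : ∀ᶠ r in atTop,
    Real.exp (-Real.pi * (XX r ^ (δ / 4)) ^ 2) ≤ (XX r ^ k)⁻¹ := by
  have h1 : Tendsto (fun r => XX r ^ (δ / 2)) atTop atTop :=
    (tendsto_rpow_atTop (by positivity)).comp finalD_XX_tendsto
  have h2 := (tendsto_rpow_mul_exp_neg_mul_atTop_nhds_zero (2 * (k : ℝ) / δ) Real.pi Real.pi_pos).comp h1
  have h3 := h2.eventually (gt_mem_nhds (show (0 : ℝ) < 1 by norm_num))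
  filter_upwards [h3] with r hr
  simp only [Function.comp] at hr
  have hX := finalD_XX_pos r
  have e1 : (XX r ^ (δ / 2)) ^ (2 * (k : ℝ) / δ) = XX r ^ k := by
    rw [← Real.rpow_mul hX.le, ← Real.rpow_natCast]
    congr 1
    field_simp
  have e2 : (XX r ^ (δ / 4)) ^ 2 = XX r ^ (δ / 2) := by
    rw [← Real.rpow_natCast, ← Real.rpow_mul hX.le]
    congr 1
    push_cast
    ring
  rw [e1] at hr
  rw [e2]
  have hXk : 0 < XX r ^ k := by positivity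
  rw [← one_div, le_div_iff₀ hXk, mul_comm]
  exact hr.le

theorem finalD_small (C D : ℝ) {c δ : ℝ} (hc : 0 < c) (hδ : 0 < δ) : ∀ᶠ r in atTop,
    C * (Real.exp Real.pi * (D * XX r ^ (-(7 * δ / 4)) + XX r ^ (-(2 * δ)))
      + 2 * XX r ^ (-(δ / 4))) < c := by
  have t1 : Tendsto (fun r => XX r ^ (-(7 * δ / 4))) atTop (nhds 0) :=
    (tendsto_rpow_neg_atTop (by positivity)).comp finalD_XX_tendsto
  have t2 : Tendsto (fun r => XX r ^ (-(2 * δ))) atTop (nhds 0) :=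
    (tendsto_rpow_neg_atTop (by positivity)).comp finalD_XX_tendsto
  have t3 : Tendsto (fun r => XX r ^ (-(δ / 4))) atTop (nhds 0) :=
    (tendsto_rpow_neg_atTop (by positivity)).comp finalD_XX_tendsto
  have t4 := (((t1.const_mul D).add t2).const_mul (Real.exp Real.pi)).add (t3.const_mul 2)
  have t5 := t4.const_mul C
  have e : C * (Real.exp Real.pi * (D * 0 + 0) + 2 * 0) = 0 := by ring
  rw [e] at t5
  exact t5.eventually (gt_mem_nhds hc)

theorem finalD_scale {k : ℕ} (hk1 : 1 ≤ k) (r0 : ℕ) {y : ℝ} (hy : 4 ^ k * XX r0 ^ k ≤ y) :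
    ∃ r : ℕ, r0 ≤ r ∧ 4 ^ k * XX r ^ k ≤ y ∧ y ≤ 8 ^ k * XX r ^ k := by
  have hex : ∃ r : ℕ, y < 4 ^ k * XX r ^ k := by
    obtain ⟨r, hr⟩ := (finalD_XX_tendsto.eventually_gt_atTop y).exists
    refine ⟨r, hr.trans_le ?_⟩
    have h1 : XX r ≤ XX r ^ k := le_self_pow₀ (finalD_XX_one r) (by omega)
    have h2 : (1 : ℝ) ≤ 4 ^ k := one_le_pow₀ (by norm_num)
    have h3 : 0 ≤ XX r ^ k := (pow_pos (finalD_XX_pos r) k).le
    nlinarith
  classical
  obtain ⟨m, hm, hmin⟩ : ∃ m, y < 4 ^ k * XX m ^ k ∧ ∀ i < m, ¬ y < 4 ^ k * XX i ^ k :=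
    ⟨Nat.find hex, Nat.find_spec hex, fun i hi => Nat.find_min hex hi⟩
  have hmono : ∀ i l : ℕ, i ≤ l → XX i ^ k ≤ XX l ^ k := by
    intro i l hil
    refine pow_le_pow_left₀ (finalD_XX_pos i).le ?_ k
    unfold XX
    exact pow_le_pow_right₀ (by norm_num) hil
  have hlt : r0 < m := by
    by_contra hcon
    push Not at hcon
    have h1 := hmono m r0 hcon
    have h2 : (0 : ℝ) < 4 ^ k := by positivity
    nlinarith
  refine ⟨m - 1, by omega, not_lt.mp (hmin (m - 1) (by omega)), ?_⟩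
  have e : 8 ^ k * XX (m - 1) ^ k = 4 ^ k * XX m ^ k := by
    rw [← mul_pow, ← mul_pow]
    congr 1
    unfold XX
    obtain ⟨l, rfl⟩ : ∃ l, m = l + 1 := ⟨m - 1, by omega⟩
    simp only [Nat.add_sub_cancel]
    rw [pow_succ]
    ring
  rw [e]
  exact hm.le

theorem final_of_D {k j : ℕ} {δ : ℝ} {ι : Type} {W : ℕ → Finset ι} {a b : ι → ℝ} (hk : j ≤ k)
    (hk1 : 1 ≤ k) (h : MData k j δ W a b) (t : ℝ)
    (ht : ∀ᶠ r in atTop, Dfun (W r) a b (XX r ^ (δ - (j : ℝ))) t ≤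
      ((W r).card : ℝ) ^ 2 * XX r ^ (-(k : ℝ) - δ / 4)) :
    ∀ ε : ℝ, 0 < ε → ∃ Y : ℝ, ∀ y : ℝ, Y ≤ y → ∃ r : ℕ, ∃ w ∈ W r, ∃ w' ∈ W r,
      |(a w + t * b w) + (a w' + t * b w') - y| < ε := by
  intro ε hε
  set ε' := min ε 1 with hε'
  have hε'0 : 0 < ε' := lt_min hε one_pos
  have hε'1 : ε' ≤ 1 := min_le_right _ _
  obtain ⟨C, hC, hpair⟩ := pair_count_le_integral hε'0 hε'1
  obtain ⟨c, hc, h3⟩ := h.h3 t
  obtain ⟨Ct, h2⟩ := h.h2 t
  have hδ := h.hδ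
  have hδj := h.hδj
  have key : ∀ᶠ r in atTop, ∀ y : ℝ, 4 ^ k * XX r ^ k ≤ y → y ≤ 8 ^ k * XX r ^ k →
      ∃ w ∈ W r, ∃ w' ∈ W r, |(a w + t * b w) + (a w' + t * b w') - y| < ε' := by
    filter_upwards [h3, h2, h.ne, ht, finalD_exp k hδ, finalD_small C |Ct| hc hδ] with
      r h3 h2 hne ht hexp hsmall
    intro y hy1 hy2
    by_contra hcon
    push Not at hcon
    set X := XX r with hXdef
    have hX : 0 < X := finalD_XX_pos r
    have hX1 : 1 ≤ X := finalD_XX_one r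
    set n : ℝ := ((W r).card : ℝ) with hn
    have hn0 : 0 < n := by
      rw [hn]
      exact_mod_cast Finset.card_pos.mpr hne
    set H : ℝ := X ^ ((j : ℝ) - 3 * δ) with hHdef
    set Θ0 : ℝ := X ^ (δ - (j : ℝ)) with hΘdef
    set L : ℝ := X ^ (δ / 4) with hLdef
    have hH1 : 1 ≤ H := Real.one_le_rpow hX1 (by linarith)
    have hH0 : 0 < H := by linarith
    have hΘ0 : 0 < Θ0 := Real.rpow_pos_of_pos hX _
    have hΘ1 : Θ0 ≤ 1 := Real.rpow_le_one_of_one_le_of_nonpos hX1 (by linarith)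
    have hL0 : 0 < L := Real.rpow_pos_of_pos hX _
    have hXk : 0 < X ^ k := pow_pos hX k
    have hc1 := h3 y hy1 hy2
    have hI := hpair ι (W r) (fun w => a w + t * b w) y H hH1 (fun w hw w' hw' => hcon w hw w' hw')
    have hA : c * n ^ 2 / X ^ k ≤
        pairs (W r) (fun p => |(a p.1 + t * b p.1) + (a p.2 + t * b p.2) - y| ≤ H / 2) / H := by
      rw [le_div_iff₀ hH0]
      calc c * n ^ 2 / X ^ k * H = c * n ^ 2 * H / X ^ k := by ring
        _ ≤ _ := hc1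
    have hS := finalD_split (W r) a b t hH0.le hΘ0
    have hG := gauss_one (W r) (fun w => a w + t * b w) hΘ0 hL0
    have eM : L / Θ0 = X ^ ((j : ℝ) - 3 * δ / 4) := by
      rw [hLdef, hΘdef, ← Real.rpow_sub hX]
      congr 1
      ring
    have hM1 : X ^ ((j : ℝ) - δ) ≤ L / Θ0 := by
      rw [eM]
      exact Real.rpow_le_rpow_of_exponent_le hX1 (by linarith)
    have hM2 : L / Θ0 ≤ X ^ j := by
      rw [eM, ← Real.rpow_natCast]
      exact Real.rpow_le_rpow_of_exponent_le hX1 (by linarith)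
    have hP := h2 (L / Θ0) hM1 hM2
    have hMpos : 0 < L / Θ0 := div_pos hL0 hΘ0
    have hP2 : pairs (W r) (fun p => |(a p.1 + t * b p.1) - (a p.2 + t * b p.2)| ≤ L / Θ0) ≤
        |Ct| * n ^ 2 * (L / Θ0) / X ^ k := by
      refine hP.trans ?_
      have : Ct ≤ |Ct| := le_abs_self _
      gcongr
    have hJ : (∫ θ in (-Θ0)..Θ0, ‖∑ w ∈ W r, ee (θ * (a w + t * b w))‖ ^ 2) ≤
        Real.exp Real.pi * Θ0 * (|Ct| * n ^ 2 * (L / Θ0) / X ^ k + n ^ 2 * (X ^ k)⁻¹) := by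
      refine hG.trans ?_
      have h6 : n ^ 2 * Real.exp (-Real.pi * L ^ 2) ≤ n ^ 2 * (X ^ k)⁻¹ :=
        mul_le_mul_of_nonneg_left hexp (by positivity)
      have h7 : 0 ≤ Real.exp Real.pi * Θ0 := by positivity
      exact mul_le_mul_of_nonneg_left (add_le_add hP2 h6) h7
    have eHT : H * Θ0 = X ^ (-(2 * δ)) := by
      rw [hHdef, hΘdef, ← Real.rpow_add hX]
      congr 1
      ring
    have e7 : X ^ (-(2 * δ)) * L = X ^ (-(7 * δ / 4)) := by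
      rw [hLdef, ← Real.rpow_add hX]
      congr 1
      ring
    have h8 : H * Θ0 * (Real.exp Real.pi * Θ0 *
        (|Ct| * n ^ 2 * (L / Θ0) / X ^ k + n ^ 2 * (X ^ k)⁻¹)) ≤
        n ^ 2 / X ^ k * (Real.exp Real.pi * (|Ct| * X ^ (-(7 * δ / 4)) + X ^ (-(2 * δ)))) := by
      have e8 : H * Θ0 * (Real.exp Real.pi * Θ0 *
          (|Ct| * n ^ 2 * (L / Θ0) / X ^ k + n ^ 2 * (X ^ k)⁻¹)) =
          n ^ 2 / X ^ k * (Real.exp Real.pi * (|Ct| * ((H * Θ0) * L) + (H * Θ0) * Θ0)) := by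
        field_simp
      rw [e8, eHT, e7]
      have h9 : X ^ (-(2 * δ)) * Θ0 ≤ X ^ (-(2 * δ)) := by
        have : 0 ≤ X ^ (-(2 * δ)) := Real.rpow_nonneg hX.le _
        nlinarith
      have h10 : 0 ≤ n ^ 2 / X ^ k := by positivity
      have h11 : 0 ≤ Real.exp Real.pi := (Real.exp_pos _).le
      gcongr
    have e9 : X ^ (-(k : ℝ) - δ / 4) = (X ^ k)⁻¹ * X ^ (-(δ / 4)) := by
      rw [show -(k : ℝ) - δ / 4 = -(k : ℝ) + -(δ / 4) by ring, Real.rpow_add hX,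
        Real.rpow_neg hX.le (k : ℝ), Real.rpow_natCast]
    have hD : 2 * Dfun (W r) a b Θ0 t ≤ n ^ 2 / X ^ k * (2 * X ^ (-(δ / 4))) := by
      rw [e9] at ht
      calc 2 * Dfun (W r) a b Θ0 t ≤ 2 * (n ^ 2 * ((X ^ k)⁻¹ * X ^ (-(δ / 4)))) := by linarith
        _ = _ := by ring
    have hHT : 0 ≤ H * Θ0 := by positivity
    have hfin : c * n ^ 2 / X ^ k ≤ n ^ 2 / X ^ k * (C * (Real.exp Real.pi *
        (|Ct| * X ^ (-(7 * δ / 4)) + X ^ (-(2 * δ))) + 2 * X ^ (-(δ / 4)))) := by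
      calc c * n ^ 2 / X ^ k ≤ C * ∫ θ : ℝ, wt H θ * ‖∑ w ∈ W r, ee (θ * (a w + t * b w))‖ ^ 2 :=
            hA.trans hI
        _ ≤ C * (n ^ 2 / X ^ k * (Real.exp Real.pi * (|Ct| * X ^ (-(7 * δ / 4)) + X ^ (-(2 * δ))))
            + n ^ 2 / X ^ k * (2 * X ^ (-(δ / 4)))) := by
            refine mul_le_mul_of_nonneg_left ?_ hC.le
            refine hS.trans (add_le_add ?_ hD)
            exact (mul_le_mul_of_nonneg_left hJ hHT).trans h8
        _ = _ := by ring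
    have hq : 0 < n ^ 2 / X ^ k := by positivity
    have : c * n ^ 2 / X ^ k = n ^ 2 / X ^ k * c := by ring
    rw [this] at hfin
    have := le_of_mul_le_mul_left hfin hq
    linarith
  obtain ⟨r0, hr0⟩ := eventually_atTop.mp key
  refine ⟨4 ^ k * XX r0 ^ k, fun y hy => ?_⟩
  obtain ⟨r, hr, h4, h5⟩ := finalD_scale hk1 r0 hy
  obtain ⟨w, hw, w', hw', hlt⟩ := hr0 r hr y h4 h5
  exact ⟨r, w, hw, w', hw', hlt.trans_le (min_le_left _ _)⟩

end MWg
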