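import Pool.Agent.MWg.Defs

/-!
# MWg.Gauss: the Gaussian sieve (two mean square bounds for exponential sums)

`W` finite, `a b : ι → ℝ`, `ee x = exp (2 π i x)`.

PROOF of `gauss_one`. For `|θ| ≤ Θ` we have `1 ≤ e^π exp (-π θ²/Θ²)`. Hence the integral is
`≤ e^π ∫_ℝ exp (-π θ²/Θ²) ‖∑_w ee (θ a_w)‖² dθ` (restrict/extend a nonnegative integrable function).
Expand the square: `‖∑_w ee (θ a_w)‖² = ∑_{w,w'} ee (θ (a_w - a_w'))` (a real number), and by the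
Fourier transform of the Gaussian (Mathlib: `fourierIntegral_gaussian` / `integral_cexp_...`, or
`Real.fourierIntegral_gaussian_pi`...)
`∫_ℝ exp (-π θ²/Θ²) ee (θ x) dθ = Θ exp (-π Θ² x²)`.
So we get `e^π Θ ∑_{w,w'} exp (-π Θ² (a_w - a_w')²)`; each pair with `|a_w - a_w'| ≤ L/Θ` contributes
at most `1`, every other pair at most `exp (-π L²)`, and there are `|W|²` pairs.

PROOF of `gauss_two`. Substitute `φ = θ t` in the inner integral (for fixed `θ ∈ [Θ, 2Θ]`, after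
swapping the two integrals, everything is continuous on a compact rectangle):
`∫_{-T}^{T} ‖∑ ee (θ a + θ t b)‖² dt = θ⁻¹ ∫_{-θT}^{θT} ‖∑ ee (θ a + φ b)‖² dφ
 ≤ Θ⁻¹ ∫_{|φ| ≤ 2TΘ} ‖∑ ee (θ a + φ b)‖² dφ`.
With `1 ≤ e^π exp (-π θ²/(2Θ)²)` for `|θ| ≤ 2Θ` and `1 ≤ e^π exp (-π φ²/(2TΘ)²)` for `|φ| ≤ 2TΘ`, and
the product formula (expand the square as above)
`∫∫_{ℝ²} exp (-π θ²/(2Θ)²) exp (-π φ²/(2TΘ)²) ‖∑ ee (θ a_w + φ b_w)‖² dφ dθ
  = (2Θ) (2TΘ) ∑_{w,w'} exp (-π 4Θ² (Δa)²) exp (-π 4T²Θ² (Δb)²)`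
we get `≤ Θ⁻¹ e^{2π} (2Θ)(2TΘ) ∑ = 4 e^{2π} T Θ ∑_{w,w'} exp (-4πΘ²(Δa)²) exp (-4πT²Θ²(Δb)²)`.
A pair with `|Δa| ≤ L/Θ` and `|Δb| ≤ L/Θ` contributes at most `1`; if `|Δa| > L/Θ` the term is at
most `exp (-4πL²) ≤ exp (-πL²)`, and if `|Δb| > L/Θ` it is at most `exp (-4πT²L²) ≤ exp (-πL²)`
because `T ≥ 1`.

(To avoid the two dimensional Gaussian integral one may do the one dimensional expansion twice:
first in `φ` for fixed `θ`, then in `θ`.)
-/

namespace MWg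
open MeasureTheory

private theorem gauss_ft {Θ : ℝ} (hΘ : 0 < Θ) (x : ℝ) :
    Integrable (fun θ : ℝ => ((Real.exp (-Real.pi * θ ^ 2 / Θ ^ 2) : ℝ) : ℂ) * ee (θ * x)) ∧
    ∫ θ : ℝ, ((Real.exp (-Real.pi * θ ^ 2 / Θ ^ 2) : ℝ) : ℂ) * ee (θ * x) =
      ((Θ * Real.exp (-Real.pi * Θ ^ 2 * x ^ 2) : ℝ) : ℂ) := by
  have hb : 0 < ((((Real.pi / Θ ^ 2 : ℝ)) : ℂ)).re := by
    rw [Complex.ofReal_re]; positivity
  have e1 : (fun θ : ℝ => ((Real.exp (-Real.pi * θ ^ 2 / Θ ^ 2) : ℝ) : ℂ) * ee (θ * x)) =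
      fun θ : ℝ => Complex.exp (Complex.I * ((2 * Real.pi * x : ℝ) : ℂ) * θ) *
        Complex.exp (-((Real.pi / Θ ^ 2 : ℝ) : ℂ) * (θ : ℂ) ^ 2) := by
    funext θ
    unfold ee
    rw [Complex.ofReal_exp, mul_comm]
    congr 1
    · congr 1
      push_cast
      ring
    · congr 1
      push_cast
      ring
  constructor
  · rw [e1]
    have h := integrable_cexp_quadratic hb (Complex.I * ((2 * Real.pi * x : ℝ) : ℂ)) 0
    refine h.congr (Filter.Eventually.of_forall fun θ => ?_)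
    simp only
    rw [← Complex.exp_add]
    congr 1
    ring
  · rw [e1, fourierIntegral_gaussian hb]
    have h2 : ((Real.pi : ℂ) / ((Real.pi / Θ ^ 2 : ℝ) : ℂ)) ^ (1 / 2 : ℂ) = (Θ : ℂ) := by
      have h3 : ((Real.pi : ℂ) / ((Real.pi / Θ ^ 2 : ℝ) : ℂ)) = ((Θ ^ 2 : ℝ) : ℂ) := by
        rw [← Complex.ofReal_div]
        congr 1
        have := Real.pi_pos
        field_simp
      rw [h3, show (1 / 2 : ℂ) = ((1 / 2 : ℝ) : ℂ) by push_cast; ring,
        ← Complex.ofReal_cpow (by positivity)]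
      congr 1
      rw [← Real.sqrt_eq_rpow, Real.sqrt_sq hΘ.le]
    rw [h2]
    push_cast
    congr 2
    have := Real.pi_pos
    have h4 : (Real.pi : ℂ) ≠ 0 := by exact_mod_cast this.ne'
    have h5 : (Θ : ℂ) ≠ 0 := by exact_mod_cast hΘ.ne'
    field_simp
    ring

private theorem gauss_gg {κ : Type*} (P : Finset κ) (g : κ → ℂ) (x : κ → ℝ) {Θ : ℝ} (hΘ : 0 < Θ)
    (hF : ∀ θ : ℝ, 0 ≤ ∑ p ∈ P, (g p * ee (θ * x p)).re) {α β : ℝ} (hα : -Θ ≤ α) (hαβ : α ≤ β)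
    (hβ : β ≤ Θ) :
    ∫ θ in α..β, ∑ p ∈ P, (g p * ee (θ * x p)).re ≤
      Real.exp Real.pi * Θ * ∑ p ∈ P, (g p).re * Real.exp (-Real.pi * Θ ^ 2 * (x p) ^ 2) := by
  have hee : Continuous ee := by unfold ee; fun_prop
  -- the complex integrals
  have hint : ∀ p ∈ P, Integrable (fun θ : ℝ =>
      g p * (((Real.exp (-Real.pi * θ ^ 2 / Θ ^ 2) : ℝ) : ℂ) * ee (θ * x p))) :=
    fun p _ => (gauss_ft hΘ (x p)).1.const_mul (g p)
  have hintre : ∀ p ∈ P, Integrable (fun θ : ℝ =>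
      (g p * (((Real.exp (-Real.pi * θ ^ 2 / Θ ^ 2) : ℝ) : ℂ) * ee (θ * x p))).re) :=
    fun p hp => (hint p hp).re
  have hval : ∀ p ∈ P, ∫ θ : ℝ,
      (g p * (((Real.exp (-Real.pi * θ ^ 2 / Θ ^ 2) : ℝ) : ℂ) * ee (θ * x p))).re =
      Θ * ((g p).re * Real.exp (-Real.pi * Θ ^ 2 * (x p) ^ 2)) := by
    intro p hp
    have h1 := integral_re (𝕜 := ℂ) (hint p hp)
    simp only [RCLike.re_eq_complex_re] at h1
    rw [h1, integral_const_mul, (gauss_ft hΘ (x p)).2, Complex.re_mul_ofReal]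
    ring
  have hsum : (fun θ : ℝ => Real.exp (-Real.pi * θ ^ 2 / Θ ^ 2) *
      ∑ p ∈ P, (g p * ee (θ * x p)).re) = fun θ : ℝ => ∑ p ∈ P,
      (g p * (((Real.exp (-Real.pi * θ ^ 2 / Θ ^ 2) : ℝ) : ℂ) * ee (θ * x p))).re := by
    funext θ
    rw [Finset.mul_sum]
    refine Finset.sum_congr rfl fun p _ => ?_
    rw [mul_left_comm, Complex.re_ofReal_mul]
  have hintF : Integrable (fun θ : ℝ => Real.exp (-Real.pi * θ ^ 2 / Θ ^ 2) *
      ∑ p ∈ P, (g p * ee (θ * x p)).re) := by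
    rw [hsum]
    exact integrable_finsetSum _ hintre
  have hvalF : ∫ θ : ℝ, Real.exp (-Real.pi * θ ^ 2 / Θ ^ 2) *
      ∑ p ∈ P, (g p * ee (θ * x p)).re =
      Θ * ∑ p ∈ P, (g p).re * Real.exp (-Real.pi * Θ ^ 2 * (x p) ^ 2) := by
    rw [hsum, integral_finsetSum _ hintre, Finset.mul_sum]
    exact Finset.sum_congr rfl hval
  have hcont : Continuous (fun θ : ℝ => ∑ p ∈ P, (g p * ee (θ * x p)).re) := by
    refine continuous_finsetSum _ fun p _ => ?_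
    exact Complex.continuous_re.comp (continuous_const.mul (hee.comp (by fun_prop)))
  calc ∫ θ in α..β, ∑ p ∈ P, (g p * ee (θ * x p)).re
      ≤ ∫ θ in α..β, Real.exp Real.pi * (Real.exp (-Real.pi * θ ^ 2 / Θ ^ 2) *
          ∑ p ∈ P, (g p * ee (θ * x p)).re) := by
        refine intervalIntegral.integral_mono_on hαβ (hcont.intervalIntegrable _ _)
          ((Continuous.mul continuous_const ((by fun_prop : Continuous fun θ : ℝ =>
            Real.exp (-Real.pi * θ ^ 2 / Θ ^ 2)).mul hcont)).intervalIntegrable _ _) ?_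
        intro θ hθ
        have h1 : 1 ≤ Real.exp Real.pi * Real.exp (-Real.pi * θ ^ 2 / Θ ^ 2) := by
          rw [← Real.exp_add]
          apply Real.one_le_exp
          have h2 : θ ^ 2 ≤ Θ ^ 2 := by
            apply sq_le_sq'
            · linarith [hθ.1]
            · linarith [hθ.2]
          have h3 : θ ^ 2 / Θ ^ 2 ≤ 1 := (div_le_one (by positivity)).2 h2
          have := Real.pi_pos
          have h4 : -Real.pi * θ ^ 2 / Θ ^ 2 = -Real.pi * (θ ^ 2 / Θ ^ 2) := by ring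
          rw [h4]
          nlinarith
        calc ∑ p ∈ P, (g p * ee (θ * x p)).re
            ≤ (Real.exp Real.pi * Real.exp (-Real.pi * θ ^ 2 / Θ ^ 2)) *
              ∑ p ∈ P, (g p * ee (θ * x p)).re := le_mul_of_one_le_left (hF θ) h1
          _ = _ := by ring
    _ = Real.exp Real.pi * ∫ θ in α..β, (Real.exp (-Real.pi * θ ^ 2 / Θ ^ 2) *
          ∑ p ∈ P, (g p * ee (θ * x p)).re) := by
        rw [intervalIntegral.integral_const_mul]
    _ ≤ Real.exp Real.pi * ∫ θ : ℝ, (Real.exp (-Real.pi * θ ^ 2 / Θ ^ 2) *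
          ∑ p ∈ P, (g p * ee (θ * x p)).re) := by
        refine mul_le_mul_of_nonneg_left ?_ (Real.exp_pos _).le
        rw [intervalIntegral.integral_of_le hαβ]
        exact setIntegral_le_integral hintF (Filter.Eventually.of_forall fun θ =>
          mul_nonneg (Real.exp_pos _).le (hF θ))
    _ = _ := by rw [hvalF]; ring


private theorem gauss_ee_norm (x : ℝ) : ‖ee x‖ = 1 := by
  unfold ee
  rw [show (2 * Real.pi * x * Complex.I : ℂ) = ((2 * Real.pi * x : ℝ) : ℂ) * Complex.I by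
    push_cast; ring]
  exact Complex.norm_exp_ofReal_mul_I _

private theorem gauss_ee_add (x y : ℝ) : ee (x + y) = ee x * ee y := by
  unfold ee
  rw [← Complex.exp_add]
  congr 1
  push_cast
  ring

private theorem gauss_ee_conj (x : ℝ) : (starRingEnd ℂ) (ee x) = ee (-x) := by
  unfold ee
  rw [← Complex.exp_conj]
  congr 1
  simp only [map_mul, Complex.conj_I, Complex.conj_ofReal, map_ofNat]
  push_cast
  ring

private theorem gauss_expand {ι : Type*} (W : Finset ι) (u : ι → ℝ) :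
    ‖∑ w ∈ W, ee (u w)‖ ^ 2 = ∑ p ∈ W ×ˢ W, (ee (u p.1 - u p.2)).re := by
  have h1 : (((‖∑ w ∈ W, ee (u w)‖ ^ 2 : ℝ)) : ℂ) =
      ∑ p ∈ W ×ˢ W, ee (u p.1 - u p.2) := by
    rw [Complex.ofReal_pow, ← Complex.mul_conj', map_sum, Finset.sum_mul_sum,
      ← Finset.sum_product']
    refine Finset.sum_congr rfl fun p _ => ?_
    rw [gauss_ee_conj, ← gauss_ee_add, sub_eq_add_neg]
  have h2 := congrArg Complex.re h1
  rw [Complex.ofReal_re, Complex.re_sum] at h2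
  exact h2

private theorem gauss_pairs {ι : Type*} (W : Finset ι) (p : ι × ι → Prop) (F : ι × ι → ℝ) {E : ℝ}
    (hE : 0 ≤ E) (h1 : ∀ q ∈ W ×ˢ W, F q ≤ 1) (h2 : ∀ q ∈ W ×ˢ W, ¬ p q → F q ≤ E) :
    ∑ q ∈ W ×ˢ W, F q ≤ pairs W p + (W.card : ℝ) ^ 2 * E := by
  classical
  have h3 : pairs W p = ∑ q ∈ W ×ˢ W, (if p q then (1 : ℝ) else 0) := by
    unfold pairs
    rw [Finset.card_filter]
    push_cast
    refine Finset.sum_congr rfl fun q _ => ?_
    by_cases hq : p q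
    · rw [if_pos hq]
    · rw [if_neg hq]
  have h4 : (W.card : ℝ) ^ 2 * E = ∑ _q ∈ W ×ˢ W, E := by
    rw [Finset.sum_const, Finset.card_product, nsmul_eq_mul]
    push_cast
    ring
  rw [h3, h4, ← Finset.sum_add_distrib]
  refine Finset.sum_le_sum fun q hq => ?_
  by_cases hp : p q
  · rw [if_pos hp]; linarith [h1 q hq]
  · rw [if_neg hp]; linarith [h2 q hq hp]

theorem gauss_one {ι : Type*} (W : Finset ι) (a : ι → ℝ) {Θ L : ℝ} (hΘ : 0 < Θ) (hL : 0 < L) :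
    ∫ θ in (-Θ)..Θ, ‖∑ w ∈ W, ee (θ * a w)‖ ^ 2 ≤
      Real.exp Real.pi * Θ * (pairs W (fun p => |a p.1 - a p.2| ≤ L / Θ)
        + (W.card : ℝ) ^ 2 * Real.exp (-Real.pi * L ^ 2)) := by
  have e1 : ∀ θ : ℝ, ‖∑ w ∈ W, ee (θ * a w)‖ ^ 2 =
      ∑ p ∈ W ×ˢ W, ((1 : ℂ) * ee (θ * (a p.1 - a p.2))).re := by
    intro θ
    rw [gauss_expand W (fun w => θ * a w)]
    refine Finset.sum_congr rfl fun p _ => ?_
    rw [one_mul, mul_sub]
  have h1 := gauss_gg (W ×ˢ W) (fun _ => (1 : ℂ)) (fun p => a p.1 - a p.2) hΘ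
    (fun θ => by rw [← e1 θ]; positivity) (le_refl (-Θ)) (by linarith) (le_refl Θ)
  simp_rw [e1]
  refine h1.trans (mul_le_mul_of_nonneg_left ?_ (by positivity))
  refine gauss_pairs W _ _ (Real.exp_pos _).le ?_ ?_
  · intro q _
    rw [Complex.one_re, one_mul]
    apply Real.exp_le_one_iff.2
    have := Real.pi_pos
    have : 0 ≤ Real.pi * Θ ^ 2 * (a q.1 - a q.2) ^ 2 := by positivity
    linarith
  · intro q _ hq
    rw [Complex.one_re, one_mul]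
    apply Real.exp_le_exp.2
    have hpi := Real.pi_pos
    have h2 : L / Θ < |a q.1 - a q.2| := not_le.1 hq
    have h3 : L < |a q.1 - a q.2| * Θ := (div_lt_iff₀ hΘ).1 h2
    have h4 : L ^ 2 ≤ (|a q.1 - a q.2| * Θ) ^ 2 := pow_le_pow_left₀ hL.le h3.le 2
    rw [mul_pow, sq_abs] at h4
    nlinarith

theorem gauss_two {ι : Type*} (W : Finset ι) (a b : ι → ℝ) {Θ L T : ℝ} (hΘ : 0 < Θ) (hL : 0 < L)
    (hT : 1 ≤ T) :
    ∫ t in (-T)..T, ∫ θ in Θ..(2 * Θ), ‖∑ w ∈ W, ee (θ * (a w + t * b w))‖ ^ 2 ≤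
      4 * Real.exp (2 * Real.pi) * T * Θ *
        (pairs W (fun p => |a p.1 - a p.2| ≤ L / Θ ∧ |b p.1 - b p.2| ≤ L / Θ)
          + (W.card : ℝ) ^ 2 * Real.exp (-Real.pi * L ^ 2)) := by
  have hee : Continuous ee := by unfold ee; fun_prop
  have hT0 : 0 < T := lt_of_lt_of_le one_pos hT
  set Φ : ℝ := 2 * T * Θ with hΦ
  have hΦ0 : 0 < Φ := by positivity
  -- swap
  have hswap : ∫ t in (-T)..T, ∫ θ in Θ..(2 * Θ), ‖∑ w ∈ W, ee (θ * (a w + t * b w))‖ ^ 2 =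
      ∫ θ in Θ..(2 * Θ), ∫ t in (-T)..T, ‖∑ w ∈ W, ee (θ * (a w + t * b w))‖ ^ 2 := by
    refine intervalIntegral_intervalIntegral_swap ?_
    have hc : Continuous (Function.uncurry (fun t θ : ℝ =>
        ‖∑ w ∈ W, ee (θ * (a w + t * b w))‖ ^ 2)) := by
      refine Continuous.pow (Continuous.norm (continuous_finsetSum _ fun w _ => ?_)) 2
      exact hee.comp (by fun_prop)
    exact (hc.continuousOn.integrableOn_compact
      (isCompact_uIcc.prod isCompact_uIcc)).mono_set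
      (Set.prod_mono Set.uIoc_subset_uIcc Set.uIoc_subset_uIcc)
  rw [hswap]
  -- inner integral
  have eφ : ∀ θ φ : ℝ, ‖∑ w ∈ W, ee (θ * a w + φ * b w)‖ ^ 2 =
      ∑ p ∈ W ×ˢ W, (ee (θ * (a p.1 - a p.2)) * ee (φ * (b p.1 - b p.2))).re := by
    intro θ φ
    rw [gauss_expand W (fun w => θ * a w + φ * b w)]
    refine Finset.sum_congr rfl fun p _ => ?_
    rw [← gauss_ee_add]
    congr 2
    ring
  set G : ι × ι → ℝ := fun p => Real.exp (-Real.pi * Φ ^ 2 * (b p.1 - b p.2) ^ 2) with hG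
  have hin : ∀ θ α β : ℝ, -Φ ≤ α → α ≤ β → β ≤ Φ →
      ∫ φ in α..β, ‖∑ w ∈ W, ee (θ * a w + φ * b w)‖ ^ 2 ≤
        Real.exp Real.pi * Φ * ∑ p ∈ W ×ˢ W, ((G p : ℂ) * ee (θ * (a p.1 - a p.2))).re := by
    intro θ α β hα hαβ hβ
    have h1 := gauss_gg (W ×ˢ W) (fun p => ee (θ * (a p.1 - a p.2))) (fun p => b p.1 - b p.2) hΦ0
      (fun φ => by rw [← eφ θ φ]; positivity) hα hαβ hβ
    simp_rw [eφ θ]
    refine h1.trans (le_of_eq ?_)
    congr 1
    refine Finset.sum_congr rfl fun p _ => ?_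
    rw [Complex.re_ofReal_mul, mul_comm]
  have hFnn : ∀ θ : ℝ, 0 ≤ ∑ p ∈ W ×ˢ W, ((G p : ℂ) * ee (θ * (a p.1 - a p.2))).re := by
    intro θ
    have h1 := hin θ 0 0 (by linarith) le_rfl hΦ0.le
    rw [intervalIntegral.integral_same] at h1
    exact nonneg_of_mul_nonneg_right h1 (by positivity)
  have hFcont : Continuous (fun θ : ℝ => ∑ p ∈ W ×ˢ W,
      ((G p : ℂ) * ee (θ * (a p.1 - a p.2))).re) := by
    refine continuous_finsetSum _ fun p _ => ?_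
    exact Complex.continuous_re.comp (continuous_const.mul (hee.comp (by fun_prop)))
  have hscale : ∀ θ ∈ Set.Icc Θ (2 * Θ),
      ∫ t in (-T)..T, ‖∑ w ∈ W, ee (θ * (a w + t * b w))‖ ^ 2 ≤
        Θ⁻¹ * (Real.exp Real.pi * Φ) *
          ∑ p ∈ W ×ˢ W, ((G p : ℂ) * ee (θ * (a p.1 - a p.2))).re := by
    intro θ hθ
    have hθ0 : 0 < θ := lt_of_lt_of_le hΘ hθ.1
    have h1 : ∫ t in (-T)..T, ‖∑ w ∈ W, ee (θ * (a w + t * b w))‖ ^ 2 =
        θ⁻¹ * ∫ φ in (θ * (-T))..(θ * T), ‖∑ w ∈ W, ee (θ * a w + φ * b w)‖ ^ 2 := by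
      have h2 := intervalIntegral.integral_comp_mul_left
        (f := fun φ : ℝ => ‖∑ w ∈ W, ee (θ * a w + φ * b w)‖ ^ 2) (a := -T) (b := T) hθ0.ne'
      rw [smul_eq_mul] at h2
      rw [← h2]
      refine intervalIntegral.integral_congr fun t _ => ?_
      have h7 : ∀ w, θ * (a w + t * b w) = θ * a w + (θ * t) * b w := fun w => by ring
      simp only [h7]
    rw [h1]
    have hle : θ * T ≤ Φ := by
      have := mul_le_mul_of_nonneg_right hθ.2 hT0.le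
      rw [hΦ]; linarith
    have h3 := hin θ (θ * (-T)) (θ * T) (by linarith) (by nlinarith) hle
    have h4 : 0 ≤ ∫ φ in (θ * (-T))..(θ * T), ‖∑ w ∈ W, ee (θ * a w + φ * b w)‖ ^ 2 :=
      intervalIntegral.integral_nonneg (by nlinarith) fun φ _ => by positivity
    have h5 : θ⁻¹ ≤ Θ⁻¹ := inv_anti₀ hΘ hθ.1
    calc θ⁻¹ * ∫ φ in (θ * (-T))..(θ * T), ‖∑ w ∈ W, ee (θ * a w + φ * b w)‖ ^ 2
        ≤ Θ⁻¹ * ∫ φ in (θ * (-T))..(θ * T), ‖∑ w ∈ W, ee (θ * a w + φ * b w)‖ ^ 2 :=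
          mul_le_mul_of_nonneg_right h5 h4
      _ ≤ Θ⁻¹ * (Real.exp Real.pi * Φ *
          ∑ p ∈ W ×ˢ W, ((G p : ℂ) * ee (θ * (a p.1 - a p.2))).re) :=
          mul_le_mul_of_nonneg_left h3 (by positivity)
      _ = _ := by ring
  have hinner_cont : Continuous (fun θ : ℝ =>
      ∫ t in (-T)..T, ‖∑ w ∈ W, ee (θ * (a w + t * b w))‖ ^ 2) := by
    refine intervalIntegral.continuous_parametric_intervalIntegral_of_continuous' ?_ _ _
    refine Continuous.pow (Continuous.norm (continuous_finsetSum _ fun w _ => ?_)) 2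
    exact hee.comp (by fun_prop)
  have hΘ2 : Θ ≤ 2 * Θ := by linarith
  have hmain : ∫ θ in Θ..(2 * Θ), ∫ t in (-T)..T, ‖∑ w ∈ W, ee (θ * (a w + t * b w))‖ ^ 2 ≤
      Θ⁻¹ * (Real.exp Real.pi * Φ) * (Real.exp Real.pi * (2 * Θ) *
        ∑ p ∈ W ×ˢ W, (G p) * Real.exp (-Real.pi * (2 * Θ) ^ 2 * (a p.1 - a p.2) ^ 2)) := by
    calc ∫ θ in Θ..(2 * Θ), ∫ t in (-T)..T, ‖∑ w ∈ W, ee (θ * (a w + t * b w))‖ ^ 2
        ≤ ∫ θ in Θ..(2 * Θ), Θ⁻¹ * (Real.exp Real.pi * Φ) *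
          ∑ p ∈ W ×ˢ W, ((G p : ℂ) * ee (θ * (a p.1 - a p.2))).re :=
          intervalIntegral.integral_mono_on hΘ2 (hinner_cont.intervalIntegrable _ _)
            ((continuous_const.mul hFcont).intervalIntegrable _ _) hscale
      _ = Θ⁻¹ * (Real.exp Real.pi * Φ) * ∫ θ in Θ..(2 * Θ),
          ∑ p ∈ W ×ˢ W, ((G p : ℂ) * ee (θ * (a p.1 - a p.2))).re := by
          rw [intervalIntegral.integral_const_mul]
      _ ≤ _ := by
          refine mul_le_mul_of_nonneg_left ?_ (by positivity)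
          have h6 := gauss_gg (W ×ˢ W) (fun p => (G p : ℂ)) (fun p => a p.1 - a p.2)
            (Θ := 2 * Θ) (by linarith) hFnn (α := Θ) (β := 2 * Θ) (by linarith) hΘ2 le_rfl
          simpa only [Complex.ofReal_re] using h6
  refine hmain.trans ?_
  have hcoef : Θ⁻¹ * (Real.exp Real.pi * Φ) * (Real.exp Real.pi * (2 * Θ)) =
      4 * Real.exp (2 * Real.pi) * T * Θ := by
    rw [two_mul Real.pi, Real.exp_add, hΦ]
    field_simp
    ring
  rw [← mul_assoc, hcoef]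
  refine mul_le_mul_of_nonneg_left ?_ (by positivity)
  refine gauss_pairs W _ _ (Real.exp_pos _).le ?_ ?_
  · intro q _
    have hpi := Real.pi_pos
    rw [hG]
    simp only
    rw [← Real.exp_add]
    apply Real.exp_le_one_iff.2
    have h1 : 0 ≤ Real.pi * Φ ^ 2 * (b q.1 - b q.2) ^ 2 := by positivity
    have h2 : 0 ≤ Real.pi * (2 * Θ) ^ 2 * (a q.1 - a q.2) ^ 2 := by positivity
    linarith
  · intro q _ hq
    have hpi := Real.pi_pos
    rw [hG]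
    simp only
    rw [← Real.exp_add]
    apply Real.exp_le_exp.2
    have h1 : 0 ≤ Real.pi * Φ ^ 2 * (b q.1 - b q.2) ^ 2 := by positivity
    have h2 : 0 ≤ Real.pi * (2 * Θ) ^ 2 * (a q.1 - a q.2) ^ 2 := by positivity
    rw [not_and_or, not_le, not_le] at hq
    rcases hq with h | h
    · have h3 : L < |a q.1 - a q.2| * Θ := (div_lt_iff₀ hΘ).1 h
      have h4 : L ^ 2 ≤ (|a q.1 - a q.2| * Θ) ^ 2 := pow_le_pow_left₀ hL.le h3.le 2
      rw [mul_pow, sq_abs] at h4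
      have h5 : Real.pi * L ^ 2 ≤ Real.pi * (2 * Θ) ^ 2 * (a q.1 - a q.2) ^ 2 := by
        have h6 : Real.pi * (2 * Θ) ^ 2 * (a q.1 - a q.2) ^ 2 =
          Real.pi * (4 * ((a q.1 - a q.2) ^ 2 * Θ ^ 2)) := by ring
        rw [h6]
        refine mul_le_mul_of_nonneg_left ?_ hpi.le
        have : 0 ≤ (a q.1 - a q.2) ^ 2 * Θ ^ 2 := by positivity
        linarith
      linarith
    · have h3 : L < |b q.1 - b q.2| * Θ := (div_lt_iff₀ hΘ).1 h
      have h4 : L ^ 2 ≤ (|b q.1 - b q.2| * Θ) ^ 2 := pow_le_pow_left₀ hL.le h3.le 2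
      rw [mul_pow, sq_abs] at h4
      have h5 : Real.pi * L ^ 2 ≤ Real.pi * Φ ^ 2 * (b q.1 - b q.2) ^ 2 := by
        have h6 : Real.pi * Φ ^ 2 * (b q.1 - b q.2) ^ 2 =
          Real.pi * (4 * T ^ 2 * ((b q.1 - b q.2) ^ 2 * Θ ^ 2)) := by rw [hΦ]; ring
        rw [h6]
        refine mul_le_mul_of_nonneg_left ?_ hpi.le
        have h7 : 0 ≤ (b q.1 - b q.2) ^ 2 * Θ ^ 2 := by positivity
        have h8 : 1 ≤ 4 * T ^ 2 := by nlinarith
        nlinarith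
      linarith

end MWg
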