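import Pool.Agent.MWg.Count

/-!
# MWg.LemA: upper bound for the number of chains with value in a short interval

PROOF by induction on `q`. Write `θ_q(P) = ((nxt n)^[q] P)^n`, `T_q(P) = tot n J q P`.

`q = 0`: `cnt ≤ 1`, `tot = 1` and `M ≥ θ_0(P) = P^n`; take `C = 1`.

Step. Let `P2 = nxt n P`, so `P2^n = n 16^n P^(n-1)` (`nxt_pow`), and
`(nxt n)^[q+1] P = (nxt n)^[q] P2` (`Function.iterate_succ_apply`), the same threshold `θ`.
Let `C_v` be the constant of `val_bound` for `q`: `|val f h w'| ≤ C_v P2^n` for `w' ∈ chain n J q P2`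
(`P` large, `nxt_tendsto`). By `cnt_succ`
`cnt n J (q+1) P (...) = ∑_u ∑_v #{w' ∈ chain n J q P2 : |val w' - (α - f u - h v)| ≤ M}`.

Case `M ≥ P2^n`. Exchange the sums: for fixed `v, w'` the number of `u ∈ mainI P` with
`|f u - (α - h v - val w')| ≤ M` is at most `1 + 2M/P^(n-1) ≤ 3 M/P^(n-1)` (`count_up`;
`M ≥ P2^n ≥ P^(n-1)`). Total `≤ 3 (M/P^(n-1)) #(J P) T_q(P2)`, and
`T_{q+1}(P) = #(mainI P) #(J P) T_q(P2) ≥ 14 P #(J P) T_q(P2)`; so the total is `≤ T_{q+1}(P) M/P^n`.

Case `M < P2^n`. If there is a `w'` with `|f u + h v + val w' - α| ≤ M` then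
`|f u - (α - h v)| ≤ M + C_v P2^n ≤ (1 + C_v) P2^n`; for each `v` there are at most
`1 + 2 (1+C_v) P2^n/P^(n-1) = 1 + 2 (1+C_v) n 16^n =: C3` such `u` (`count_up`). For each such `(u,v)`
the induction hypothesis at the scale `P2` (same threshold `θ ≤ M`) gives at most
`C T_q(P2) M/P2^n = C T_q(P2) M/(n 16^n P^(n-1)) ≤ C T_q(P2) M/P^(n-1)` chains `w'`.
Total `≤ #(J P) C3 C T_q(P2) M/P^(n-1) ≤ C3 C T_{q+1}(P) M/P^n`.
So the constant `max 1 (C3 C)` works.
-/

namespace MWg

open Filter Topology

theorem lemA {n : ℕ} (hn : 2 ≤ n) {f h : ℕ → ℝ} {J : ℝ → Finset ℕ} (hf : Good n f)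
    (hJ : Side n h J) (q : ℕ) :
    ∃ C : ℝ, 0 < C ∧ ∃ P0 : ℝ, 1 ≤ P0 ∧ ∀ P, P0 ≤ P → ∀ α M : ℝ,
      ((nxt n)^[q] P) ^ n ≤ M →
      cnt n J q P (fun w => |val f h w - α| ≤ M) ≤ C * tot n J q P * M / P ^ n := by
  classical
  have hn1 : 1 ≤ n := by omega
  induction q with
  | zero =>
    refine ⟨1, one_pos, 1, le_rfl, fun P hP α M hM => ?_⟩
    have h1 := cnt_le_tot n J 0 P (fun w => |val f h w - α| ≤ M)
    rw [tot_zero] at h1 ⊢
    rw [Function.iterate_zero, id] at hM
    have hP0 : 0 < P := by linarith
    have hPn : 0 < P ^ n := by positivity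
    have h2 : 1 ≤ M / P ^ n := by
      rw [le_div_iff₀ hPn]
      linarith
    rw [one_mul, one_mul]
    exact h1.trans h2
  | succ q ih =>
    obtain ⟨C, hC, P0, hP0, ih⟩ := ih
    obtain ⟨Cv, hCv, Pv, hPv, hval⟩ := val_bound hn hf hJ q
    obtain ⟨Pu, hPu, hup⟩ := count_up hn hf
    obtain ⟨P1, h1⟩ := eventually_atTop.1 ((nxt_tendsto hn).eventually_ge_atTop (max P0 Pv))
    set C3 : ℝ := 1 + 2 * (1 + Cv) * (n * 16 ^ n) with hC3
    have hC3pos : 0 < C3 := by positivity
    refine ⟨max 1 (C3 * C), lt_of_lt_of_le one_pos (le_max_left _ _), max Pu P1,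
      hPu.trans (le_max_left _ _), fun P hP α M hM => ?_⟩
    have hPPu : Pu ≤ P := (le_max_left _ _).trans hP
    have hPP1 : P1 ≤ P := (le_max_right _ _).trans hP
    have hP1 : 1 ≤ P := hPu.trans hPPu
    have hPpos : 0 < P := by linarith
    rw [Function.iterate_succ_apply] at hM
    have hP2P0 : P0 ≤ nxt n P := (le_max_left _ _).trans (h1 P hPP1)
    have hP2Pv : Pv ≤ nxt n P := (le_max_right _ _).trans (h1 P hPP1)
    have hP2n := nxt_pow hn1 hPpos.le
    have hP21 := nxt_ge_one hn1 hP1
    set P2 := nxt n P with hP2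
    have hP2pos : 0 < P2 := by linarith
    have hM0 : 0 ≤ M := by
      have h2 := nxt_iter_ge_one hn1 q hP21
      refine le_trans ?_ hM
      have h3 : 0 ≤ (nxt n)^[q] P2 := by linarith
      positivity
    have hPn1 : 0 < P ^ (n - 1) := by positivity
    have hPn : P ^ n = P * P ^ (n - 1) := by
      rw [← pow_succ']
      congr 1
      omega
    have hcon := nxt_const_ge_one hn1
    have hge : P ^ (n - 1) ≤ P2 ^ n := by
      rw [hP2n]
      exact le_mul_of_one_le_left hPn1.le hcon
    have hT0 : 0 ≤ tot n J q P2 := tot_nonneg n J q P2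
    have hJ0 : (0 : ℝ) ≤ ((J P).card : ℝ) := Nat.cast_nonneg _
    have hmain := card_mainI_ge hP1
    -- the final comparison
    have hfin : ∀ K : ℝ, 0 ≤ K → ((J P).card : ℝ) * (K * tot n J q P2 * M / P ^ (n - 1)) ≤
        K * tot n J (q + 1) P * M / P ^ n := by
      intro K hK
      rw [tot_succ, ← hP2, hPn]
      have h2 : ((J P).card : ℝ) * (K * tot n J q P2 * M / P ^ (n - 1)) =
          K * (P * ((J P).card : ℝ) * tot n J q P2) * M / (P * P ^ (n - 1)) := by
        field_simp
      rw [h2]
      apply div_le_div_of_nonneg_right _ (by positivity)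
      apply mul_le_mul_of_nonneg_right _ hM0
      apply mul_le_mul_of_nonneg_left _ hK
      apply mul_le_mul_of_nonneg_right _ hT0
      apply mul_le_mul_of_nonneg_right _ hJ0
      linarith
    have hmono : ∀ K : ℝ, K ≤ max 1 (C3 * C) → K * tot n J (q + 1) P * M / P ^ n ≤
        max 1 (C3 * C) * tot n J (q + 1) P * M / P ^ n := by
      intro K hK
      apply div_le_div_of_nonneg_right _ (by positivity)
      apply mul_le_mul_of_nonneg_right _ hM0
      exact mul_le_mul_of_nonneg_right hK (tot_nonneg n J (q + 1) P)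
    rcases le_or_gt (P2 ^ n) M with hcase | hcase
    · -- large `M`
      have e1 : cnt n J (q + 1) P (fun w => |val f h w - α| ≤ M) =
          ∑ v ∈ J P, ∑ w ∈ chain n J q P2,
            ((((mainI P).filter fun u => |f u - (α - h v - val f h w)| ≤ M).card : ℕ) : ℝ) := by
        rw [cnt_succ, Finset.sum_comm]
        refine Finset.sum_congr rfl fun v _ => ?_
        have e2 : ∀ u ∈ mainI P, cnt n J q (nxt n P) (fun w => |val f h ((u, v) :: w) - α| ≤ M) =
            ∑ w ∈ chain n J q P2, (if |f u - (α - h v - val f h w)| ≤ M then (1 : ℝ) else 0) := by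
          intro u _
          unfold cnt
          rw [Finset.card_filter]
          push_cast
          refine Finset.sum_congr rfl fun w _ => ?_
          have e3 : val f h ((u, v) :: w) - α = f u - (α - h v - val f h w) := by
            rw [val_cons]
            ring
          rw [e3]
        rw [Finset.sum_congr rfl e2, Finset.sum_comm]
        refine Finset.sum_congr rfl fun w _ => ?_
        rw [Finset.card_filter]
        push_cast
        rfl
      have e4 : ∀ v ∈ J P, ∑ w ∈ chain n J q P2,
            ((((mainI P).filter fun u => |f u - (α - h v - val f h w)| ≤ M).card : ℕ) : ℝ) ≤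
            3 * tot n J q P2 * M / P ^ (n - 1) := by
        intro v _
        have e5 : ∀ w ∈ chain n J q P2,
            ((((mainI P).filter fun u => |f u - (α - h v - val f h w)| ≤ M).card : ℕ) : ℝ) ≤
            3 * M / P ^ (n - 1) := by
          intro w _
          have e6 := hup P hPPu (α - h v - val f h w) M hM0
          have e7 : 1 ≤ M / P ^ (n - 1) := by
            rw [le_div_iff₀ hPn1, one_mul]
            exact hge.trans hcase
          have e8 : 3 * M / P ^ (n - 1) = M / P ^ (n - 1) + 2 * M / P ^ (n - 1) := by ring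
          rw [e8]
          refine le_trans (le_of_eq ?_) (e6.trans (by linarith))
          congr!
        refine (Finset.sum_le_sum e5).trans (le_of_eq ?_)
        rw [Finset.sum_const, nsmul_eq_mul]
        unfold tot
        ring
      rw [e1]
      refine (Finset.sum_le_sum e4).trans ?_
      rw [Finset.sum_const, nsmul_eq_mul]
      -- here we use the factor 14
      refine le_trans ?_ (hmono 1 (le_max_left _ _))
      rw [tot_succ, ← hP2, hPn]
      have h2 : ((J P).card : ℝ) * (3 * tot n J q P2 * M / P ^ (n - 1)) =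
          1 * ((3 * P) * ((J P).card : ℝ) * tot n J q P2) * M / (P * P ^ (n - 1)) := by
        field_simp
      rw [h2]
      apply div_le_div_of_nonneg_right _ (by positivity)
      apply mul_le_mul_of_nonneg_right _ hM0
      apply mul_le_mul_of_nonneg_left _ zero_le_one
      apply mul_le_mul_of_nonneg_right _ hT0
      apply mul_le_mul_of_nonneg_right _ hJ0
      linarith
    · -- small `M`
      rw [cnt_succ, Finset.sum_comm, ← hP2]
      have e4 : ∀ v ∈ J P, ∑ u ∈ mainI P,
          cnt n J q P2 (fun w => |val f h ((u, v) :: w) - α| ≤ M) ≤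
            (C3 * C) * tot n J q P2 * M / P ^ (n - 1) := by
        intro v _
        have hB0 : 0 ≤ C * tot n J q P2 * M / P2 ^ n := by positivity
        have e5 : ∀ u ∈ mainI P, cnt n J q P2 (fun w => |val f h ((u, v) :: w) - α| ≤ M) ≤
            (if |f u - (α - h v)| ≤ (1 + Cv) * P2 ^ n then (1 : ℝ) else 0) *
              (C * tot n J q P2 * M / P2 ^ n) := by
          intro u _
          split_ifs with hif
          · rw [one_mul]
            refine le_trans (cnt_mono ?_) (ih P2 hP2P0 (α - f u - h v) M hM)
            intro w _ hw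
            rw [val_cons] at hw
            have e3 : val f h w - (α - f u - h v) = f (u, v).1 + h (u, v).2 + val f h w - α := by
              ring
            rw [e3]
            exact hw
          · rw [zero_mul]
            have e6 : cnt n J q P2 (fun w => |val f h ((u, v) :: w) - α| ≤ M) = 0 := by
              unfold cnt
              rw [Nat.cast_eq_zero, Finset.card_eq_zero, Finset.filter_eq_empty_iff]
              intro w hw hle
              apply hif
              have e7 := hval P2 hP2Pv w hw
              rw [val_cons] at hle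
              have e8 : f u - (α - h v) = (f (u, v).1 + h (u, v).2 + val f h w - α) -
                  val f h w := by ring
              rw [e8]
              refine (abs_sub _ _).trans ?_
              linarith
            exact e6.le
        refine (Finset.sum_le_sum e5).trans ?_
        rw [← Finset.sum_mul]
        have e9 : (∑ u ∈ mainI P, (if |f u - (α - h v)| ≤ (1 + Cv) * P2 ^ n then (1 : ℝ) else 0)) ≤
            C3 := by
          have e10 := hup P hPPu (α - h v) ((1 + Cv) * P2 ^ n) (by positivity)
          have e11 : 1 + 2 * ((1 + Cv) * P2 ^ n) / P ^ (n - 1) = C3 := by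
            rw [hC3, hP2n]
            field_simp
          rw [e11] at e10
          refine le_trans (le_of_eq ?_) e10
          rw [Finset.card_filter]
          push_cast
          refine Finset.sum_congr rfl fun u _ => ?_
          congr!
        calc (∑ u ∈ mainI P, (if |f u - (α - h v)| ≤ (1 + Cv) * P2 ^ n then (1 : ℝ) else 0)) *
              (C * tot n J q P2 * M / P2 ^ n) ≤ C3 * (C * tot n J q P2 * M / P2 ^ n) :=
              mul_le_mul_of_nonneg_right e9 hB0
          _ ≤ C3 * (C * tot n J q P2 * M / P ^ (n - 1)) := by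
              apply mul_le_mul_of_nonneg_left _ hC3pos.le
              apply div_le_div_of_nonneg_left (by positivity) hPn1 hge
          _ = (C3 * C) * tot n J q P2 * M / P ^ (n - 1) := by ring
      refine (Finset.sum_le_sum e4).trans ?_
      rw [Finset.sum_const, nsmul_eq_mul]
      exact (hfin (C3 * C) (by positivity)).trans (hmono _ (le_max_right _ _))

end MWg
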