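import Pool.Agent.MWg.Count

/-!
# MWg.LemML: lower bound for the number of chains with value in a short interval

Write `θ_q(P) = ((nxt n)^[q] P)^n`, `T_q(P) = tot n J q P`, `D = 2 n 16^(n-1)`.

PROOF of `lemML` by induction on `q` (all three constants depend on `q`).

`q = 0`: take `C0 = 2`; the hypotheses `2 P^n ≤ H ≤ P^n` with `P ≥ 1` are contradictory.

Step `q → q+1`. Let `c, C0, P0` be the constants for `q`. Let `P2 = nxt n P`, `P2^n = n 16^n P^(n-1)`
(note `P2^n ≥ D P^(n-1)`), `(nxt n)^[q+1] P = (nxt n)^[q] P2`, `θ = θ_q(P2) = θ_{q+1}(P)`. Let `C_v`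
be such that `|val f h w'| ≤ C_v P2^n` for all `w' ∈ chain n J q P2` (`val_bound`, `P` large). Put
`C' = 4 C_v + 4` (so `C' ≥ 1`) and `C0' = 2 C0 C'` (the new `C0`; `≥ 2`). For `v ∈ J P`:
`|h v| ≤ P^n/4` (`hJ`).

Case 1: `H ≥ C' P2^n`. Fix `v ∈ J P` and `w' ∈ chain n J q P2` arbitrarily and let
`y' = y - h v - val f h w'`. Since `|val w'| ≤ H/4`, it is enough that... (directly) every
`u ∈ mainI P` with `y' - H/2 ≤ f u ≤ y' + H/2` gives a chain with `|val - y| ≤ H`. Apply `count_low`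
with `A = y' - H/2`, `B = y' + H/2`: `B - A = H ≥ C' P2^n ≥ D P^(n-1)`;
`A ≥ (3^n - 1/4 - 1/4 - 1/2) P^n ≥ (5/2)^n P^n` (`H ≤ P^n`, `|val w'| ≤ H/4`; `n ≥ 2`) and
`B ≤ (12^n + 1) P^n ≤ 13^n P^n`. So there are at least `H/(2 D P^(n-1))` such `u`. Summing,
`cnt ≥ #(J P) T_q(P2) H/(2 D P^(n-1)) ≥ T_{q+1}(P) H/(32 D P^n)` (`#(mainI P) ≤ 16 P`).

Case 2: `H < C' P2^n`. Let `H' = min H (P2^n)`. Then `C0 θ ≤ H'`: `C0 θ ≤ C0' θ ≤ H`, and
`θ ≤ H/C0' < C' P2^n/C0' ≤ P2^n/C0`. Also `H' ≤ P2^n`, `H' ≤ H` and `H' ≥ H/C'`. Fix `v ∈ J P`, let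
`y' = y - h v`, and consider the `u ∈ mainI P` with `y' - 12^n P2^n ≤ f u ≤ y' - 3^n P2^n`. Apply
`count_low` with these bounds: `B - A = (12^n - 3^n) P2^n ≥ P2^n ≥ D P^(n-1)`,
`B ≤ (12^n + 1/4) P^n ≤ 13^n P^n`, and `A ≥ (3^n - 1/4) P^n - 12^n n 16^n P^(n-1) ≥ (5/2)^n P^n` for
large `P` (`3^n - 1/4 - (5/2)^n ≥ 1/2`, `P ≥ 2 * 12^n n 16^n`). So there are at least
`P2^n/(2 D P^(n-1)) = n 16^n/(2D) ≥ 1` such `u`. For each of them `y'' = y - h v - f u` lies in
`[3^n P2^n, 12^n P2^n]`, and the induction hypothesis (scale `P2 ≥ P0`, `H'`) gives at least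
`c T_q(P2) H'/P2^n ≥ c T_q(P2) H/(C' n 16^n P^(n-1))` chains `w'` with `|val w' - y''| ≤ H' ≤ H`.
Summing over `v`: `cnt ≥ #(J P) T_q(P2) c H/(C' n 16^n P^(n-1)) ≥ c T_{q+1}(P) H/(16 C' n 16^n P^n)`.

PROOF of `smallHead`. Write `q = q' + 1`. For `P` large consider the `u ∈ (P, 2P]` (at least `P/2` of
them; they are in `mainI P`), all `v ∈ J P` and all tails: `|f u| ≤ (1+η)(2P)^n ≤ (2^n + 1/2) P^n`
(`good_lim`), `|h v| ≤ P^n/4`, `|val w'| ≤ C_v P2^n = C_v n 16^n P^(n-1) ≤ P^n/4`. So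
`cnt ≥ (P/2) #(J P) T_{q'}(P2) ≥ T_q(P)/32`.
-/

namespace MWg

open Filter Topology

private theorem ml_cnt (n : ℕ) (J : ℝ → Finset ℕ) (q : ℕ) (P : ℝ) (p : List (ℕ × ℕ) → Prop) :
    cnt n J q P p = ∑ w ∈ chain n J q P, (open Classical in if p w then (1 : ℝ) else 0) := by
  classical
  unfold cnt
  rw [Finset.card_filter]
  push_cast
  exact Finset.sum_congr rfl fun w _ => by split_ifs <;> rfl

private theorem ml_swap (n : ℕ) (J : ℝ → Finset ℕ) (q : ℕ) (P : ℝ) (p : List (ℕ × ℕ) → Prop) :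
    cnt n J (q + 1) P p = ∑ v ∈ J P, ∑ w ∈ chain n J q (nxt n P), ∑ u ∈ mainI P,
      (open Classical in if p ((u, v) :: w) then (1 : ℝ) else 0) := by
  rw [cnt_succ, Finset.sum_comm]
  refine Finset.sum_congr rfl fun v _ => ?_
  rw [Finset.sum_comm]
  exact Finset.sum_congr rfl fun u _ => ml_cnt _ _ _ _ _

private theorem ml_three {n : ℕ} (hn : 2 ≤ n) : (5 / 2 : ℝ) ^ n + 1 ≤ 3 ^ n := by
  have h1 : (3 : ℝ) ^ n = (5 / 2) ^ n * (6 / 5) ^ n := by
    rw [← mul_pow]
    norm_num
  have h2 : ((6 : ℝ) / 5) ^ 2 ≤ (6 / 5) ^ n := pow_le_pow_right₀ (by norm_num) hn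
  have h3 : ((5 : ℝ) / 2) ^ 2 ≤ (5 / 2) ^ n := pow_le_pow_right₀ (by norm_num) hn
  rw [h1]
  nlinarith

private theorem ml_thirteen {n : ℕ} (hn : 2 ≤ n) : (12 : ℝ) ^ n + 1 ≤ 13 ^ n := by
  have h : 12 ^ n < 13 ^ n := Nat.pow_lt_pow_left (by norm_num) (by omega)
  have h2 : 12 ^ n + 1 ≤ 13 ^ n := h
  exact_mod_cast h2

private theorem ml_twelve {n : ℕ} (hn : 2 ≤ n) : (3 : ℝ) ^ n + 1 ≤ 12 ^ n := by
  have h : 3 ^ n < 12 ^ n := Nat.pow_lt_pow_left (by norm_num) (by omega)
  have h2 : 3 ^ n + 1 ≤ 12 ^ n := h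
  exact_mod_cast h2

private theorem ml_powsucc {n : ℕ} (hn : 2 ≤ n) (P : ℝ) : P ^ n = P * P ^ (n - 1) := by
  rw [← pow_succ', Nat.sub_add_cancel (by omega)]

/-- comparison of the total number with the number of side letters times tails -/
private theorem ml_tot {n : ℕ} (hn : 2 ≤ n) (J : ℝ → Finset ℕ) (q : ℕ) {P H : ℝ} (hP : 1 ≤ P)
    (hH : 0 ≤ H) :
    tot n J (q + 1) P * H / P ^ n ≤
      16 * (((J P).card : ℝ) * tot n J q (nxt n P) * H) / P ^ (n - 1) := by
  have hP0 : (0 : ℝ) < P := by linarith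
  have hT := tot_nonneg n J q (nxt n P)
  have hJ : (0 : ℝ) ≤ ((J P).card : ℝ) := Nat.cast_nonneg _
  have hm := card_mainI_le hP
  rw [tot_succ, ml_powsucc hn, div_le_div_iff₀ (by positivity) (by positivity)]
  have h1 : 0 ≤ ((J P).card : ℝ) * tot n J q (nxt n P) * H * P ^ (n - 1) := by positivity
  calc ((mainI P).card : ℝ) * ((J P).card : ℝ) * tot n J q (nxt n P) * H * P ^ (n - 1)
      = ((mainI P).card : ℝ) * (((J P).card : ℝ) * tot n J q (nxt n P) * H * P ^ (n - 1)) := by
        ring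
    _ ≤ (16 * P) * (((J P).card : ℝ) * tot n J q (nxt n P) * H * P ^ (n - 1)) :=
        mul_le_mul_of_nonneg_right hm h1
    _ = 16 * (((J P).card : ℝ) * tot n J q (nxt n P) * H) * (P * P ^ (n - 1)) := by ring

theorem lemML {n : ℕ} (hn : 2 ≤ n) {f h : ℕ → ℝ} {J : ℝ → Finset ℕ} (hf : Good n f)
    (hJ : Side n h J) (q : ℕ) :
    ∃ c C0 P0 : ℝ, 0 < c ∧ 2 ≤ C0 ∧ 1 ≤ P0 ∧ ∀ P, P0 ≤ P → ∀ y : ℝ, 3 ^ n * P ^ n ≤ y →
      y ≤ 12 ^ n * P ^ n → ∀ H : ℝ, C0 * ((nxt n)^[q] P) ^ n ≤ H → H ≤ P ^ n →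
      c * tot n J q P * H / P ^ n ≤ cnt n J q P (fun w => |val f h w - y| ≤ H) := by
  classical
  induction q with
  | zero =>
    refine ⟨1, 2, 1, one_pos, le_rfl, le_rfl, ?_⟩
    intro P hP y _ _ H h1 h2
    exfalso
    rw [Function.iterate_zero_apply] at h1
    have h3 : (1 : ℝ) ≤ P ^ n := one_le_pow₀ hP
    linarith
  | succ q ih =>
    obtain ⟨c, C0, P0, hc, hC0, hP0, IH⟩ := ih
    obtain ⟨Cv, hCv, Pv, hPv, hval⟩ := val_bound hn hf hJ q
    obtain ⟨Pl, hPl, hlow⟩ := count_low hn hf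
    obtain ⟨Ps, hside⟩ := hJ
    obtain ⟨Pn, hPn⟩ := Filter.eventually_atTop.1
      ((nxt_tendsto hn).eventually_ge_atTop (max P0 Pv))
    have hn0 : (0 : ℝ) < n := by
      have : 0 < n := by omega
      exact_mod_cast this
    set C' : ℝ := 4 * Cv + 4 with hC'
    have hC'1 : 1 ≤ C' := by linarith
    have hC'0 : 0 < C' := by linarith
    set c1 : ℝ := 1 / (64 * n * 16 ^ (n - 1)) with hc1
    set c2 : ℝ := c / (16 * C' * (n * 16 ^ n)) with hc2
    have hc1p : 0 < c1 := by positivity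
    have hc2p : 0 < c2 := by positivity
    refine ⟨min c1 c2, 2 * C0 * C', max (max P0 Pl) (max (max Ps Pn) (2 * 12 ^ n * (n * 16 ^ n))),
      lt_min hc1p hc2p, by nlinarith, le_max_of_le_left (le_max_of_le_left hP0), ?_⟩
    intro P hP y hy1 hy2 H hH1 hH2
    have hPP0 : P0 ≤ P := (le_max_left _ _).trans ((le_max_left _ _).trans hP)
    have hPPl : Pl ≤ P := (le_max_right _ _).trans ((le_max_left _ _).trans hP)
    have hPPs : Ps ≤ P :=
      (le_max_left _ _).trans ((le_max_left _ _).trans ((le_max_right _ _).trans hP))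
    have hPPn : Pn ≤ P :=
      (le_max_right _ _).trans ((le_max_left _ _).trans ((le_max_right _ _).trans hP))
    have hPbig : 2 * 12 ^ n * (n * 16 ^ n) ≤ P :=
      (le_max_right _ _).trans ((le_max_right _ _).trans hP)
    have hP1 : 1 ≤ P := hP0.trans hPP0
    have hPpos : 0 < P := by linarith
    set P2 := nxt n P with hP2
    have hP2max : max P0 Pv ≤ P2 := hPn P hPPn
    have hP2a : P0 ≤ P2 := (le_max_left _ _).trans hP2max
    have hP2b : Pv ≤ P2 := (le_max_right _ _).trans hP2max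
    have hP2p : P2 ^ n = (n : ℝ) * 16 ^ n * P ^ (n - 1) := nxt_pow (by omega) hPpos.le
    have hP2pos : 0 < P2 ^ n := by rw [hP2p]; positivity
    obtain ⟨hJne, hJb⟩ := hside P hPPs
    rw [Function.iterate_succ_apply] at hH1
    rw [← hP2] at hH1
    set θ : ℝ := ((nxt n)^[q] P2) ^ n with hθ
    have hθ0 : 0 ≤ θ := by
      have := nxt_iter_ge_one (n := n) (by omega) q (hP0.trans hP2a)
      have h1 : 0 ≤ (nxt n)^[q] P2 := by linarith
      positivity
    have hH0 : 0 ≤ H := by
      have : 0 ≤ 2 * C0 * C' * θ := by positivity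
      linarith
    have hPn0 : 0 < P ^ n := by positivity
    have hPn1 : 0 < P ^ (n - 1) := by positivity
    have hD : 2 * (n : ℝ) * 16 ^ (n - 1) * P ^ (n - 1) ≤ P2 ^ n := by
      rw [hP2p, ml_powsucc hn (16 : ℝ)]
      have : 0 ≤ (n : ℝ) * 16 ^ (n - 1) * P ^ (n - 1) := by positivity
      nlinarith
    have hT := tot_nonneg n J q P2
    have hJc : (0 : ℝ) ≤ ((J P).card : ℝ) := Nat.cast_nonneg _
    have hcomp := ml_tot hn J q hP1 hH0
    rw [← hP2] at hcomp
    have hTot : 0 ≤ tot n J (q + 1) P * H / P ^ n := by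
      have := tot_nonneg n J (q + 1) P
      positivity
    have h3 := ml_three hn
    have h13 := ml_thirteen hn
    have h12 := ml_twelve hn
    rcases le_or_gt (C' * P2 ^ n) H with hcase | hcase
    · -- case 1
      have key : ((J P).card : ℝ) * tot n J q P2 * (H / (4 * n * 16 ^ (n - 1) * P ^ (n - 1))) ≤
          cnt n J (q + 1) P (fun w => |val f h w - y| ≤ H) := by
        rw [ml_swap]
        have e : ((J P).card : ℝ) * tot n J q P2 * (H / (4 * n * 16 ^ (n - 1) * P ^ (n - 1))) =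
            ∑ _v ∈ J P, ∑ _w ∈ chain n J q P2, (H / (4 * n * 16 ^ (n - 1) * P ^ (n - 1))) := by
          rw [Finset.sum_const, Finset.sum_const, nsmul_eq_mul, nsmul_eq_mul]
          unfold tot
          ring
        rw [e]
        refine Finset.sum_le_sum fun v hv => Finset.sum_le_sum fun w hw => ?_
        have hv' := hJb v hv
        have hw' : |val f h w| ≤ H / 4 := by
          have h5 := hval P2 hP2b w hw
          have h6 : 4 * Cv * P2 ^ n ≤ C' * P2 ^ n :=
            mul_le_mul_of_nonneg_right (by linarith) hP2pos.le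
          linarith
        rw [abs_le] at hv' hw'
        have hA : (5 / 2 : ℝ) ^ n * P ^ n ≤ (y - h v - val f h w) - H / 2 := by
          have h7 : ((5 / 2 : ℝ) ^ n + 1) * P ^ n ≤ 3 ^ n * P ^ n :=
            mul_le_mul_of_nonneg_right h3 hPn0.le
          linarith [hv'.2, hw'.2]
        have hB : (y - h v - val f h w) + H / 2 ≤ 13 ^ n * P ^ n := by
          have h7 : ((12 : ℝ) ^ n + 1) * P ^ n ≤ 13 ^ n * P ^ n :=
            mul_le_mul_of_nonneg_right h13 hPn0.le
          linarith [hv'.1, hw'.1]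
        have hAB : 2 * (n : ℝ) * 16 ^ (n - 1) * P ^ (n - 1) ≤
            ((y - h v - val f h w) + H / 2) - ((y - h v - val f h w) - H / 2) := by
          have h8 : P2 ^ n ≤ C' * P2 ^ n := by nlinarith
          linarith
        have hcl := hlow P hPPl _ _ hA hB hAB
        have e2 : ((y - h v - val f h w) + H / 2) - ((y - h v - val f h w) - H / 2) = H := by ring
        rw [e2] at hcl
        refine hcl.trans ?_
        rw [Finset.card_filter]
        push_cast
        refine Finset.sum_le_sum fun u _ => ?_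
        by_cases hu : (y - h v - val f h w) - H / 2 ≤ f u ∧ f u ≤ (y - h v - val f h w) + H / 2
        · rw [if_pos hu, if_pos]
          rw [val_cons, abs_le]
          constructor
          · simp only
            linarith [hu.1]
          · simp only
            linarith [hu.2]
        · rw [if_neg hu]
          split_ifs <;> norm_num
      refine le_trans ?_ key
      calc min c1 c2 * tot n J (q + 1) P * H / P ^ n
          = min c1 c2 * (tot n J (q + 1) P * H / P ^ n) := by ring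
        _ ≤ c1 * (tot n J (q + 1) P * H / P ^ n) :=
            mul_le_mul_of_nonneg_right (min_le_left _ _) hTot
        _ ≤ c1 * (16 * (((J P).card : ℝ) * tot n J q P2 * H) / P ^ (n - 1)) :=
            mul_le_mul_of_nonneg_left hcomp hc1p.le
        _ = ((J P).card : ℝ) * tot n J q P2 * (H / (4 * n * 16 ^ (n - 1) * P ^ (n - 1))) := by
            rw [hc1]
            field_simp
            ring
    · -- case 2
      set H' := min H (P2 ^ n) with hH'
      have hH'1 : C0 * θ ≤ H' := by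
        apply le_min
        · have h5 : C0 * θ ≤ 2 * C0 * C' * θ := by
            apply mul_le_mul_of_nonneg_right _ hθ0
            nlinarith
          linarith
        · have h5 : C' * (2 * (C0 * θ)) < C' * P2 ^ n := by
            calc C' * (2 * (C0 * θ)) = 2 * C0 * C' * θ := by ring
              _ ≤ H := hH1
              _ < C' * P2 ^ n := hcase
          have h6 := lt_of_mul_lt_mul_left h5 hC'0.le
          have h7 : 0 ≤ C0 * θ := by positivity
          linarith
      have hH'2 : H' ≤ P2 ^ n := min_le_right _ _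
      have hH'3 : H' ≤ H := min_le_left _ _
      have hH'4 : H / C' ≤ H' := by
        apply le_min
        · exact div_le_self hH0 hC'1
        · rw [div_le_iff₀ hC'0]
          linarith
      have key : ((J P).card : ℝ) * (c * tot n J q P2 * H' / P2 ^ n) ≤
          cnt n J (q + 1) P (fun w => |val f h w - y| ≤ H) := by
        rw [cnt_succ, Finset.sum_comm]
        have e : ((J P).card : ℝ) * (c * tot n J q P2 * H' / P2 ^ n) =
            ∑ _v ∈ J P, (c * tot n J q P2 * H' / P2 ^ n) := by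
          rw [Finset.sum_const, nsmul_eq_mul]
        rw [e]
        refine Finset.sum_le_sum fun v hv => ?_
        have hv' := hJb v hv
        rw [abs_le] at hv'
        have hP12 : (12 : ℝ) ^ n * P2 ^ n ≤ P ^ n / 2 := by
          rw [hP2p, ml_powsucc hn P]
          have h5 : 2 * 12 ^ n * ((n : ℝ) * 16 ^ n) * P ^ (n - 1) ≤ P * P ^ (n - 1) :=
            mul_le_mul_of_nonneg_right hPbig hPn1.le
          linarith
        have hA : (5 / 2 : ℝ) ^ n * P ^ n ≤ (y - h v) - 12 ^ n * P2 ^ n := by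
          have h7 : ((5 / 2 : ℝ) ^ n + 1) * P ^ n ≤ 3 ^ n * P ^ n :=
            mul_le_mul_of_nonneg_right h3 hPn0.le
          linarith [hv'.2]
        have hB : (y - h v) - 3 ^ n * P2 ^ n ≤ 13 ^ n * P ^ n := by
          have h7 : ((12 : ℝ) ^ n + 1) * P ^ n ≤ 13 ^ n * P ^ n :=
            mul_le_mul_of_nonneg_right h13 hPn0.le
          have h8 : 0 ≤ (3 : ℝ) ^ n * P2 ^ n := by positivity
          linarith [hv'.1]
        have hdiff : P2 ^ n ≤ ((y - h v) - 3 ^ n * P2 ^ n) - ((y - h v) - 12 ^ n * P2 ^ n) := by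
          have h8 : ((3 : ℝ) ^ n + 1) * P2 ^ n ≤ 12 ^ n * P2 ^ n :=
            mul_le_mul_of_nonneg_right h12 hP2pos.le
          linarith
        have hcl := hlow P hPPl _ _ hA hB (hD.trans hdiff)
        have hone : (0 : ℝ) < (((mainI P).filter fun u => (y - h v) - 12 ^ n * P2 ^ n ≤ f u ∧
            f u ≤ (y - h v) - 3 ^ n * P2 ^ n).card : ℝ) := by
          refine lt_of_lt_of_le ?_ hcl
          have : 0 < ((y - h v) - 3 ^ n * P2 ^ n) - ((y - h v) - 12 ^ n * P2 ^ n) := by linarith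
          positivity
        have hne : ((mainI P).filter fun u => (y - h v) - 12 ^ n * P2 ^ n ≤ f u ∧
            f u ≤ (y - h v) - 3 ^ n * P2 ^ n).Nonempty := by
          rw [← Finset.card_pos]
          exact_mod_cast hone
        obtain ⟨u, hu⟩ := hne
        rw [Finset.mem_filter] at hu
        obtain ⟨hu0, hu1, hu2⟩ := hu
        have hIH := IH P2 hP2a (y - h v - f u) (by linarith) (by linarith) H' hH'1 hH'2
        refine hIH.trans ?_
        have hsingle : cnt n J q P2 (fun w => |val f h ((u, v) :: w) - y| ≤ H) ≤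
            ∑ u ∈ mainI P, cnt n J q P2 (fun w => |val f h ((u, v) :: w) - y| ≤ H) :=
          Finset.single_le_sum (f := fun u => cnt n J q P2 (fun w => |val f h ((u, v) :: w) - y| ≤ H))
            (fun i _ => cnt_nonneg _ _ _ _ _) hu0
        refine le_trans (cnt_mono ?_) hsingle
        intro w _ hw
        rw [val_cons]
        have e3 : f (u, v).1 + h (u, v).2 + val f h w - y = val f h w - (y - h v - f u) := by
          simp only
          ring
        rw [e3]
        exact hw.trans hH'3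
      refine le_trans ?_ key
      calc min c1 c2 * tot n J (q + 1) P * H / P ^ n
          = min c1 c2 * (tot n J (q + 1) P * H / P ^ n) := by ring
        _ ≤ c2 * (tot n J (q + 1) P * H / P ^ n) :=
            mul_le_mul_of_nonneg_right (min_le_right _ _) hTot
        _ ≤ c2 * (16 * (((J P).card : ℝ) * tot n J q P2 * H) / P ^ (n - 1)) :=
            mul_le_mul_of_nonneg_left hcomp hc2p.le
        _ = ((J P).card : ℝ) * (c * tot n J q P2 * (H / C') / P2 ^ n) := by
            rw [hc2, hP2p]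
            field_simp
        _ ≤ ((J P).card : ℝ) * (c * tot n J q P2 * H' / P2 ^ n) := by
            apply mul_le_mul_of_nonneg_left _ hJc
            apply div_le_div_of_nonneg_right _ hP2pos.le
            exact mul_le_mul_of_nonneg_left hH'4 (by positivity)

theorem smallHead {n : ℕ} (hn : 2 ≤ n) {f h : ℕ → ℝ} {J : ℝ → Finset ℕ} (hf : Good n f)
    (hJ : Side n h J) {q : ℕ} (hq : 1 ≤ q) :
    ∃ c P0 : ℝ, 0 < c ∧ 1 ≤ P0 ∧ ∀ P, P0 ≤ P →
      c * tot n J q P ≤ cnt n J q P (fun w => |val f h w| ≤ (2 ^ n + 1) * P ^ n) := by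
  classical
  obtain ⟨q, rfl⟩ : ∃ q' : ℕ, q = q' + 1 := ⟨q - 1, by omega⟩
  obtain ⟨Cv, hCv, Pv, hPv, hval⟩ := val_bound hn hf hJ q
  obtain ⟨Ps, hside⟩ := hJ
  obtain ⟨Pn, hPn⟩ := Filter.eventually_atTop.1 ((nxt_tendsto hn).eventually_ge_atTop Pv)
  have hlim := good_lim (by omega) hf
  have hη : (0 : ℝ) < 1 / 2 ^ (n + 1) := by positivity
  obtain ⟨X0, hX0⟩ := (Metric.tendsto_atTop.1 hlim) (1 / 2 ^ (n + 1)) hη
  have hn0 : (0 : ℝ) < n := by
    have : 0 < n := by omega
    exact_mod_cast this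
  refine ⟨1 / 32, max (max 2 X0) (max (max Ps Pn) (4 * Cv * (n * 16 ^ n))), by norm_num,
    le_max_of_le_left (le_max_of_le_left (by norm_num)), ?_⟩
  intro P hP
  have hP2' : 2 ≤ P := (le_max_left _ _).trans ((le_max_left _ _).trans hP)
  have hPX : (X0 : ℝ) ≤ P := (le_max_right _ _).trans ((le_max_left _ _).trans hP)
  have hPPs : Ps ≤ P :=
    (le_max_left _ _).trans ((le_max_left _ _).trans ((le_max_right _ _).trans hP))
  have hPPn : Pn ≤ P :=
    (le_max_right _ _).trans ((le_max_left _ _).trans ((le_max_right _ _).trans hP))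
  have hPbig : 4 * Cv * (n * 16 ^ n) ≤ P := (le_max_right _ _).trans ((le_max_right _ _).trans hP)
  have hPpos : 0 < P := by linarith
  set P2 := nxt n P with hP2
  have hP2b : Pv ≤ P2 := hPn P hPPn
  have hP2p : P2 ^ n = (n : ℝ) * 16 ^ n * P ^ (n - 1) := nxt_pow (by omega) hPpos.le
  obtain ⟨hJne, hJb⟩ := hside P hPPs
  have hPn0 : 0 < P ^ n := by positivity
  have hPn1 : 0 < P ^ (n - 1) := by positivity
  have hT := tot_nonneg n J q P2
  have hJc : (0 : ℝ) ≤ ((J P).card : ℝ) := Nat.cast_nonneg _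
  have hsub : Finset.Ioc ⌊P⌋₊ ⌊2 * P⌋₊ ⊆ mainI P := by
    unfold mainI
    apply Finset.Ioc_subset_Ioc_right
    exact Nat.floor_le_floor (by linarith)
  have hcard : P / 2 ≤ ((Finset.Ioc ⌊P⌋₊ ⌊2 * P⌋₊).card : ℝ) := by
    rw [Nat.card_Ioc, Nat.cast_sub (Nat.floor_le_floor (by linarith))]
    have h1 : (⌊P⌋₊ : ℝ) ≤ P := Nat.floor_le hPpos.le
    have h2 : 2 * P - 1 < (⌊2 * P⌋₊ : ℝ) := Nat.sub_one_lt_floor _
    linarith
  have key : (P / 2) * (((J P).card : ℝ) * tot n J q P2) ≤
      cnt n J (q + 1) P (fun w => |val f h w| ≤ (2 ^ n + 1) * P ^ n) := by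
    rw [cnt_succ]
    calc (P / 2) * (((J P).card : ℝ) * tot n J q P2)
        ≤ ((Finset.Ioc ⌊P⌋₊ ⌊2 * P⌋₊).card : ℝ) * (((J P).card : ℝ) * tot n J q P2) :=
          mul_le_mul_of_nonneg_right hcard (by positivity)
      _ = ∑ _u ∈ Finset.Ioc ⌊P⌋₊ ⌊2 * P⌋₊, ∑ _v ∈ J P, tot n J q P2 := by
          rw [Finset.sum_const, Finset.sum_const, nsmul_eq_mul, nsmul_eq_mul]
      _ ≤ ∑ u ∈ Finset.Ioc ⌊P⌋₊ ⌊2 * P⌋₊, ∑ v ∈ J P,
            cnt n J q P2 (fun w => |val f h ((u, v) :: w)| ≤ (2 ^ n + 1) * P ^ n) := by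
          refine Finset.sum_le_sum fun u hu => Finset.sum_le_sum fun v hv => ?_
          have htot : tot n J q P2 = cnt n J q P2 (fun _ => True) := by
            rw [ml_cnt]
            unfold tot
            simp
          rw [htot]
          apply cnt_mono
          intro w hw _
          rw [Finset.mem_Ioc] at hu
          have hu1 : P < (u : ℝ) := (Nat.floor_lt hPpos.le).1 hu.1
          have hu2 : (u : ℝ) ≤ 2 * P := by
            have h1 : (u : ℝ) ≤ (⌊2 * P⌋₊ : ℝ) := by exact_mod_cast hu.2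
            exact h1.trans (Nat.floor_le (by linarith))
          have hu0 : 0 < (u : ℝ) := by linarith
          have huX : X0 ≤ u := by
            have : (X0 : ℝ) ≤ u := by linarith
            exact_mod_cast this
          have hfu : |f u| ≤ (2 ^ n + 1 / 2) * P ^ n := by
            have h1 := hX0 u huX
            rw [Real.dist_eq] at h1
            have hun : 0 < (u : ℝ) ^ n := by positivity
            have h2 : |f u / (u : ℝ) ^ n| ≤ 1 + 1 / 2 ^ (n + 1) := by
              calc |f u / (u : ℝ) ^ n| = |(f u / (u : ℝ) ^ n - 1) + 1| := by ring_nf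
                _ ≤ |f u / (u : ℝ) ^ n - 1| + |(1 : ℝ)| := abs_add_le _ _
                _ ≤ 1 + 1 / 2 ^ (n + 1) := by
                    rw [abs_one]
                    linarith
            rw [abs_div, abs_of_pos hun, div_le_iff₀ hun] at h2
            have h3 : (u : ℝ) ^ n ≤ 2 ^ n * P ^ n := by
              rw [← mul_pow]
              exact pow_le_pow_left₀ hu0.le hu2 n
            calc |f u| ≤ (1 + 1 / 2 ^ (n + 1)) * (u : ℝ) ^ n := h2
              _ ≤ (1 + 1 / 2 ^ (n + 1)) * (2 ^ n * P ^ n) :=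
                  mul_le_mul_of_nonneg_left h3 (by positivity)
              _ = (2 ^ n + 1 / 2) * P ^ n := by
                  rw [pow_succ]
                  field_simp
          have hv' := hJb v hv
          have hw' : |val f h w| ≤ P ^ n / 4 := by
            have h5 := hval P2 hP2b w hw
            rw [hP2p] at h5
            have h6 : 4 * Cv * (n * 16 ^ n) * P ^ (n - 1) ≤ P * P ^ (n - 1) :=
              mul_le_mul_of_nonneg_right hPbig hPn1.le
            rw [← ml_powsucc hn P] at h6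
            linarith
          rw [val_cons]
          simp only
          calc |f u + h v + val f h w| ≤ |f u + h v| + |val f h w| := abs_add_le _ _
            _ ≤ |f u| + |h v| + |val f h w| := by linarith [abs_add_le (f u) (h v)]
            _ ≤ (2 ^ n + 1) * P ^ n := by linarith
      _ ≤ ∑ u ∈ mainI P, ∑ v ∈ J P,
            cnt n J q P2 (fun w => |val f h ((u, v) :: w)| ≤ (2 ^ n + 1) * P ^ n) :=
          Finset.sum_le_sum_of_subset_of_nonneg hsub fun u _ _ =>
            Finset.sum_nonneg fun v _ => cnt_nonneg _ _ _ _ _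
  refine le_trans ?_ key
  rw [tot_succ]
  have hm := card_mainI_le (P := P) (by linarith)
  calc 1 / 32 * (((mainI P).card : ℝ) * ((J P).card : ℝ) * tot n J q P2)
      = 1 / 32 * ((mainI P).card : ℝ) * (((J P).card : ℝ) * tot n J q P2) := by ring
    _ ≤ 1 / 32 * (16 * P) * (((J P).card : ℝ) * tot n J q P2) := by
        apply mul_le_mul_of_nonneg_right _ (by positivity)
        linarith
    _ = (P / 2) * (((J P).card : ℝ) * tot n J q P2) := by ring

end MWg
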