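import Pool.Agent.MWg.LemAB
import Pool.Agent.MWg.LemML
import Pool.Agent.MWg.MData
import Pool.Agent.MWg.Tools

/-!
# MWg.PData: verification of the hypotheses for chains of pairs

`W r = chain k J1 q (XX r)`, `a = val f f`, `b = val pj pj` with `pj x = x^j`, `X = XX r`.

PROOF. Let `E = k (1-1/k)^q ≥ 0`, `2E < j`, `δ = (j - 2E)/5 > 0`; so `5δ = j - 2E ≤ j` and
`j - 5δ = 2E`. Let `θ_r = ((nxt k)^[q] X)^k ≤ C X^E` (`nxt_iter_pow_le`). `W r` is nonempty for large `r`
(`tot_pos`, `card_J1_ge`).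

`h1`: `m0 = m1 = θ_r`: `θ_r ≤ C X^E ≤ C X^(2E)`, `θ_r² ≤ C² X^(2E)`. For `0 < M ≤ X^j` let
`M' = max M θ_r`; eventually `θ_r ≤ X^j` (`E < j`), so `θ_r ≤ M' ≤ X^j` and by `pairs_eq_sum_right` and
`lemAB` (`α = val f f w'`, `β = val pj pj w'`), `pairs (...) ≤ |W| * C |W| M'^2/X^(k+j)` and
`M'^2 ≤ (M + θ_r)^2`.

`h2`: `S_t w = val f_t f_t w` with `f_t x = f x + t x^j` (`val_lin`), `Good k f_t` (`good_add_pow`),
`Side k f_t J1` (`side_J1`). `M ≥ X^(j-δ) ≥ θ_r` eventually, because `j - δ = 2E + 4δ > E`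
(`eventually_rpow_le`). By `lemA` for `f_t` (`α = val f_t f_t w'`) and `pairs_eq_sum_right`:
`pairs (...) ≤ |W| * C |W| M/X^k`.

`h3`: `H = X^(j-3δ)`. Apply `lemML` and `smallHead` to `f_t` (`q ≥ 1` because `q = 0` would give
`2k < j`). For `w'` with `|val f_t f_t w'| ≤ (2^k+1) X^k` the number `y' = y - val f_t f_t w'` satisfies
`3^k X^k ≤ (4^k - 2^k - 1) X^k ≤ y' ≤ (8^k + 2^k + 1) X^k ≤ 12^k X^k` (`k ≥ 2`). `C0 θ_r ≤ H/2`
eventually (`j - 3δ = 2E + 2δ > E`) and `H/2 ≤ X^k`. So at least `c |W| (H/2)/X^k` of the `w` satisfy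
`|val w + val w' - y| ≤ H/2`; there are at least `c' |W|` such `w'`.
-/

namespace MWg

open Filter Topology

theorem pd_upper {k q : ℕ} {X B : ℝ} {p : List (ℕ × ℕ) × List (ℕ × ℕ) → Prop}
    (h : ∀ w' ∈ chain k J1 q X, cnt k J1 q X (fun w => p (w, w')) ≤ B) :
    pairs (chain k J1 q X) p ≤ tot k J1 q X * B := by
  rw [pairs_eq_sum_right]
  calc ∑ w' ∈ chain k J1 q X, ((open Classical in ((chain k J1 q X).filter
        fun w => p (w, w')).card : ℕ) : ℝ)
      ≤ ∑ _w' ∈ chain k J1 q X, B := Finset.sum_le_sum h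
    _ = tot k J1 q X * B := by
        rw [Finset.sum_const, nsmul_eq_mul]
        rfl

theorem pd_lower {k q : ℕ} {X K G0 : ℝ} {p : List (ℕ × ℕ) × List (ℕ × ℕ) → Prop}
    {G : List (ℕ × ℕ) → Prop} (hK : 0 ≤ K) (hG : G0 ≤ cnt k J1 q X G)
    (h : ∀ w' ∈ chain k J1 q X, G w' → K ≤ cnt k J1 q X (fun w => p (w, w'))) :
    G0 * K ≤ pairs (chain k J1 q X) p := by
  classical
  rw [pairs_eq_sum_right]
  have h1 : ∑ _w' ∈ (chain k J1 q X).filter G, K ≤
      ∑ w' ∈ (chain k J1 q X).filter G, ((open Classical in ((chain k J1 q X).filter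
        fun w => p (w, w')).card : ℕ) : ℝ) := by
    refine Finset.sum_le_sum fun w' hw' => ?_
    rw [Finset.mem_filter] at hw'
    exact h w' hw'.1 hw'.2
  have h2 : ∑ w' ∈ (chain k J1 q X).filter G, ((open Classical in ((chain k J1 q X).filter
        fun w => p (w, w')).card : ℕ) : ℝ) ≤
      ∑ w' ∈ chain k J1 q X, ((open Classical in ((chain k J1 q X).filter
        fun w => p (w, w')).card : ℕ) : ℝ) := by
    refine Finset.sum_le_sum_of_subset_of_nonneg (Finset.filter_subset _ _) ?_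
    intro i _ _
    exact Nat.cast_nonneg _
  have h3 : cnt k J1 q X G * K = ∑ _w' ∈ (chain k J1 q X).filter G, K := by
    rw [Finset.sum_const, nsmul_eq_mul]
    unfold cnt
    congr!
  calc G0 * K ≤ cnt k J1 q X G * K := mul_le_mul_of_nonneg_right hG hK
    _ = _ := h3
    _ ≤ _ := h1
    _ ≤ _ := h2

theorem pd_pow_aux1 {k : ℕ} (hk : 2 ≤ k) : (3 : ℝ) ^ k + 2 ^ k + 1 ≤ 4 ^ k := by
  induction k, hk using Nat.le_induction with
  | base => norm_num
  | succ k hk ih =>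
      have h3 : (0 : ℝ) < 3 ^ k := by positivity
      have h2 : (0 : ℝ) < 2 ^ k := by positivity
      rw [pow_succ, pow_succ, pow_succ]
      linarith

theorem pd_pow_aux2 {k : ℕ} (hk : 1 ≤ k) : (8 : ℝ) ^ k + 2 ^ k + 1 ≤ 12 ^ k := by
  induction k, hk using Nat.le_induction with
  | base => norm_num
  | succ k hk ih =>
      have h3 : (0 : ℝ) < 8 ^ k := by positivity
      have h2 : (0 : ℝ) < 2 ^ k := by positivity
      rw [pow_succ, pow_succ, pow_succ]
      linarith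

theorem pData {k j q : ℕ} (hj : 1 ≤ j) (hjk : j < k)
    (hq : 2 * (k : ℝ) * (1 - 1 / (k : ℝ)) ^ q < j) {f : ℕ → ℝ} (hf : Good k f) :
    ∃ δ : ℝ, MData k j δ (fun r => chain k J1 q (XX r)) (val f f)
      (val (fun x => (x : ℝ) ^ j) (fun x => (x : ℝ) ^ j)) := by
  have hk2 : 2 ≤ k := by omega
  have hk1 : 1 ≤ k := by omega
  have hkR : (1 : ℝ) ≤ (k : ℝ) := by exact_mod_cast hk1
  have hjkR : (j : ℝ) ≤ (k : ℝ) := by exact_mod_cast hjk.le
  set E : ℝ := (k : ℝ) * (1 - 1 / (k : ℝ)) ^ q with hE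
  have hE0 : 0 ≤ E := by
    have : 0 ≤ 1 - 1 / (k : ℝ) := by
      rw [sub_nonneg, div_le_one (by linarith)]
      exact hkR
    positivity
  have hqE : 2 * E < j := by rw [hE]; linarith
  set δ : ℝ := ((j : ℝ) - 2 * E) / 5 with hδ
  have hδ0 : 0 < δ := by rw [hδ]; linarith
  have h5 : 5 * δ = j - 2 * E := by rw [hδ]; ring
  have hj5 : (j : ℝ) - 5 * δ = 2 * E := by linarith
  obtain ⟨C1, hC1, hth⟩ := nxt_iter_pow_le hk1 q
  have hth' : ∀ r : ℕ, ((nxt k)^[q] (XX r)) ^ k ≤ C1 * XX r ^ E := fun r => hth _ (XX_ge_one r)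
  have hth0 : ∀ r : ℕ, 0 ≤ ((nxt k)^[q] (XX r)) ^ k := fun r => by
    have := nxt_iter_ge_one hk1 q (XX_ge_one r)
    positivity
  have hq1 : 1 ≤ q := by
    by_contra hcon
    have hq0 : q = 0 := by omega
    rw [hq0] at hE
    simp only [pow_zero, mul_one] at hE
    rw [hE] at hqE
    linarith
  refine ⟨δ, ?_⟩
  constructor
  · exact hδ0
  · linarith
  · obtain ⟨P0, hP0⟩ := tot_pos hk2 (J := J1) ⟨16, fun P hP => by
      have h1 := card_J1_ge hP
      have h2 : (0 : ℝ) < ((J1 P).card : ℝ) := by linarith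
      exact Finset.card_pos.1 (by exact_mod_cast h2)⟩ q
    filter_upwards [XX_tendsto.eventually_ge_atTop P0] with r hr
    have h1 := hP0 _ hr
    unfold tot at h1
    exact Finset.card_pos.1 (by exact_mod_cast h1)
  · obtain ⟨CB, hCB, PB, hPB, hB⟩ := lemAB hj hjk hf q
    refine ⟨C1 + C1 ^ 2 + CB, ?_⟩
    filter_upwards [XX_tendsto.eventually_ge_atTop PB,
      eventually_rpow_le (C := C1) (A := E) (B := (j : ℝ)) (by linarith)] with r hr hr2
    have hX1 := XX_ge_one r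
    have hX0 := XX_pos r
    set X := XX r with hX
    set θ := ((nxt k)^[q] X) ^ k with hθ
    have hθ0 : 0 ≤ θ := hth0 r
    have hθ1 : θ ≤ C1 * X ^ E := hth' r
    have hθj : θ ≤ X ^ j := by
      rw [Real.rpow_natCast] at hr2
      exact hθ1.trans hr2
    have hXE : X ^ E ≤ X ^ (2 * E) := Real.rpow_le_rpow_of_exponent_le hX1 (by linarith)
    have hXE2 : X ^ E * X ^ E = X ^ (2 * E) := by
      rw [← Real.rpow_add hX0]; congr 1; ring
    have hX2E : 0 ≤ X ^ (2 * E) := by positivity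
    have hXE0 : 0 ≤ X ^ E := by positivity
    have hA1 : θ ≤ (C1 + C1 ^ 2 + CB) * X ^ ((j : ℝ) - 5 * δ) := by
      rw [hj5]
      have : C1 * X ^ E ≤ C1 * X ^ (2 * E) := mul_le_mul_of_nonneg_left hXE hC1.le
      have h2 : 0 ≤ (C1 ^ 2 + CB) * X ^ (2 * E) := by positivity
      linarith
    have hA2 : θ * θ ≤ (C1 + C1 ^ 2 + CB) * X ^ ((j : ℝ) - 5 * δ) := by
      rw [hj5]
      have h1 : θ * θ ≤ (C1 * X ^ E) * (C1 * X ^ E) := mul_le_mul hθ1 hθ1 hθ0 (by positivity)
      have h2 : (C1 * X ^ E) * (C1 * X ^ E) = C1 ^ 2 * X ^ (2 * E) := by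
        rw [← hXE2]; ring
      have h3 : 0 ≤ (C1 + CB) * X ^ (2 * E) := by positivity
      linarith
    refine ⟨θ, θ, hθ0, hθ0, hA1, hA1, hA2, ?_⟩
    intro M hM0 hMj
    have hM' : max M θ ≤ X ^ j := max_le hMj hθj
    have hT : 0 ≤ tot k J1 q X := tot_nonneg _ _ _ _
    have hup := pd_upper (k := k) (q := q) (X := X)
      (B := CB * tot k J1 q X * (max M θ) ^ 2 / X ^ (k + j))
      (p := fun p => |val f f p.1 - val f f p.2| ≤ M ∧
        |val (fun x => (x : ℝ) ^ j) (fun x => (x : ℝ) ^ j) p.1 -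
          val (fun x => (x : ℝ) ^ j) (fun x => (x : ℝ) ^ j) p.2| ≤ M) (by
        intro w' _
        refine le_trans (cnt_mono ?_) (hB X hr (val f f w')
          (val (fun x => (x : ℝ) ^ j) (fun x => (x : ℝ) ^ j) w') (max M θ)
          (le_max_right _ _) hM')
        intro w _ h
        exact ⟨h.1.trans (le_max_left _ _), h.2.trans (le_max_left _ _)⟩)
    refine hup.trans ?_
    have hmm : (max M θ) ^ 2 ≤ (M + θ) * (M + θ) := by
      have h1 : max M θ ≤ M + θ := max_le (by linarith) (by linarith)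
      have h0 : 0 ≤ max M θ := le_trans hM0.le (le_max_left _ _)
      nlinarith
    have hXk : 0 < X ^ (k + j) := by positivity
    have e1 : tot k J1 q X * (CB * tot k J1 q X * (max M θ) ^ 2 / X ^ (k + j)) =
        (CB * tot k J1 q X ^ 2 * (max M θ) ^ 2) / X ^ (k + j) := by ring
    rw [e1]
    apply div_le_div_of_nonneg_right _ hXk.le
    have e2 : CB * tot k J1 q X ^ 2 * (max M θ) ^ 2 ≤
        CB * tot k J1 q X ^ 2 * ((M + θ) * (M + θ)) :=
      mul_le_mul_of_nonneg_left hmm (by positivity)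
    have e3 : CB * tot k J1 q X ^ 2 * ((M + θ) * (M + θ)) ≤
        (C1 + C1 ^ 2 + CB) * tot k J1 q X ^ 2 * ((M + θ) * (M + θ)) := by
      have : 0 ≤ (C1 + C1 ^ 2) * tot k J1 q X ^ 2 * ((M + θ) * (M + θ)) := by positivity
      nlinarith
    calc CB * tot k J1 q X ^ 2 * (max M θ) ^ 2 ≤ _ := e2
      _ ≤ _ := e3
      _ = (C1 + C1 ^ 2 + CB) * ((chain k J1 q X).card : ℝ) ^ 2 * (M + θ) * (M + θ) := by
          unfold tot; ring
  · intro t
    have hft : Good k (fun x => f x + t * (x : ℝ) ^ j) := good_add_pow hjk hf t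
    obtain ⟨CA, hCA, PA, hPA, hA⟩ := lemA hk2 hft (side_J1 hk2 hft) q
    refine ⟨CA, ?_⟩
    filter_upwards [XX_tendsto.eventually_ge_atTop PA,
      eventually_rpow_le (C := C1) (A := E) (B := (j : ℝ) - δ) (by linarith)] with r hr hr2
    have hX1 := XX_ge_one r
    have hX0 := XX_pos r
    intro M hM1 hM2
    have hθM : ((nxt k)^[q] (XX r)) ^ k ≤ M := (hth' r).trans (hr2.trans hM1)
    have hup := pd_upper (k := k) (q := q) (X := XX r)
      (B := CA * tot k J1 q (XX r) * M / XX r ^ k)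
      (p := fun p => |(val f f p.1 + t * val (fun x => (x : ℝ) ^ j) (fun x => (x : ℝ) ^ j) p.1) -
        (val f f p.2 + t * val (fun x => (x : ℝ) ^ j) (fun x => (x : ℝ) ^ j) p.2)| ≤ M) (by
        intro w' _
        refine le_trans (cnt_mono ?_) (hA (XX r) hr
          (val f f w' + t * val (fun x => (x : ℝ) ^ j) (fun x => (x : ℝ) ^ j) w') M hθM)
        intro w _ h
        rw [← val_lin]
        exact h)
    refine hup.trans (le_of_eq ?_)
    unfold tot
    ring
  · intro t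
    have hft : Good k (fun x => f x + t * (x : ℝ) ^ j) := good_add_pow hjk hf t
    obtain ⟨c1, C0, P1, hc1, hC0, hP1, hML⟩ := lemML hk2 hft (side_J1 hk2 hft) q
    obtain ⟨c2, P2, hc2, hP2, hSH⟩ := smallHead hk2 hft (side_J1 hk2 hft) hq1
    refine ⟨c1 * c2 / 2, by positivity, ?_⟩
    filter_upwards [XX_tendsto.eventually_ge_atTop P1, XX_tendsto.eventually_ge_atTop P2,
      eventually_rpow_le (C := 2 * (C0 * C1)) (A := E) (B := (j : ℝ) - 3 * δ) (by linarith)]
      with r hr1 hr2 hr3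
    have hX1 := XX_ge_one r
    have hX0 := XX_pos r
    intro y hy1 hy2
    have hH0 : 0 ≤ XX r ^ ((j : ℝ) - 3 * δ) := by positivity
    have hHk : XX r ^ ((j : ℝ) - 3 * δ) / 2 ≤ XX r ^ k := by
      have h1 : XX r ^ ((j : ℝ) - 3 * δ) ≤ XX r ^ (k : ℝ) :=
        Real.rpow_le_rpow_of_exponent_le hX1 (by linarith)
      rw [Real.rpow_natCast] at h1
      linarith
    have hHθ : C0 * ((nxt k)^[q] (XX r)) ^ k ≤ XX r ^ ((j : ℝ) - 3 * δ) / 2 := by
      have h1 : C0 * ((nxt k)^[q] (XX r)) ^ k ≤ C0 * (C1 * XX r ^ E) :=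
        mul_le_mul_of_nonneg_left (hth' r) (by linarith)
      have h2 : 2 * (C0 * C1) * XX r ^ E = 2 * (C0 * (C1 * XX r ^ E)) := by ring
      rw [h2] at hr3
      linarith
    have hXk : 0 < XX r ^ k := by positivity
    have hT : 0 ≤ tot k J1 q (XX r) := tot_nonneg _ _ _ _
    have hlow := pd_lower (k := k) (q := q) (X := XX r)
      (K := c1 * tot k J1 q (XX r) * (XX r ^ ((j : ℝ) - 3 * δ) / 2) / XX r ^ k)
      (G0 := c2 * tot k J1 q (XX r))
      (p := fun p => |(val f f p.1 + t * val (fun x => (x : ℝ) ^ j) (fun x => (x : ℝ) ^ j) p.1) +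
        (val f f p.2 + t * val (fun x => (x : ℝ) ^ j) (fun x => (x : ℝ) ^ j) p.2) - y| ≤
        XX r ^ ((j : ℝ) - 3 * δ) / 2)
      (G := fun w => |val (fun x => f x + t * (x : ℝ) ^ j) (fun x => f x + t * (x : ℝ) ^ j) w| ≤
        (2 ^ k + 1) * XX r ^ k) (by positivity) (hSH (XX r) hr2) (by
        intro w' _ hw'
        have hab := abs_le.1 hw'
        have ha1 := pd_pow_aux1 hk2
        have ha2 := pd_pow_aux2 hk1
        have hm1 := mul_le_mul_of_nonneg_right ha1 hXk.le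
        have hm2 := mul_le_mul_of_nonneg_right ha2 hXk.le
        refine le_trans (hML (XX r) hr1 (y - val (fun x => f x + t * (x : ℝ) ^ j)
          (fun x => f x + t * (x : ℝ) ^ j) w') (by nlinarith [hab.2]) (by nlinarith [hab.1])
          (XX r ^ ((j : ℝ) - 3 * δ) / 2) hHθ hHk) (cnt_mono ?_)
        intro w _ h
        rw [← val_lin, ← val_lin] at h
        have e : (val f f w + t * val (fun x => (x : ℝ) ^ j) (fun x => (x : ℝ) ^ j) w) +
          (val f f w' + t * val (fun x => (x : ℝ) ^ j) (fun x => (x : ℝ) ^ j) w') - y =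
          (val f f w + t * val (fun x => (x : ℝ) ^ j) (fun x => (x : ℝ) ^ j) w) -
          (y - (val f f w' + t * val (fun x => (x : ℝ) ^ j) (fun x => (x : ℝ) ^ j) w')) := by ring
        show |(val f f w + t * val (fun x => (x : ℝ) ^ j) (fun x => (x : ℝ) ^ j) w) +
          (val f f w' + t * val (fun x => (x : ℝ) ^ j) (fun x => (x : ℝ) ^ j) w') - y| ≤ _
        rw [e]
        exact h)
    refine le_trans (le_of_eq ?_) hlow
    unfold tot
    ring

end MWg
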