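import Pool.Agent.MWg.AeD
import Pool.Agent.MWg.FinalD

/-!
# MWg.Abstract: the abstract metric theorem (combination)
-/

namespace MWg

open MeasureTheory Filter

theorem metric_main {k j : ℕ} {δ : ℝ} {ι : Type} {W : ℕ → Finset ι} {a b : ι → ℝ} (hk : j ≤ k)
    (hk1 : 1 ≤ k) (h : MData k j δ W a b) :
    ∀ᵐ t : ℝ, ∀ ε : ℝ, 0 < ε → ∃ Y : ℝ, ∀ y : ℝ, Y ≤ y → ∃ r : ℕ, ∃ w ∈ W r, ∃ w' ∈ W r,
      |(a w + t * b w) + (a w' + t * b w') - y| < ε := by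
  filter_upwards [ae_D hk h] with t ht
  exact final_of_D hk hk1 h t ht

end MWg
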