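import Pool.Agent.MWg.MeanSq
import Pool.Agent.MWg.MData

/-!
# MWg.AeD: for almost every t the tails are eventually small

Throughout `X = XX r = 2 ^ r`. `MData k j δ W a b` collects the hypotheses on the finite families
`W r` and the two value functions `a, b`; `S_t w = a w + t * b w`.

Put `L = X^{δ/4}`, `Θ0 = X^{δ-j}` (`≤ 1`), `H = X^{j-3δ}` (`≥ 1` since `5δ ≤ j`).

PROOF of `ae_D` (for almost every `t` the tails `Dfun` are eventually small).
It is enough to treat `t ∈ [-T, T]` for each natural `T ≥ 1` (countable union). For `r` large apply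
`Dfun_int_le` with `N0 = C |W|² / X^{k+j}` (C ≥ 0 w.l.o.g.) and `m0, m1` from `h1`: here
`L/Θ0 = X^{j-3δ/4} ≤ X^j`, so `hN` holds. The result is
`∫_{-T}^T Dfun ≤ C_T |W|² X^{-k-j} (X^{δ/2} X^{j-δ} + X^{δ/4} 2C X^{j-5δ} (1 + j log X) + C X^{j-5δ})
   + C_T |W|² exp (-π X^{δ/2}) ≤ C'_T |W|² X^{-k-δ/2}` for all large `r`
(`log X ≤ X^{δ}` eventually and `exp (-π X^{δ/2}) ≤ X^{-k-δ/2}` eventually).
Markov's inequality (`Dfun ≥ 0` and continuous): the set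
`E_r = {t ∈ [-T,T] : Dfun t > |W|² X^{-k-δ/4}}` has measure `≤ C'_T X^{-δ/4} = C'_T (2^{-δ/4})^r`
(`W r` nonempty, so `|W|² > 0`), summable in `r`; Borel-Cantelli
(`MeasureTheory.ae_eventually_notMem` or `measure_limsup_atTop_eq_zero`).

-/

namespace MWg

open MeasureTheory Filter

theorem AeD_one_le (r : ℕ) : 1 ≤ XX r := by
  unfold XX
  exact one_le_pow₀ (by norm_num)

theorem AeD_exp {δ : ℝ} (hδ : 0 < δ) (k : ℕ) : ∃ K : ℝ, 0 ≤ K ∧ ∀ X : ℝ, 1 ≤ X →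
    Real.exp (-Real.pi * X ^ (δ / 2)) ≤ K * X ^ (-(k : ℝ) - δ / 2) := by
  obtain ⟨n, hn⟩ := exists_nat_ge (((k : ℝ) + δ / 2) * (2 / δ))
  refine ⟨(n.factorial : ℝ), by positivity, fun X hX => ?_⟩
  have hX0 : 0 < X := by linarith
  set y : ℝ := X ^ (δ / 2) with hy
  have hy1 : 1 ≤ y := Real.one_le_rpow hX (by positivity)
  have hy0 : 0 < y := by linarith
  have e1 : y ^ n / (n.factorial : ℝ) ≤ Real.exp y := Real.pow_div_factorial_le_exp y hy0.le n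
  have e2 : Real.exp y ≤ Real.exp (Real.pi * y) := by
    apply Real.exp_le_exp.mpr
    have := Real.pi_gt_three
    nlinarith
  have e3 : X ^ ((k : ℝ) + δ / 2) ≤ y ^ n := by
    have : X ^ ((k : ℝ) + δ / 2) = y ^ (((k : ℝ) + δ / 2) * (2 / δ)) := by
      rw [hy, ← Real.rpow_mul hX0.le]
      congr 1
      field_simp
    rw [this, ← Real.rpow_natCast]
    exact Real.rpow_le_rpow_of_exponent_le hy1 hn
  have hf : (0 : ℝ) < (n.factorial : ℝ) := by exact_mod_cast n.factorial_pos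
  have e4 : X ^ ((k : ℝ) + δ / 2) ≤ (n.factorial : ℝ) * Real.exp (Real.pi * y) := by
    rw [div_le_iff₀ hf] at e1
    calc X ^ ((k : ℝ) + δ / 2) ≤ y ^ n := e3
      _ ≤ Real.exp y * (n.factorial : ℝ) := e1
      _ ≤ Real.exp (Real.pi * y) * (n.factorial : ℝ) := by gcongr
      _ = _ := by ring
  have e5 : -Real.pi * y = -(Real.pi * y) := by ring
  have e6 : -(k : ℝ) - δ / 2 = -((k : ℝ) + δ / 2) := by ring
  rw [e5, e6, Real.exp_neg, Real.rpow_neg hX0.le]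
  have p1 : 0 < Real.exp (Real.pi * y) := Real.exp_pos _
  have p2 : 0 < X ^ ((k : ℝ) + δ / 2) := Real.rpow_pos_of_pos hX0 _
  rw [inv_le_iff_one_le_mul₀ p1]
  have : 1 ≤ (X ^ ((k : ℝ) + δ / 2))⁻¹ * ((n.factorial : ℝ) * Real.exp (Real.pi * y)) := by
    rw [← inv_mul_cancel₀ p2.ne']
    gcongr
  nlinarith [this]

theorem AeD_core {k j : ℕ} {δ : ℝ} {ι : Type} {W : ℕ → Finset ι} {a b : ι → ℝ}
    (h : MData k j δ W a b) {T : ℝ} (hT : 1 ≤ T) :
    ∃ K : ℝ, 0 ≤ K ∧ ∀ᶠ r in atTop,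
      ∫ t in (-T)..T, Dfun (W r) a b (XX r ^ (δ - (j : ℝ))) t ≤
        K * (((W r).card : ℝ) ^ 2 * XX r ^ (-(k : ℝ) - δ / 2)) := by
  obtain ⟨C, hC⟩ := h.h1
  obtain ⟨K1, hK1, hexp⟩ := AeD_exp h.hδ k
  have hδ := h.hδ
  have hδj := h.hδj
  set C0 : ℝ := max C 0 with hC0
  have hC00 : 0 ≤ C0 := le_max_right _ _
  have hCC : C ≤ C0 := le_max_left _ _
  refine ⟨16 * Real.exp (2 * Real.pi) * T * (C0 + C0 * (2 * C0) * ((j : ℝ) / δ) + C0 * C0 + K1),
    by positivity, ?_⟩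
  filter_upwards [hC] with r hr
  obtain ⟨m0, m1, hm0, hm1, b0, b1, b01, hp⟩ := hr
  have hX : 1 ≤ XX r := AeD_one_le r
  generalize XX r = X at hX hp b0 b1 b01 ⊢
  have hX0 : 0 < X := by linarith
  set w : ℝ := ((W r).card : ℝ) ^ 2 with hw
  have hw0 : 0 ≤ w := by positivity
  set E : ℝ := X ^ (-(k : ℝ) - δ / 2) with hE
  have hE0 : 0 < E := Real.rpow_pos_of_pos hX0 _
  have hΘ : 0 < X ^ (δ - (j : ℝ)) := Real.rpow_pos_of_pos hX0 _
  have hΘ1 : X ^ (δ - (j : ℝ)) ≤ 1 := Real.rpow_le_one_of_one_le_of_nonpos hX (by linarith)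
  have hL : 0 < X ^ (δ / 4) := Real.rpow_pos_of_pos hX0 _
  have b0' : m0 ≤ C0 * X ^ ((j : ℝ) - 5 * δ) := b0.trans (by gcongr)
  have b1' : m1 ≤ C0 * X ^ ((j : ℝ) - 5 * δ) := b1.trans (by gcongr)
  have b01' : m0 * m1 ≤ C0 * X ^ ((j : ℝ) - 5 * δ) := b01.trans (by gcongr)
  have hpw : (X ^ (k + j))⁻¹ = X ^ (-(k : ℝ) - (j : ℝ)) := by
    rw [← Real.rpow_natCast, ← Real.rpow_neg hX0.le]
    congr 1
    push_cast
    ring
  have hLT : X ^ (δ / 4) / X ^ (δ - (j : ℝ)) = X ^ ((j : ℝ) - 3 * δ / 4) := by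
    rw [← Real.rpow_sub hX0]
    congr 1
    ring
  have hN0 : 0 ≤ C0 * w * X ^ (-(k : ℝ) - (j : ℝ)) := by positivity
  have main := Dfun_int_le (W r) a b (Θ0 := X ^ (δ - (j : ℝ))) (L := X ^ (δ / 4)) (T := T)
    (N0 := C0 * w * X ^ (-(k : ℝ) - (j : ℝ))) (m0 := m0) (m1 := m1) hΘ hΘ1 hL hT hN0 hm0 hm1
    (fun M hM hM2 => by
      have hMj : M ≤ X ^ j := by
        rw [hLT] at hM2
        refine hM2.trans ?_
        rw [← Real.rpow_natCast]
        exact Real.rpow_le_rpow_of_exponent_le hX (by linarith)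
      have := hp M hM hMj
      rw [div_eq_mul_inv, hpw] at this
      refine this.trans ?_
      have q1 : 0 < X ^ (-(k : ℝ) - (j : ℝ)) := Real.rpow_pos_of_pos hX0 _
      have q2 : 0 ≤ w * (M + m0) * (M + m1) * X ^ (-(k : ℝ) - (j : ℝ)) := by positivity
      nlinarith [mul_le_mul_of_nonneg_right hCC q2])
  refine main.trans ?_
  rw [mul_assoc (16 * Real.exp (2 * Real.pi) * T)]
  apply mul_le_mul_of_nonneg_left _ (by positivity)
  have hlog : 1 + Real.log (1 / X ^ (δ - (j : ℝ))) ≤ (j : ℝ) / δ * X ^ δ := by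
    have l1 : Real.log (1 / X ^ (δ - (j : ℝ))) = ((j : ℝ) - δ) * Real.log X := by
      rw [one_div, ← Real.rpow_neg hX0.le, Real.log_rpow hX0]
      ring
    have l2 : Real.log X ≤ X ^ δ / δ := Real.log_le_rpow_div hX0.le hδ
    have l3 : 1 ≤ X ^ δ := Real.one_le_rpow hX hδ.le
    have l4 : ((j : ℝ) - δ) * Real.log X ≤ ((j : ℝ) - δ) * (X ^ δ / δ) :=
      mul_le_mul_of_nonneg_left l2 (by linarith)
    rw [l1]
    calc 1 + ((j : ℝ) - δ) * Real.log X ≤ X ^ δ + ((j : ℝ) - δ) * (X ^ δ / δ) := by linarith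
      _ = (j : ℝ) / δ * X ^ δ := by field_simp; ring
  have hlog0 : 0 ≤ 1 + Real.log (1 / X ^ (δ - (j : ℝ))) := by
    have : 0 ≤ Real.log (1 / X ^ (δ - (j : ℝ))) :=
      Real.log_nonneg (by rw [le_div_iff₀ hΘ]; linarith)
    linarith
  have A1 : C0 * w * X ^ (-(k : ℝ) - (j : ℝ)) * ((X ^ (δ / 4)) ^ 2 / X ^ (δ - (j : ℝ))) =
      C0 * w * E := by
    have : X ^ (-(k : ℝ) - (j : ℝ)) * ((X ^ (δ / 4)) ^ 2 / X ^ (δ - (j : ℝ))) = E := by
      rw [← Real.rpow_natCast (X ^ (δ / 4)), ← Real.rpow_mul hX0.le, ← Real.rpow_sub hX0,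
        ← Real.rpow_add hX0, hE]
      congr 1
      push_cast
      ring
    rw [mul_assoc (C0 * w), this]
  have A2 : C0 * w * X ^ (-(k : ℝ) - (j : ℝ)) *
      (X ^ (δ / 4) * (m0 + m1) * (1 + Real.log (1 / X ^ (δ - (j : ℝ))))) ≤
      C0 * (2 * C0) * ((j : ℝ) / δ) * (w * E) := by
    have : C0 * w * X ^ (-(k : ℝ) - (j : ℝ)) *
        (X ^ (δ / 4) * (m0 + m1) * (1 + Real.log (1 / X ^ (δ - (j : ℝ))))) ≤
        C0 * w * X ^ (-(k : ℝ) - (j : ℝ)) *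
        (X ^ (δ / 4) * (C0 * X ^ ((j : ℝ) - 5 * δ) + C0 * X ^ ((j : ℝ) - 5 * δ)) *
          ((j : ℝ) / δ * X ^ δ)) := by
      gcongr
    refine this.trans ?_
    have e : X ^ (-(k : ℝ) - (j : ℝ)) * X ^ (δ / 4) * X ^ ((j : ℝ) - 5 * δ) * X ^ δ ≤ E := by
      rw [← Real.rpow_add hX0, ← Real.rpow_add hX0, ← Real.rpow_add hX0, hE]
      exact Real.rpow_le_rpow_of_exponent_le hX (by linarith)
    have q : 0 ≤ C0 * (2 * C0) * ((j : ℝ) / δ) * w := by positivity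
    calc _ = C0 * (2 * C0) * ((j : ℝ) / δ) * w *
          (X ^ (-(k : ℝ) - (j : ℝ)) * X ^ (δ / 4) * X ^ ((j : ℝ) - 5 * δ) * X ^ δ) := by ring
      _ ≤ C0 * (2 * C0) * ((j : ℝ) / δ) * w * E := mul_le_mul_of_nonneg_left e q
      _ = _ := by ring
  have A3 : C0 * w * X ^ (-(k : ℝ) - (j : ℝ)) * (m0 * m1) ≤ C0 * C0 * (w * E) := by
    have e : X ^ (-(k : ℝ) - (j : ℝ)) * X ^ ((j : ℝ) - 5 * δ) ≤ E := by
      rw [← Real.rpow_add hX0, hE]
      exact Real.rpow_le_rpow_of_exponent_le hX (by linarith)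
    calc C0 * w * X ^ (-(k : ℝ) - (j : ℝ)) * (m0 * m1) ≤
          C0 * w * X ^ (-(k : ℝ) - (j : ℝ)) * (C0 * X ^ ((j : ℝ) - 5 * δ)) := by gcongr
      _ = C0 * C0 * w * (X ^ (-(k : ℝ) - (j : ℝ)) * X ^ ((j : ℝ) - 5 * δ)) := by ring
      _ ≤ C0 * C0 * w * E := mul_le_mul_of_nonneg_left e (by positivity)
      _ = _ := by ring
  have A4 : w * Real.exp (-Real.pi * (X ^ (δ / 4)) ^ 2) ≤ K1 * (w * E) := by
    have : (X ^ (δ / 4)) ^ 2 = X ^ (δ / 2) := by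
      rw [← Real.rpow_natCast (X ^ (δ / 4)), ← Real.rpow_mul hX0.le]
      congr 1
      push_cast
      ring
    rw [this]
    calc w * Real.exp (-Real.pi * X ^ (δ / 2)) ≤ w * (K1 * X ^ (-(k : ℝ) - δ / 2)) :=
          mul_le_mul_of_nonneg_left (hexp X hX) hw0
      _ = _ := by rw [← hE]; ring
  calc _ = C0 * w * X ^ (-(k : ℝ) - (j : ℝ)) * ((X ^ (δ / 4)) ^ 2 / X ^ (δ - (j : ℝ))) +
        C0 * w * X ^ (-(k : ℝ) - (j : ℝ)) *
          (X ^ (δ / 4) * (m0 + m1) * (1 + Real.log (1 / X ^ (δ - (j : ℝ))))) +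
        C0 * w * X ^ (-(k : ℝ) - (j : ℝ)) * (m0 * m1) +
        w * Real.exp (-Real.pi * (X ^ (δ / 4)) ^ 2) := by ring
    _ ≤ C0 * w * E + C0 * (2 * C0) * ((j : ℝ) / δ) * (w * E) + C0 * C0 * (w * E)
        + K1 * (w * E) := by
          rw [A1]
          gcongr
    _ = _ := by ring

theorem AeD_T {k j : ℕ} {δ : ℝ} {ι : Type} {W : ℕ → Finset ι} {a b : ι → ℝ}
    (h : MData k j δ W a b) {T : ℝ} (hT : 1 ≤ T) :
    ∀ᵐ t ∂(volume.restrict (Set.Ioc (-T) T)), ∀ᶠ r in atTop,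
      Dfun (W r) a b (XX r ^ (δ - (j : ℝ))) t ≤
        ((W r).card : ℝ) ^ 2 * XX r ^ (-(k : ℝ) - δ / 4) := by
  obtain ⟨K, hK0, hK⟩ := AeD_core h hT
  have hδ := h.hδ
  obtain ⟨r0, hr0⟩ := eventually_atTop.mp (hK.and h.ne)
  set μ : Measure ℝ := volume.restrict (Set.Ioc (-T) T) with hμ
  set s : ℕ → Set ℝ := fun i => {t : ℝ | ((W (i + r0)).card : ℝ) ^ 2 *
    XX (i + r0) ^ (-(k : ℝ) - δ / 4) ≤ Dfun (W (i + r0)) a b (XX (i + r0) ^ (δ - (j : ℝ))) t}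
    with hs
  set q : ℝ := (2 : ℝ) ^ (-(δ / 4)) with hq
  have hq0 : 0 < q := Real.rpow_pos_of_pos (by norm_num) _
  have hq1 : q < 1 := Real.rpow_lt_one_of_one_lt_of_neg (by norm_num) (by linarith)
  have hms : ∀ i, μ (s i) ≤ ENNReal.ofReal (K * q ^ (i + r0)) := by
    intro i
    obtain ⟨hint, hne⟩ := hr0 (i + r0) (by omega)
    have hX : 1 ≤ XX (i + r0) := AeD_one_le _
    have hX0 : 0 < XX (i + r0) := by linarith
    have hΘ : 0 < XX (i + r0) ^ (δ - (j : ℝ)) := Real.rpow_pos_of_pos hX0 _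
    have hw : 0 < ((W (i + r0)).card : ℝ) ^ 2 := by
      have : 0 < (W (i + r0)).card := Finset.card_pos.mpr hne
      positivity
    have hTT : -T ≤ T := by linarith
    rw [intervalIntegral.integral_of_le hTT] at hint
    have hcont := Dfun_cont (W (i + r0)) a b hΘ
    have hii : Integrable (Dfun (W (i + r0)) a b (XX (i + r0) ^ (δ - (j : ℝ)))) μ := by
      have := (hcont.intervalIntegrable (μ := volume) (-T) T)
      rw [intervalIntegrable_iff_integrableOn_Ioc_of_le hTT] at this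
      exact this
    have mk := mul_meas_ge_le_integral_of_nonneg (μ := μ)
      (Eventually.of_forall fun t => Dfun_nonneg (W (i + r0)) a b hΘ t) hii
      (((W (i + r0)).card : ℝ) ^ 2 * XX (i + r0) ^ (-(k : ℝ) - δ / 4))
    have hB : 0 < ((W (i + r0)).card : ℝ) ^ 2 * XX (i + r0) ^ (-(k : ℝ) - δ / 4) :=
      mul_pos hw (Real.rpow_pos_of_pos hX0 _)
    have e1 : XX (i + r0) ^ (-(k : ℝ) - δ / 2) =
        XX (i + r0) ^ (-(k : ℝ) - δ / 4) * q ^ (i + r0) := by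
      have : q ^ (i + r0) = XX (i + r0) ^ (-(δ / 4)) := by
        rw [hq, XX, ← Real.rpow_natCast, ← Real.rpow_natCast, ← Real.rpow_mul (by norm_num),
          ← Real.rpow_mul (by norm_num)]
        congr 1
        ring
      rw [this, ← Real.rpow_add hX0]
      congr 1
      ring
    have e2 : μ.real (s i) ≤ K * q ^ (i + r0) := by
      have := mk.trans hint
      rw [e1] at this
      have h3 : ((W (i + r0)).card : ℝ) ^ 2 * XX (i + r0) ^ (-(k : ℝ) - δ / 4) * μ.real (s i) ≤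
          ((W (i + r0)).card : ℝ) ^ 2 * XX (i + r0) ^ (-(k : ℝ) - δ / 4) *
            (K * q ^ (i + r0)) := by
        refine this.trans (le_of_eq ?_)
        ring
      exact le_of_mul_le_mul_left h3 hB
    have hfin : μ (s i) ≠ ⊤ := by
      have : μ Set.univ < ⊤ := by
        rw [hμ, Measure.restrict_apply_univ]
        exact measure_Ioc_lt_top
      exact ((measure_mono (Set.subset_univ _)).trans_lt this).ne
    rw [← ENNReal.ofReal_toReal hfin]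
    exact ENNReal.ofReal_le_ofReal e2
  have hsum : (∑' i, μ (s i)) ≠ ⊤ := by
    have hsm : Summable (fun i : ℕ => K * q ^ (i + r0)) := by
      apply Summable.mul_left
      exact (summable_nat_add_iff r0).mpr (summable_geometric_of_lt_one hq0.le hq1)
    have := hsm.tsum_ofReal_ne_top
    exact ne_top_of_le_ne_top this (ENNReal.tsum_le_tsum hms)
  filter_upwards [ae_eventually_notMem hsum] with t ht
  obtain ⟨i0, hi0⟩ := eventually_atTop.mp ht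
  refine eventually_atTop.mpr ⟨i0 + r0, fun r hr => ?_⟩
  have := hi0 (r - r0) (by omega)
  rw [hs] at this
  simp only [Set.mem_ofPred_eq, not_le] at this
  have e : r - r0 + r0 = r := by omega
  rw [e] at this
  exact this.le

theorem ae_D {k j : ℕ} {δ : ℝ} {ι : Type} {W : ℕ → Finset ι} {a b : ι → ℝ} (hk : j ≤ k)
    (h : MData k j δ W a b) :
    ∀ᵐ t : ℝ, ∀ᶠ r in atTop, Dfun (W r) a b (XX r ^ (δ - (j : ℝ))) t ≤
      ((W r).card : ℝ) ^ 2 * XX r ^ (-(k : ℝ) - δ / 4) := by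
  have hall : ∀ n : ℕ, ∀ᵐ t : ℝ, t ∈ Set.Ioc (-((n : ℝ) + 1)) ((n : ℝ) + 1) →
      ∀ᶠ r in atTop, Dfun (W r) a b (XX r ^ (δ - (j : ℝ))) t ≤
        ((W r).card : ℝ) ^ 2 * XX r ^ (-(k : ℝ) - δ / 4) := by
    intro n
    have hT : (1 : ℝ) ≤ (n : ℝ) + 1 := by
      have : (0 : ℝ) ≤ n := n.cast_nonneg
      linarith
    exact (ae_restrict_iff' measurableSet_Ioc).mp (AeD_T h hT)
  filter_upwards [ae_all_iff.mpr hall] with t ht
  obtain ⟨n, hn⟩ := exists_nat_ge |t|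
  apply ht n
  have := abs_le.mp hn
  constructor <;> linarith [this.1, this.2]

end MWg
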