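import Mathlib

/-!
# Metric Waring problem (folder MWg): definitions

`ee x = exp (2 pi i x)`; `X r = 2 ^ r`; the diminishing scales `nxt`; the chains `chain`.
-/

namespace MWg

open Filter Topology

/-- `e(x) = exp (2 π i x)`. -/
noncomputable def ee (x : ℝ) : ℂ := Complex.exp (2 * Real.pi * x * Complex.I)

/-- The weight `min (H |θ|, 1, |θ|⁻³)` (it is `0` at `θ = 0`). -/
noncomputable def wt (H θ : ℝ) : ℝ := min (min (H * |θ|) 1) ((|θ| ^ 3)⁻¹)

/-- The main scale `X_r = 2 ^ r`. -/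
noncomputable def XX (r : ℕ) : ℝ := (2 : ℝ) ^ r

/-- Number of pairs `(w,w') ∈ W²` with a given property of the pair. -/
noncomputable def pairs {ι : Type*} (W : Finset ι) (p : ι × ι → Prop) : ℝ :=
  open Classical in (((W ×ˢ W).filter p).card : ℝ)

/-- The next scale: `(nxt n P) ^ n = n 16 ^ n P ^ (n - 1)`. -/
noncomputable def nxt (n : ℕ) (P : ℝ) : ℝ := ((n : ℝ) * 16 ^ n * P ^ (n - 1)) ^ ((1 : ℝ) / n)

/-- Main letters at scale `P`: the natural numbers `u` with `P < u ≤ 16 P`. -/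
noncomputable def mainI (P : ℝ) : Finset ℕ := Finset.Ioc ⌊P⌋₊ ⌊16 * P⌋₊

/-- Chains with `q` letters `(u, v)`: the first letter has `u ∈ (P, 16 P]`, `v ∈ J P`, and the
remaining `q - 1` letters form a chain at the next scale. -/
noncomputable def chain (n : ℕ) (J : ℝ → Finset ℕ) : ℕ → ℝ → Finset (List (ℕ × ℕ))
  | 0, _ => {[]}
  | (q + 1), P => ((mainI P ×ˢ J P) ×ˢ chain n J q (nxt n P)).image (fun p => p.1 :: p.2)

/-- The value of a chain: `∑ (f u + h v)`. -/
def val (f h : ℕ → ℝ) (w : List (ℕ × ℕ)) : ℝ := (w.map fun p => f p.1 + h p.2).sum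

/-- `f` behaves like the `n`-th power: `(f (x+1) - f x) / x ^ (n-1) → n`. -/
def Good (n : ℕ) (f : ℕ → ℝ) : Prop :=
  Tendsto (fun x : ℕ => (f (x + 1) - f x) / (x : ℝ) ^ (n - 1)) atTop (𝓝 (n : ℝ))

/-- The side letters are harmless: for all large `P`, `J P` is nonempty and its values are at most
`P ^ n / 4` in absolute value. -/
def Side (n : ℕ) (h : ℕ → ℝ) (J : ℝ → Finset ℕ) : Prop :=
  ∃ P0 : ℝ, ∀ P, P0 ≤ P → (J P).Nonempty ∧ ∀ v ∈ J P, |h v| ≤ P ^ n / 4

/-- Trivial side letters. -/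
def J0 : ℝ → Finset ℕ := fun _ => {0}

/-- Side letters `v` with `P / 8 < v ≤ P / 4`. -/
noncomputable def J1 : ℝ → Finset ℕ := fun P => Finset.Ioc ⌊P / 8⌋₊ ⌊P / 4⌋₊

/-- The number of chains with a property. -/
noncomputable def cnt (n : ℕ) (J : ℝ → Finset ℕ) (q : ℕ) (P : ℝ) (p : List (ℕ × ℕ) → Prop) : ℝ :=
  open Classical in (((chain n J q P).filter p).card : ℝ)

/-- The number of all chains. -/
noncomputable def tot (n : ℕ) (J : ℝ → Finset ℕ) (q : ℕ) (P : ℝ) : ℝ := ((chain n J q P).card : ℝ)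

end MWg
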