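import Pool.Agent.MWg.LemA
import Pool.Agent.MWg.Pair

/-!
# MWg.LemAB: chains of pairs with two conditions

`k > j ≥ 1`, side letters `J1`; `A(w) = val f f w = ∑ (f u + f v)`,
`B(w) = val (x^j) (x^j) w = ∑ (u^j + v^j)`.

PROOF by induction on `q`. `θ = ((nxt k)^[q] P)^k`, `T_q(P) = tot k J1 q P`.

`q = 0`: `P^k ≤ M ≤ P^j` is impossible for `P ≥ 2` (`j < k`).

Step `q → q+1`: `P2 = nxt k P`, `P2^k = k 16^k P^(k-1)`, `(nxt k)^[q+1] P = (nxt k)^[q] P2`, so the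
threshold `θ ≤ M` is the same. Facts for large `P`: `|A(w')| ≤ C_v P2^k`, `|B(w')| ≤ C_v P2^j` for
`w' ∈ chain k J1 q P2` (`val_bound` with `side_J1`, `pow_val_bound`); `P2^j ≥ P^(j-1)` (since
`(P2^j)^k = (P2^k)^j ≥ P^((k-1)j) ≥ (P^(j-1))^k`, as `(k-1) j ≥ (j-1) k`, `P ≥ 1`);
`M ≤ P^j ≤ P^(k-1)`; `T_{q+1}(P) = #(mainI P) #(J1 P) T_q(P2) ≥ (14/16) P^2 T_q(P2)`.
By `cnt_succ` the count is `∑_u ∑_v #{w' : |A(w') - α'| ≤ M, |B(w') - β'| ≤ M}`,
`α' = α - f u - f v`, `β' = β - u^j - v^j`; the inner count is nonzero only if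
`|f u + f v - α| ≤ M + C_v P2^k` and `|u^j + v^j - β| ≤ M + C_v P2^j`.

Case A: `M ≥ P2^j`. The pairs `(u,v)` with nonzero inner count satisfy the hypotheses of `lemPair` with
`L1 = M + C_v P2^k ≤ C P^(k-1)`, `L2 = M + C_v P2^j ≤ C M`; there are at most
`C (1 + C)(1 + C + C M/P^(j-1)) ≤ C M/P^(j-1)` of them (`M ≥ P2^j ≥ P^(j-1)`). For each of them the
inner count is at most `#{w' : |A(w') - α'| ≤ M} ≤ C T_q(P2) M/P2^k` by `lemA` (threshold `θ ≤ M`).
Total `≤ C (M/P^(j-1)) T_q(P2) M/P^(k-1) = C T_q(P2) M²/P^(k+j-2) ≤ C T_{q+1}(P) M²/P^(k+j)`.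

Case B: `M < P2^j`. Now `L1 = M + C_v P2^k ≤ C P^(k-1)` and `L2 = M + C_v P2^j ≤ C P2^j`, so there are
at most `C (1 + P2^j/P^(j-1)) ≤ C P2^j/P^(j-1)` pairs with nonzero inner count, and by the induction
hypothesis (at `P2`, `θ ≤ M ≤ P2^j`) each inner count is at most `C T_q(P2) M²/P2^(k+j)`. Total
`≤ C T_q(P2) M² /(P^(j-1) P2^k) ≤ C T_q(P2) M²/(P^(j-1) P^(k-1)) ≤ C T_{q+1}(P) M²/P^(k+j)`.
-/

namespace MWg

open Filter Topology

theorem cnt_false (n : ℕ) (J : ℝ → Finset ℕ) (q : ℕ) (P : ℝ) :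
    cnt n J q P (fun _ => False) = 0 := by
  simp [cnt]

theorem lemAB_pow_ge {k j : ℕ} (hj : 1 ≤ j) (hjk : j < k) {P : ℝ} (hP : 1 ≤ P) :
    P ^ (j - 1) ≤ (nxt k P) ^ j := by
  have hk1 : 1 ≤ k := by omega
  have hP0 : (0 : ℝ) ≤ P := by linarith
  have hn0 : 0 ≤ nxt k P := nxt_nonneg hP0
  have h1 : P ^ (k - 1) ≤ nxt k P ^ k := by
    rw [nxt_pow hk1 hP0]
    have : (1 : ℝ) ≤ (k : ℝ) * 16 ^ k := by
      have h2 : (1 : ℝ) ≤ (k : ℝ) := by exact_mod_cast hk1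
      have h3 : (1 : ℝ) ≤ 16 ^ k := one_le_pow₀ (by norm_num)
      nlinarith
    have h4 : 0 ≤ P ^ (k - 1) := by positivity
    nlinarith
  have h2 : (P ^ (j - 1)) ^ k ≤ ((nxt k P) ^ j) ^ k := by
    calc (P ^ (j - 1)) ^ k = P ^ ((j - 1) * k) := by rw [← pow_mul]
      _ ≤ P ^ ((k - 1) * j) := by
          apply pow_le_pow_right₀ hP
          obtain ⟨a, rfl⟩ : ∃ a, j = a + 1 := ⟨j - 1, by omega⟩
          obtain ⟨b, rfl⟩ : ∃ b, k = b + 1 := ⟨k - 1, by omega⟩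
          simp only [Nat.add_sub_cancel]
          nlinarith
      _ = (P ^ (k - 1)) ^ j := by rw [← pow_mul]
      _ ≤ (nxt k P ^ k) ^ j := pow_le_pow_left₀ (by positivity) h1 j
      _ = ((nxt k P) ^ j) ^ k := by rw [← pow_mul, ← pow_mul, Nat.mul_comm]
  exact (pow_le_pow_iff_left₀ (by positivity) (by positivity) (by omega)).1 h2

/-- Sum of the inner counts: bounded by the number of good pairs times a uniform bound. -/
theorem lemAB_sum {k j : ℕ} {f : ℕ → ℝ} {q : ℕ} {P α β M Cv Cw B N : ℝ}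
    (hv : ∀ w ∈ chain k J1 q (nxt k P), |val f f w| ≤ Cv * (nxt k P) ^ k)
    (hw : ∀ w ∈ chain k J1 q (nxt k P),
      |val (fun x => (x : ℝ) ^ j) (fun x => (x : ℝ) ^ j) w| ≤ Cw * (nxt k P) ^ j)
    (hB0 : 0 ≤ B)
    (hB : ∀ α' β' : ℝ, cnt k J1 q (nxt k P) (fun w => |val f f w - α'| ≤ M ∧
        |val (fun x => (x : ℝ) ^ j) (fun x => (x : ℝ) ^ j) w - β'| ≤ M) ≤ B)
    (hN : ((open Classical in ((mainI P ×ˢ J1 P).filter fun p =>
        |f p.1 + f p.2 - α| ≤ M + Cv * (nxt k P) ^ k ∧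
          |(p.1 : ℝ) ^ j + (p.2 : ℝ) ^ j - β| ≤ M + Cw * (nxt k P) ^ j).card : ℕ) : ℝ) ≤ N) :
    cnt k J1 (q + 1) P (fun w => |val f f w - α| ≤ M ∧
        |val (fun x => (x : ℝ) ^ j) (fun x => (x : ℝ) ^ j) w - β| ≤ M) ≤ N * B := by
  classical
  rw [cnt_succ, ← Finset.sum_product']
  have hstep : ∀ p ∈ mainI P ×ˢ J1 P,
      cnt k J1 q (nxt k P) (fun w => |val f f ((p.1, p.2) :: w) - α| ≤ M ∧
        |val (fun x => (x : ℝ) ^ j) (fun x => (x : ℝ) ^ j) ((p.1, p.2) :: w) - β| ≤ M) ≤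
      if (|f p.1 + f p.2 - α| ≤ M + Cv * (nxt k P) ^ k ∧
          |(p.1 : ℝ) ^ j + (p.2 : ℝ) ^ j - β| ≤ M + Cw * (nxt k P) ^ j) then B else 0 := by
    intro p _
    split_ifs with hc
    · refine le_trans (cnt_mono ?_) (hB (α - f p.1 - f p.2) (β - (p.1 : ℝ) ^ j - (p.2 : ℝ) ^ j))
      intro w _ h
      rw [val_cons, val_cons] at h
      refine ⟨?_, ?_⟩
      · have e : val f f w - (α - f p.1 - f p.2) = f p.1 + f p.2 + val f f w - α := by ring
        rw [e]; exact h.1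
      · have e : val (fun x => (x : ℝ) ^ j) (fun x => (x : ℝ) ^ j) w -
            (β - (p.1 : ℝ) ^ j - (p.2 : ℝ) ^ j) = (p.1 : ℝ) ^ j + (p.2 : ℝ) ^ j +
            val (fun x => (x : ℝ) ^ j) (fun x => (x : ℝ) ^ j) w - β := by ring
        rw [e]; exact h.2
    · rw [← cnt_false k J1 q (nxt k P)]
      refine cnt_mono ?_
      intro w hwm h
      rw [val_cons, val_cons] at h
      apply hc
      have h1 := hv w hwm
      have h2 := hw w hwm
      have h3 := h.1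
      have h4 := h.2
      rw [abs_le] at h1 h2 h3 h4
      constructor
      · rw [abs_le]; constructor <;> linarith [h1.1, h1.2, h3.1, h3.2]
      · rw [abs_le]; constructor <;> linarith [h2.1, h2.2, h4.1, h4.2]
  refine le_trans (Finset.sum_le_sum hstep) ?_
  rw [← Finset.sum_filter, Finset.sum_const, nsmul_eq_mul]
  refine mul_le_mul_of_nonneg_right (le_trans (le_of_eq ?_) hN) hB0
  congr!

theorem lemAB {k j : ℕ} (hj : 1 ≤ j) (hjk : j < k) {f : ℕ → ℝ} (hf : Good k f) (q : ℕ) :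
    ∃ C : ℝ, 0 < C ∧ ∃ P0 : ℝ, 1 ≤ P0 ∧ ∀ P, P0 ≤ P → ∀ α β M : ℝ,
      ((nxt k)^[q] P) ^ k ≤ M → M ≤ P ^ j →
      cnt k J1 q P (fun w => |val f f w - α| ≤ M ∧
        |val (fun x => (x : ℝ) ^ j) (fun x => (x : ℝ) ^ j) w - β| ≤ M) ≤
        C * tot k J1 q P * M ^ 2 / P ^ (k + j) := by
  have hk2 : 2 ≤ k := by omega
  have hk1 : 1 ≤ k := by omega
  induction q with
  | zero =>
    refine ⟨1, one_pos, 2, by norm_num, ?_⟩
    intro P hP α β M h1 h2
    exfalso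
    simp only [Function.iterate_zero, id] at h1
    have : P ^ j < P ^ k := pow_lt_pow_right₀ (by linarith) hjk
    linarith
  | succ q ih =>
    obtain ⟨C1, hC1, P1, hP1, ihq⟩ := ih
    obtain ⟨CA, hCA, PA, hPA, hA⟩ := lemA hk2 hf (side_J1 hk2 hf) q
    obtain ⟨Cp, hCp, Pp, hPp, hp⟩ := lemPair hj hjk hf
    obtain ⟨Cv, hCv, Pv, hPv, hv⟩ := val_bound hk2 hf (side_J1 hk2 hf) q
    obtain ⟨Cw, hCw, Pw, hPw, hw⟩ := pow_val_bound hk2 j q
    obtain ⟨Pn, hPn⟩ := (Filter.eventually_atTop.mp (Filter.tendsto_atTop.mp (nxt_tendsto hk2)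
      (max (max P1 PA) (max Pv Pw))))
    set a : ℝ := 1 + Cv * ((k : ℝ) * 16 ^ k) with ha
    have ha0 : 0 < a := by positivity
    set K : ℝ := Cp * (1 + a) * (2 + a + Cw) with hK
    have hK0 : 0 < K := by positivity
    refine ⟨2 * K * (CA + C1), by positivity, max (max Pn Pp) 16,
      le_trans (by norm_num) (le_max_right _ _), ?_⟩
    intro P hP α β M h1 h2
    have hPPn : Pn ≤ P := le_trans (le_trans (le_max_left _ _) (le_max_left _ _)) hP
    have hPPp : Pp ≤ P := le_trans (le_trans (le_max_right _ _) (le_max_left _ _)) hP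
    have hP16 : 16 ≤ P := le_trans (le_max_right _ _) hP
    have hPone : 1 ≤ P := by linarith
    have hPpos : 0 < P := by linarith
    rw [Function.iterate_succ_apply] at h1
    set P2 : ℝ := nxt k P with hP2
    have hb := hPn P hPPn
    have hP2P1 : P1 ≤ P2 := le_trans (le_trans (le_max_left _ _) (le_max_left _ _)) hb
    have hP2PA : PA ≤ P2 := le_trans (le_trans (le_max_right _ _) (le_max_left _ _)) hb
    have hP2Pv : Pv ≤ P2 := le_trans (le_trans (le_max_left _ _) (le_max_right _ _)) hb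
    have hP2Pw : Pw ≤ P2 := le_trans (le_trans (le_max_right _ _) (le_max_right _ _)) hb
    have hP2one : 1 ≤ P2 := le_trans hP1 hP2P1
    have hP2pos : 0 < P2 := by linarith
    have hP2k : P2 ^ k = (k : ℝ) * 16 ^ k * P ^ (k - 1) := nxt_pow hk1 hPpos.le
    have hP2kge : P ^ (k - 1) ≤ P2 ^ k := by
      rw [hP2k]
      have : (1 : ℝ) ≤ (k : ℝ) * 16 ^ k := by
        have h2 : (1 : ℝ) ≤ (k : ℝ) := by exact_mod_cast hk1
        have h3 : (1 : ℝ) ≤ 16 ^ k := one_le_pow₀ (by norm_num)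
        nlinarith
      have h4 : 0 ≤ P ^ (k - 1) := by positivity
      nlinarith
    have hP2j : P ^ (j - 1) ≤ P2 ^ j := lemAB_pow_ge hj hjk hPone
    have hM0 : 0 < M := by
      have h3 : 1 ≤ (nxt k)^[q] P2 := nxt_iter_ge_one hk1 q hP2one
      have h4 : 0 < ((nxt k)^[q] P2) ^ k := by positivity
      linarith
    have hMk : M ≤ P ^ (k - 1) := le_trans h2 (pow_le_pow_right₀ hPone (by omega))
    have hPk0 : 0 < P ^ (k - 1) := by positivity
    have hPj0 : 0 < P ^ (j - 1) := by positivity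
    have hT2 : 0 ≤ tot k J1 q P2 := tot_nonneg _ _ _ _
    -- the size of the pair count
    have hL1 : (M + Cv * P2 ^ k) / P ^ (k - 1) ≤ a := by
      rw [div_le_iff₀ hPk0, hP2k, ha]
      nlinarith
    have hL1' : 0 ≤ M + Cv * P2 ^ k := by positivity
    have hL2' : 0 ≤ M + Cw * P2 ^ j := by positivity
    have hcard := hp P hPPp α β (M + Cv * P2 ^ k) (M + Cw * P2 ^ j) hL1' hL2'
    -- a common reduction
    have key : ∀ Y : ℝ, P ^ (j - 1) ≤ Y → M + Cw * P2 ^ j ≤ (1 + Cw) * Y →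
        Cp * (1 + (M + Cv * P2 ^ k) / P ^ (k - 1)) *
          (1 + (M + Cv * P2 ^ k) / P ^ (k - 1) + (M + Cw * P2 ^ j) / P ^ (j - 1)) ≤
          K * (Y / P ^ (j - 1)) := by
      intro Y hY1 hY2
      have hy1 : 1 ≤ Y / P ^ (j - 1) := by rw [le_div_iff₀ hPj0]; linarith
      have hy2 : (M + Cw * P2 ^ j) / P ^ (j - 1) ≤ (1 + Cw) * (Y / P ^ (j - 1)) := by
        rw [← mul_div_assoc]
        exact div_le_div_of_nonneg_right hY2 hPj0.le
      have hz : 0 ≤ (M + Cv * P2 ^ k) / P ^ (k - 1) := by positivity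
      have hz2 : 0 ≤ (M + Cw * P2 ^ j) / P ^ (j - 1) := by positivity
      calc Cp * (1 + (M + Cv * P2 ^ k) / P ^ (k - 1)) *
          (1 + (M + Cv * P2 ^ k) / P ^ (k - 1) + (M + Cw * P2 ^ j) / P ^ (j - 1))
          ≤ Cp * (1 + a) * (1 + a + (1 + Cw) * (Y / P ^ (j - 1))) := by
            gcongr
        _ ≤ Cp * (1 + a) * ((1 + a) * (Y / P ^ (j - 1)) + (1 + Cw) * (Y / P ^ (j - 1))) := by
            gcongr
            nlinarith
        _ = K * (Y / P ^ (j - 1)) := by rw [hK]; ring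
    have htot : P ^ 2 * tot k J1 q P2 ≤ 2 * tot k J1 (q + 1) P := by
      rw [tot_succ]
      have e1 := card_mainI_ge hPone
      have e2 := card_J1_ge hP16
      have e3 : P ^ 2 ≤ 2 * (((mainI P).card : ℝ) * ((J1 P).card : ℝ)) := by
        have e4 : (14 * P) * (P / 16) ≤ ((mainI P).card : ℝ) * ((J1 P).card : ℝ) :=
          mul_le_mul e1 e2 (by positivity) (by positivity)
        nlinarith
      calc P ^ 2 * tot k J1 q P2 ≤ 2 * (((mainI P).card : ℝ) * ((J1 P).card : ℝ)) *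
            tot k J1 q P2 := mul_le_mul_of_nonneg_right e3 hT2
        _ = _ := by ring
    have hfin : ∀ C' : ℝ, 0 ≤ C' → K * C' * (tot k J1 q P2 * M ^ 2 / (P ^ (j - 1) * P ^ (k - 1))) ≤
        2 * K * C' * tot k J1 (q + 1) P * M ^ 2 / P ^ (k + j) := by
      intro C' hC'
      have e5 : P ^ (k + j) = P ^ 2 * (P ^ (j - 1) * P ^ (k - 1)) := by
        rw [← pow_add, ← pow_add]; congr 1; omega
      have e6 : tot k J1 q P2 * M ^ 2 / (P ^ (j - 1) * P ^ (k - 1)) =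
          (P ^ 2 * tot k J1 q P2) * (M ^ 2 / P ^ (k + j)) := by
        rw [e5]; field_simp
      rw [e6]
      have e7 : 0 ≤ M ^ 2 / P ^ (k + j) := by positivity
      calc K * C' * ((P ^ 2 * tot k J1 q P2) * (M ^ 2 / P ^ (k + j)))
          ≤ K * C' * ((2 * tot k J1 (q + 1) P) * (M ^ 2 / P ^ (k + j))) := by
            gcongr
        _ = _ := by ring
    rcases le_or_gt (P2 ^ j) M with hc | hc
    · -- case A
      have hB : ∀ α' β' : ℝ, cnt k J1 q (nxt k P) (fun w => |val f f w - α'| ≤ M ∧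
          |val (fun x => (x : ℝ) ^ j) (fun x => (x : ℝ) ^ j) w - β'| ≤ M) ≤
          CA * tot k J1 q P2 * M / P2 ^ k := by
        intro α' β'
        exact le_trans (cnt_mono (fun w _ h => h.1)) (hA P2 hP2PA α' M h1)
      have hN := le_trans hcard (key M (le_trans hP2j hc) (by nlinarith))
      refine le_trans (lemAB_sum (Cv := Cv) (Cw := Cw) (hv P2 hP2Pv) (hw P2 hP2Pw)
        (by positivity) hB hN) ?_
      calc K * (M / P ^ (j - 1)) * (CA * tot k J1 q P2 * M / P2 ^ k)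
          ≤ K * (M / P ^ (j - 1)) * (CA * tot k J1 q P2 * M / P ^ (k - 1)) := by
            gcongr
        _ = K * CA * (tot k J1 q P2 * M ^ 2 / (P ^ (j - 1) * P ^ (k - 1))) := by
            field_simp
        _ ≤ 2 * K * CA * tot k J1 (q + 1) P * M ^ 2 / P ^ (k + j) := hfin CA hCA.le
        _ ≤ 2 * K * (CA + C1) * tot k J1 (q + 1) P * M ^ 2 / P ^ (k + j) := by
            have : 0 ≤ tot k J1 (q + 1) P := tot_nonneg _ _ _ _
            gcongr
            linarith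
    · -- case B
      have hB : ∀ α' β' : ℝ, cnt k J1 q (nxt k P) (fun w => |val f f w - α'| ≤ M ∧
          |val (fun x => (x : ℝ) ^ j) (fun x => (x : ℝ) ^ j) w - β'| ≤ M) ≤
          C1 * tot k J1 q P2 * M ^ 2 / P2 ^ (k + j) := by
        intro α' β'
        exact ihq P2 hP2P1 α' β' M h1 hc.le
      have hN := le_trans hcard (key (P2 ^ j) hP2j (by nlinarith))
      refine le_trans (lemAB_sum (Cv := Cv) (Cw := Cw) (hv P2 hP2Pv) (hw P2 hP2Pw)
        (by positivity) hB hN) ?_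
      calc K * (P2 ^ j / P ^ (j - 1)) * (C1 * tot k J1 q P2 * M ^ 2 / P2 ^ (k + j))
          = K * C1 * tot k J1 q P2 * M ^ 2 / (P ^ (j - 1) * P2 ^ k) := by
            rw [pow_add]; field_simp
        _ ≤ K * C1 * tot k J1 q P2 * M ^ 2 / (P ^ (j - 1) * P ^ (k - 1)) := by
            gcongr
        _ = K * C1 * (tot k J1 q P2 * M ^ 2 / (P ^ (j - 1) * P ^ (k - 1))) := by
            ring
        _ ≤ 2 * K * C1 * tot k J1 (q + 1) P * M ^ 2 / P ^ (k + j) := hfin C1 hC1.le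
        _ ≤ 2 * K * (CA + C1) * tot k J1 (q + 1) P * M ^ 2 / P ^ (k + j) := by
            have : 0 ≤ tot k J1 (q + 1) P := tot_nonneg _ _ _ _
            gcongr
            linarith

end MWg
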