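import Pool.Agent.MWg.Gauss

/-!
# MWg.MeanSq: the mean square over `t` of the tail `Dfun`

`Dfun W a b Θ0 t = ∫_{θ > Θ0} min (1, θ⁻³) ‖∑_w ee (θ (a w + t b w))‖² dθ`.

PROOFS. `Dfun_nonneg`: the integrand is nonnegative. `Dfun_cont`: dominated convergence
(`MeasureTheory.continuous_of_dominated`), the integrand is continuous in `t` and bounded by
`|W|² min (1, θ⁻³)`, integrable on `(Θ0, ∞)` (`Θ0 > 0`).

`Dfun_int_le`: put `Θ_n = 2^n Θ0`. The set `(Θ0, ∞)` is the disjoint union of the intervals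
`(Θ_n, Θ_{n+1}]`, `n ≥ 0`, and `min (1, θ⁻³) ≤ w_n := min (1, Θ_n⁻³)` on the `n`-th one. By Tonelli
(everything is nonnegative; use `lintegral` or `hasSum_integral_iUnion`)
`∫_{-T}^T Dfun dt ≤ ∑_n w_n ∫_{-T}^T ∫_{Θ_n}^{2Θ_n} ‖F_t θ‖² dθ dt`, and `gauss_two` (with
`Θ = Θ_n`; `L/Θ_n ≤ L/Θ0`, so the hypothesis `hN` applies with `M = L/Θ_n`) bounds the `n`-th term by
`4 e^{2π} T w_n Θ_n (N0 (L/Θ_n + m0)(L/Θ_n + m1) + |W|² e^{-πL²})`
`= 4 e^{2π} T (N0 (w_n L²/Θ_n + w_n L (m0 + m1) + w_n Θ_n m0 m1) + w_n Θ_n |W|² e^{-πL²})`.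
Sum over `n`: `∑ w_n/Θ_n ≤ ∑ 1/Θ_n = 2/Θ0`;
`∑ w_n ≤ #{n : Θ_n ≤ 1} + ∑_{Θ_n > 1} Θ_n⁻³ ≤ (1 + log(1/Θ0)/log 2) + 8/7 ≤ 4 (1 + log (1/Θ0))`
(if `n1` is the least `n` with `Θ_n > 1` then `Θ_{n1+i} ≥ 2^i`);
`∑ w_n Θ_n ≤ ∑_{Θ_n ≤ 1} Θ_n + ∑_{Θ_n > 1} Θ_n⁻² ≤ 2 + 4/3 ≤ 4`. Altogether the bound
`16 e^{2π} T (N0 (L²/Θ0 + L (m0+m1)(1 + log (1/Θ0)) + m0 m1) + |W|² e^{-πL²})`.

(An equivalent way to organise it: `w_n Θ_n ≤ 1·...`; any route is fine.)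
-/

namespace MWg

open MeasureTheory

/-- `∫_{θ > Θ0} min (1, θ⁻³) ‖∑_w ee (θ (a w + t b w))‖² dθ`. -/
noncomputable def Dfun {ι : Type*} (W : Finset ι) (a b : ι → ℝ) (Θ0 t : ℝ) : ℝ :=
  ∫ θ in Set.Ioi Θ0, min 1 ((θ ^ 3)⁻¹) * ‖∑ w ∈ W, ee (θ * (a w + t * b w))‖ ^ 2

theorem meanSq_ee_norm (x : ℝ) : ‖ee x‖ = 1 := by
  unfold ee
  have : (2 * Real.pi * x * Complex.I : ℂ) = ((2 * Real.pi * x : ℝ) : ℂ) * Complex.I := by
    push_cast; ring
  rw [this, Complex.norm_exp_ofReal_mul_I]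

theorem meanSq_G_cont {ι : Type*} (W : Finset ι) (a b : ι → ℝ) :
    Continuous (fun p : ℝ × ℝ => ‖∑ w ∈ W, ee (p.2 * (a w + p.1 * b w))‖ ^ 2) := by
  unfold ee
  fun_prop

theorem meanSq_G_le {ι : Type*} (W : Finset ι) (a b : ι → ℝ) (t θ : ℝ) :
    ‖∑ w ∈ W, ee (θ * (a w + t * b w))‖ ^ 2 ≤ (W.card : ℝ) ^ 2 := by
  have h : ‖∑ w ∈ W, ee (θ * (a w + t * b w))‖ ≤ (W.card : ℝ) := by
    refine (norm_sum_le _ _).trans ?_
    simp [meanSq_ee_norm]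
  exact pow_le_pow_left₀ (norm_nonneg _) h 2

theorem meanSq_m_int {Θ0 : ℝ} (hΘ : 0 < Θ0) :
    IntegrableOn (fun θ : ℝ => min 1 ((θ ^ 3)⁻¹)) (Set.Ioi Θ0) := by
  have h1 : IntegrableOn (fun θ : ℝ => θ ^ (-3 : ℝ)) (Set.Ioi Θ0) :=
    integrableOn_Ioi_rpow_of_lt (by norm_num) hΘ
  refine Integrable.mono' h1 (by fun_prop) ?_
  refine (ae_restrict_iff' measurableSet_Ioi).2 (Filter.Eventually.of_forall fun θ hθ => ?_)
  have hθ0 : 0 < θ := hΘ.trans hθ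
  have h3 : θ ^ (-3 : ℝ) = (θ ^ 3)⁻¹ := by
    rw [Real.rpow_neg hθ0.le]
    congr 1
    exact_mod_cast Real.rpow_natCast θ 3
  rw [h3, Real.norm_of_nonneg (le_min zero_le_one (by positivity))]
  exact min_le_right _ _

theorem meanSq_mG_int {ι : Type*} (W : Finset ι) (a b : ι → ℝ) {Θ0 : ℝ} (hΘ : 0 < Θ0) (t : ℝ) :
    IntegrableOn (fun θ : ℝ => min 1 ((θ ^ 3)⁻¹) * ‖∑ w ∈ W, ee (θ * (a w + t * b w))‖ ^ 2)
      (Set.Ioi Θ0) := by
  have hc : Continuous (fun θ : ℝ => ‖∑ w ∈ W, ee (θ * (a w + t * b w))‖ ^ 2) := by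
    unfold ee; fun_prop
  refine Integrable.mono' ((meanSq_m_int hΘ).mul_const ((W.card : ℝ) ^ 2)) ?_ ?_
  · exact (Measurable.mul (by fun_prop) hc.measurable).aestronglyMeasurable
  · refine (ae_restrict_iff' measurableSet_Ioi).2 (Filter.Eventually.of_forall fun θ hθ => ?_)
    have hθ0 : 0 < θ := hΘ.trans hθ
    have hm : 0 ≤ min 1 ((θ ^ 3)⁻¹) := le_min zero_le_one (by positivity)
    rw [Real.norm_of_nonneg (mul_nonneg hm (by positivity))]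
    exact mul_le_mul_of_nonneg_left (meanSq_G_le W a b t θ) hm

theorem Dfun_nonneg {ι : Type*} (W : Finset ι) (a b : ι → ℝ) {Θ0 : ℝ} (hΘ : 0 < Θ0) (t : ℝ) :
    0 ≤ Dfun W a b Θ0 t := by
  unfold Dfun
  refine setIntegral_nonneg measurableSet_Ioi fun θ hθ => ?_
  have hθ0 : 0 < θ := hΘ.trans hθ
  exact mul_nonneg (le_min zero_le_one (by positivity)) (by positivity)

theorem Dfun_cont {ι : Type*} (W : Finset ι) (a b : ι → ℝ) {Θ0 : ℝ} (hΘ : 0 < Θ0) :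
    Continuous (Dfun W a b Θ0) := by
  unfold Dfun
  refine continuous_of_dominated (bound := fun θ => min 1 ((θ ^ 3)⁻¹) * (W.card : ℝ) ^ 2) ?_ ?_ ?_ ?_
  · intro t
    exact (meanSq_mG_int W a b hΘ t).aestronglyMeasurable
  · intro t
    refine (ae_restrict_iff' measurableSet_Ioi).2 (Filter.Eventually.of_forall fun θ hθ => ?_)
    have hθ0 : 0 < θ := hΘ.trans hθ
    have hm : 0 ≤ min 1 ((θ ^ 3)⁻¹) := le_min zero_le_one (by positivity)
    rw [Real.norm_of_nonneg (mul_nonneg hm (by positivity))]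
    exact mul_le_mul_of_nonneg_left (meanSq_G_le W a b t θ) hm
  · exact (meanSq_m_int hΘ).mul_const _
  · refine Filter.Eventually.of_forall fun θ => ?_
    unfold ee
    fun_prop

theorem meanSq_geom {r : ℝ} (hr : 0 ≤ r) (hr1 : r ≤ 1 / 2) (K : ℕ) :
    ∑ n ∈ Finset.range K, r ^ n ≤ 2 := by
  have h : ∀ K : ℕ, ∑ n ∈ Finset.range K, r ^ n ≤ ∑ n ∈ Finset.range K, (1 / 2 : ℝ) ^ n :=
    fun K => Finset.sum_le_sum fun n _ => pow_le_pow_left₀ hr hr1 n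
  have h2 : ∀ K : ℕ, ∑ n ∈ Finset.range K, (1 / 2 : ℝ) ^ n = 2 - 2 * (1 / 2) ^ K := by
    intro K
    induction K with
    | zero => simp
    | succ K ih => rw [Finset.sum_range_succ, ih, pow_succ]; ring
  have h3 := h K
  rw [h2] at h3
  have : (0:ℝ) ≤ (1/2) ^ K := by positivity
  linarith

theorem meanSq_S1 {x : ℝ} (hx : 0 < x) (K : ℕ) :
    ∑ n ∈ Finset.range K, min 1 (((2 ^ n * x) ^ 3)⁻¹) * (2 ^ n * x)⁻¹ ≤ 2 / x := by
  have h1 : ∀ n ∈ Finset.range K, min 1 (((2 ^ n * x) ^ 3)⁻¹) * (2 ^ n * x)⁻¹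
      ≤ (1 / 2 : ℝ) ^ n * x⁻¹ := by
    intro n _
    have h0 : (0:ℝ) ≤ (2 ^ n * x)⁻¹ := by positivity
    calc min 1 (((2 ^ n * x) ^ 3)⁻¹) * (2 ^ n * x)⁻¹ ≤ 1 * (2 ^ n * x)⁻¹ :=
          mul_le_mul_of_nonneg_right (min_le_left _ _) h0
      _ = (1 / 2 : ℝ) ^ n * x⁻¹ := by
          rw [one_mul, mul_inv, one_div, inv_pow]
  refine (Finset.sum_le_sum h1).trans ?_
  rw [← Finset.sum_mul, div_eq_mul_inv]
  exact mul_le_mul_of_nonneg_right (meanSq_geom (by norm_num) le_rfl K) (by positivity)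

theorem meanSq_S2a {x : ℝ} (hx : 1 ≤ x) (K : ℕ) :
    ∑ n ∈ Finset.range K, min 1 (((2 ^ n * x) ^ 3)⁻¹) ≤ 2 := by
  refine (Finset.sum_le_sum (g := fun n => (1 / 8 : ℝ) ^ n) fun n _ => ?_).trans
    (meanSq_geom (by norm_num) (by norm_num) K)
  refine (min_le_right _ _).trans ?_
  have h1 : (8:ℝ) ^ n ≤ (2 ^ n * x) ^ 3 := by
    have h2 : (2:ℝ) ^ n ≤ 2 ^ n * x := by
      have : (0:ℝ) < 2 ^ n := by positivity
      nlinarith
    calc (8:ℝ) ^ n = (2 ^ n) ^ 3 := by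
          rw [← pow_mul, mul_comm, pow_mul]; norm_num
      _ ≤ _ := pow_le_pow_left₀ (by positivity) h2 3
  rw [one_div, inv_pow]
  exact inv_anti₀ (by positivity) h1

theorem meanSq_S3a {x : ℝ} (hx : 1 ≤ x) (K : ℕ) :
    ∑ n ∈ Finset.range K, min 1 (((2 ^ n * x) ^ 3)⁻¹) * (2 ^ n * x) ≤ 2 := by
  refine (Finset.sum_le_sum (g := fun n => (1 / 4 : ℝ) ^ n) fun n _ => ?_).trans
    (meanSq_geom (by norm_num) (by norm_num) K)
  have hp : (0:ℝ) < 2 ^ n * x := by positivity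
  have h2 : (2:ℝ) ^ n ≤ 2 ^ n * x := by
    have : (0:ℝ) < 2 ^ n := by positivity
    nlinarith
  have h1 : (4:ℝ) ^ n ≤ (2 ^ n * x) ^ 2 := by
    calc (4:ℝ) ^ n = (2 ^ n) ^ 2 := by
          rw [← pow_mul, mul_comm, pow_mul]; norm_num
      _ ≤ _ := pow_le_pow_left₀ (by positivity) h2 2
  calc min 1 (((2 ^ n * x) ^ 3)⁻¹) * (2 ^ n * x) ≤ ((2 ^ n * x) ^ 3)⁻¹ * (2 ^ n * x) :=
        mul_le_mul_of_nonneg_right (min_le_right _ _) hp.le
    _ = ((2 ^ n * x) ^ 2)⁻¹ := by field_simp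
    _ ≤ (1 / 4 : ℝ) ^ n := by
        rw [one_div, inv_pow]
        exact inv_anti₀ (by positivity) h1

theorem meanSq_S2 (K : ℕ) : ∀ x : ℝ, 0 < x → x ≤ 1 →
    ∑ n ∈ Finset.range K, min 1 (((2 ^ n * x) ^ 3)⁻¹) ≤ 4 * (1 + Real.log (1 / x)) := by
  induction K with
  | zero =>
    intro x hx hx1
    have : 0 ≤ Real.log (1 / x) := Real.log_nonneg (by rw [le_div_iff₀ hx]; linarith)
    simp only [Finset.range_zero, Finset.sum_empty]
    linarith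
  | succ K ih =>
    intro x hx hx1
    have hlog : 0 ≤ Real.log (1 / x) := Real.log_nonneg (by rw [le_div_iff₀ hx]; linarith)
    rw [Finset.sum_range_succ']
    have hre : ∀ n : ℕ, (2:ℝ) ^ (n + 1) * x = 2 ^ n * (2 * x) := fun n => by ring
    simp only [hre]
    have hf : min 1 (((2 ^ 0 * x) ^ 3)⁻¹) ≤ 1 := min_le_left _ _
    rcases le_or_gt (2 * x) 1 with h | h
    · have h1 := ih (2 * x) (by positivity) h
      have h2 : Real.log (1 / (2 * x)) = Real.log (1 / x) - Real.log 2 := by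
        rw [← Real.log_div (by positivity) (by norm_num)]
        congr 1
        field_simp
      rw [h2] at h1
      have h3 := Real.log_two_gt_d9
      linarith
    · have h1 := meanSq_S2a h.le K
      linarith

theorem meanSq_S3 (K : ℕ) : ∀ x : ℝ, 0 < x → x ≤ 1 →
    ∑ n ∈ Finset.range K, min 1 (((2 ^ n * x) ^ 3)⁻¹) * (2 ^ n * x) ≤ 4 - x := by
  induction K with
  | zero =>
    intro x hx hx1
    simp only [Finset.range_zero, Finset.sum_empty]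
    linarith
  | succ K ih =>
    intro x hx hx1
    rw [Finset.sum_range_succ']
    have hre : ∀ n : ℕ, (2:ℝ) ^ (n + 1) * x = 2 ^ n * (2 * x) := fun n => by ring
    simp only [hre]
    have hf : min 1 (((2 ^ 0 * x) ^ 3)⁻¹) * (2 ^ 0 * x) ≤ x := by
      calc min 1 (((2 ^ 0 * x) ^ 3)⁻¹) * (2 ^ 0 * x) ≤ 1 * (2 ^ 0 * x) :=
            mul_le_mul_of_nonneg_right (min_le_left _ _) (by positivity)
        _ = x := by ring
    rcases le_or_gt (2 * x) 1 with h | h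
    · have h1 := ih (2 * x) (by positivity) h
      linarith
    · have h1 := meanSq_S3a h.le K
      linarith

/-- the pointwise dyadic bound -/
theorem meanSq_dyadic {ι : Type*} (W : Finset ι) (a b : ι → ℝ) {Θ0 : ℝ} (hΘ : 0 < Θ0) (t : ℝ)
    (K : ℕ) :
    Dfun W a b Θ0 t ≤
      ∑ n ∈ Finset.range K, min 1 (((2 ^ n * Θ0) ^ 3)⁻¹) *
        (∫ θ in (2 ^ n * Θ0)..(2 * (2 ^ n * Θ0)), ‖∑ w ∈ W, ee (θ * (a w + t * b w))‖ ^ 2)
      + (W.card : ℝ) ^ 2 * (∫ θ in Set.Ioi (2 ^ K * Θ0), min 1 ((θ ^ 3)⁻¹)) := by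
  have hI := meanSq_mG_int W a b hΘ t
  have hpos : ∀ n : ℕ, 0 < 2 ^ n * Θ0 := fun n => by positivity
  have hle : ∀ n : ℕ, Θ0 ≤ 2 ^ n * Θ0 := fun n => by
    have : (1:ℝ) ≤ 2 ^ n := one_le_pow₀ (by norm_num)
    nlinarith
  have hI' := meanSq_mG_int W a b (hpos K) t
  have hsplit := intervalIntegral.integral_interval_add_Ioi hI hI'
  unfold Dfun
  rw [← hsplit]
  have hint : ∀ n : ℕ, IntervalIntegrable
      (fun θ : ℝ => min 1 ((θ ^ 3)⁻¹) * ‖∑ w ∈ W, ee (θ * (a w + t * b w))‖ ^ 2) volume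
      (2 ^ n * Θ0) (2 ^ (n + 1) * Θ0) := by
    intro n
    have h1 : (2:ℝ) ^ n * Θ0 ≤ 2 ^ (n + 1) * Θ0 := by
      rw [pow_succ]; nlinarith [hpos n]
    rw [intervalIntegrable_iff_integrableOn_Ioc_of_le h1]
    exact hI.mono_set fun θ hθ => lt_of_le_of_lt (hle n) hθ.1
  have hadj := intervalIntegral.sum_integral_adjacent_intervals
    (f := fun θ : ℝ => min 1 ((θ ^ 3)⁻¹) * ‖∑ w ∈ W, ee (θ * (a w + t * b w))‖ ^ 2)
    (μ := volume) (a := fun n : ℕ => 2 ^ n * Θ0) (n := K) (fun k _ => hint k)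
  simp only [pow_zero, one_mul] at hadj
  rw [← hadj]
  refine add_le_add (Finset.sum_le_sum fun n _ => ?_) ?_
  · have h1 : (2:ℝ) ^ n * Θ0 ≤ 2 ^ (n + 1) * Θ0 := by
      rw [pow_succ]; nlinarith [hpos n]
    have h2 : 2 * (2 ^ n * Θ0) = 2 ^ (n + 1) * Θ0 := by ring
    rw [h2, ← intervalIntegral.integral_const_mul]
    have hc : Continuous (fun θ : ℝ => ‖∑ w ∈ W, ee (θ * (a w + t * b w))‖ ^ 2) := by
      unfold ee; fun_prop
    refine intervalIntegral.integral_mono_on h1 (hint n)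
      ((hc.const_mul _).intervalIntegrable _ _) fun θ hθ => ?_
    refine mul_le_mul_of_nonneg_right ?_ (by positivity)
    refine min_le_min le_rfl ?_
    exact inv_anti₀ (by have := hpos n; positivity) (pow_le_pow_left₀ (hpos n).le hθ.1 3)
  · rw [← integral_const_mul]
    refine setIntegral_mono_on hI' ((meanSq_m_int (hpos K)).const_mul _) measurableSet_Ioi
      fun θ hθ => ?_
    have hθ0 : 0 < θ := (hpos K).trans hθ
    rw [mul_comm]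
    exact mul_le_mul_of_nonneg_right (meanSq_G_le W a b t θ)
      (le_min zero_le_one (by positivity))

theorem meanSq_tail {Θ0 : ℝ} (hΘ : 0 < Θ0) :
    Filter.Tendsto (fun K : ℕ => ∫ θ in Set.Ioi (2 ^ K * Θ0), min 1 ((θ ^ 3)⁻¹))
      Filter.atTop (nhds 0) := by
  have hb : Filter.Tendsto (fun K : ℕ => (2:ℝ) ^ K * Θ0) Filter.atTop Filter.atTop :=
    (tendsto_pow_atTop_atTop_of_one_lt (by norm_num : (1:ℝ) < 2)).atTop_mul_const hΘ
  have h1 := intervalIntegral_tendsto_integral_Ioi Θ0 (meanSq_m_int hΘ) hb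
  have h2 : ∀ K : ℕ, (∫ θ in Set.Ioi (2 ^ K * Θ0), min 1 ((θ ^ 3)⁻¹)) =
      (∫ θ in Set.Ioi Θ0, min 1 ((θ ^ 3)⁻¹)) - ∫ θ in Θ0..(2 ^ K * Θ0), min 1 ((θ ^ 3)⁻¹) := by
    intro K
    have hpos : 0 < 2 ^ K * Θ0 := by positivity
    have := intervalIntegral.integral_interval_add_Ioi (meanSq_m_int hΘ) (meanSq_m_int hpos)
    linarith
  simp only [h2]
  have h3 := h1.const_sub (∫ θ in Set.Ioi Θ0, min 1 ((θ ^ 3)⁻¹))
  rwa [sub_self] at h3

theorem Dfun_int_le {ι : Type*} (W : Finset ι) (a b : ι → ℝ) {Θ0 L T N0 m0 m1 : ℝ} (hΘ : 0 < Θ0)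
    (hΘ1 : Θ0 ≤ 1) (hL : 0 < L) (hT : 1 ≤ T) (hN0 : 0 ≤ N0) (hm0 : 0 ≤ m0) (hm1 : 0 ≤ m1)
    (hN : ∀ M : ℝ, 0 < M → M ≤ L / Θ0 →
      pairs W (fun p => |a p.1 - a p.2| ≤ M ∧ |b p.1 - b p.2| ≤ M) ≤ N0 * (M + m0) * (M + m1)) :
    ∫ t in (-T)..T, Dfun W a b Θ0 t ≤
      16 * Real.exp (2 * Real.pi) * T *
        (N0 * (L ^ 2 / Θ0 + L * (m0 + m1) * (1 + Real.log (1 / Θ0)) + m0 * m1)
          + (W.card : ℝ) ^ 2 * Real.exp (-Real.pi * L ^ 2)) := by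
  set B := 16 * Real.exp (2 * Real.pi) * T *
        (N0 * (L ^ 2 / Θ0 + L * (m0 + m1) * (1 + Real.log (1 / Θ0)) + m0 * m1)
          + (W.card : ℝ) ^ 2 * Real.exp (-Real.pi * L ^ 2)) with hB
  have hTT : -T ≤ T := by linarith
  have hpos : ∀ n : ℕ, 0 < 2 ^ n * Θ0 := fun n => by positivity
  have hle : ∀ n : ℕ, Θ0 ≤ 2 ^ n * Θ0 := fun n => by
    have : (1:ℝ) ≤ 2 ^ n := one_le_pow₀ (by norm_num)
    nlinarith
  have hGc := meanSq_G_cont W a b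
  have hparam : ∀ n : ℕ, Continuous (fun t : ℝ =>
      ∫ θ in (2 ^ n * Θ0)..(2 * (2 ^ n * Θ0)), ‖∑ w ∈ W, ee (θ * (a w + t * b w))‖ ^ 2) := by
    intro n
    exact intervalIntegral.continuous_parametric_intervalIntegral_of_continuous'
      (f := fun t θ => ‖∑ w ∈ W, ee (θ * (a w + t * b w))‖ ^ 2) hGc _ _
  have key : ∀ K : ℕ, ∫ t in (-T)..T, Dfun W a b Θ0 t ≤
      B + 2 * T * ((W.card : ℝ) ^ 2 * (∫ θ in Set.Ioi (2 ^ K * Θ0), min 1 ((θ ^ 3)⁻¹))) := by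
    intro K
    set tail := (W.card : ℝ) ^ 2 * (∫ θ in Set.Ioi (2 ^ K * Θ0), min 1 ((θ ^ 3)⁻¹)) with htail
    have hs1 : ∫ t in (-T)..T, Dfun W a b Θ0 t ≤ ∫ t in (-T)..T,
        (∑ n ∈ Finset.range K, min 1 (((2 ^ n * Θ0) ^ 3)⁻¹) *
        (∫ θ in (2 ^ n * Θ0)..(2 * (2 ^ n * Θ0)), ‖∑ w ∈ W, ee (θ * (a w + t * b w))‖ ^ 2)
        + tail) := by
      refine intervalIntegral.integral_mono_on hTT ((Dfun_cont W a b hΘ).intervalIntegrable _ _) ?_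
        fun t _ => meanSq_dyadic W a b hΘ t K
      refine Continuous.intervalIntegrable ?_ _ _
      exact (continuous_finsetSum _ fun n _ => (hparam n).const_mul _).add continuous_const
    have hs2 : ∫ t in (-T)..T,
        (∑ n ∈ Finset.range K, min 1 (((2 ^ n * Θ0) ^ 3)⁻¹) *
        (∫ θ in (2 ^ n * Θ0)..(2 * (2 ^ n * Θ0)), ‖∑ w ∈ W, ee (θ * (a w + t * b w))‖ ^ 2)
        + tail) = ∑ n ∈ Finset.range K, min 1 (((2 ^ n * Θ0) ^ 3)⁻¹) *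
        (∫ t in (-T)..T, ∫ θ in (2 ^ n * Θ0)..(2 * (2 ^ n * Θ0)),
          ‖∑ w ∈ W, ee (θ * (a w + t * b w))‖ ^ 2) + 2 * T * tail := by
      rw [intervalIntegral.integral_add, intervalIntegral.integral_finsetSum]
      · simp only [intervalIntegral.integral_const_mul, intervalIntegral.integral_const,
          smul_eq_mul]
        ring
      · intro n _
        exact ((hparam n).const_mul _).intervalIntegrable _ _
      · exact (continuous_finsetSum _ fun n _ => (hparam n).const_mul _).intervalIntegrable _ _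
      · exact continuous_const.intervalIntegrable _ _
    rw [hs2] at hs1
    refine hs1.trans (add_le_add ?_ le_rfl)
    have hE : 0 < Real.exp (2 * Real.pi) := Real.exp_pos _
    set C := (W.card : ℝ) ^ 2 * Real.exp (-Real.pi * L ^ 2) with hC
    have hC0 : 0 ≤ C := by positivity
    have hterm : ∀ n ∈ Finset.range K, min 1 (((2 ^ n * Θ0) ^ 3)⁻¹) *
        (∫ t in (-T)..T, ∫ θ in (2 ^ n * Θ0)..(2 * (2 ^ n * Θ0)),
          ‖∑ w ∈ W, ee (θ * (a w + t * b w))‖ ^ 2) ≤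
        4 * Real.exp (2 * Real.pi) * T * (N0 * L ^ 2) *
          (min 1 (((2 ^ n * Θ0) ^ 3)⁻¹) * (2 ^ n * Θ0)⁻¹)
        + 4 * Real.exp (2 * Real.pi) * T * (N0 * (L * (m0 + m1))) * min 1 (((2 ^ n * Θ0) ^ 3)⁻¹)
        + 4 * Real.exp (2 * Real.pi) * T * (N0 * (m0 * m1) + C) *
          (min 1 (((2 ^ n * Θ0) ^ 3)⁻¹) * (2 ^ n * Θ0)) := by
      intro n _
      have hw : 0 ≤ min 1 (((2 ^ n * Θ0) ^ 3)⁻¹) :=
        le_min zero_le_one (by have := hpos n; positivity)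
      have h1 := gauss_two W a b (hpos n) hL hT
      have h2 := hN (L / (2 ^ n * Θ0)) (by have := hpos n; positivity)
        (div_le_div_of_nonneg_left hL.le hΘ (hle n))
      have h3 : ∫ t in (-T)..T, ∫ θ in (2 ^ n * Θ0)..(2 * (2 ^ n * Θ0)),
          ‖∑ w ∈ W, ee (θ * (a w + t * b w))‖ ^ 2 ≤
          4 * Real.exp (2 * Real.pi) * T * (2 ^ n * Θ0) *
          (N0 * (L / (2 ^ n * Θ0) + m0) * (L / (2 ^ n * Θ0) + m1) + C) := by
        refine h1.trans (mul_le_mul_of_nonneg_left (add_le_add h2 le_rfl) ?_)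
        have := hpos n
        positivity
      refine (mul_le_mul_of_nonneg_left h3 hw).trans (le_of_eq ?_)
      have hne : (2 ^ n * Θ0) ≠ 0 := (hpos n).ne'
      generalize (2 ^ n * Θ0) = x at hne ⊢
      generalize min 1 ((x ^ 3)⁻¹) = y
      field_simp
      ring
    refine (Finset.sum_le_sum hterm).trans ?_
    rw [Finset.sum_add_distrib, Finset.sum_add_distrib, ← Finset.mul_sum, ← Finset.mul_sum,
      ← Finset.mul_sum]
    have e1 := meanSq_S1 hΘ K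
    have e2 := meanSq_S2 K Θ0 hΘ hΘ1
    have e3 : ∑ n ∈ Finset.range K, min 1 (((2 ^ n * Θ0) ^ 3)⁻¹) * (2 ^ n * Θ0) ≤ 4 := by
      have := meanSq_S3 K Θ0 hΘ hΘ1
      linarith
    have p1 : 0 ≤ 4 * Real.exp (2 * Real.pi) * T * (N0 * L ^ 2) := by positivity
    have p2 : 0 ≤ 4 * Real.exp (2 * Real.pi) * T * (N0 * (L * (m0 + m1))) := by positivity
    have p3 : 0 ≤ 4 * Real.exp (2 * Real.pi) * T * (N0 * (m0 * m1) + C) := by positivity
    refine (add_le_add (add_le_add (mul_le_mul_of_nonneg_left e1 p1)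
      (mul_le_mul_of_nonneg_left e2 p2)) (mul_le_mul_of_nonneg_left e3 p3)).trans ?_
    rw [hB]
    have q1 : 0 ≤ Real.exp (2 * Real.pi) * T * (N0 * L ^ 2) / Θ0 := by positivity
    have : 16 * Real.exp (2 * Real.pi) * T *
        (N0 * (L ^ 2 / Θ0 + L * (m0 + m1) * (1 + Real.log (1 / Θ0)) + m0 * m1) + C) -
        (4 * Real.exp (2 * Real.pi) * T * (N0 * L ^ 2) * (2 / Θ0) +
        4 * Real.exp (2 * Real.pi) * T * (N0 * (L * (m0 + m1))) *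
          (4 * (1 + Real.log (1 / Θ0))) +
        4 * Real.exp (2 * Real.pi) * T * (N0 * (m0 * m1) + C) * 4) =
        8 * (Real.exp (2 * Real.pi) * T * (N0 * L ^ 2) / Θ0) := by
      ring
    linarith
  have hlim : Filter.Tendsto (fun K : ℕ => B + 2 * T * ((W.card : ℝ) ^ 2 *
      (∫ θ in Set.Ioi (2 ^ K * Θ0), min 1 ((θ ^ 3)⁻¹)))) Filter.atTop (nhds B) := by
    have h := ((meanSq_tail hΘ).const_mul ((W.card : ℝ) ^ 2)).const_mul (2 * T)
    have h' := h.const_add B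
    simpa using h'
  exact ge_of_tendsto' hlim key

end MWg
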