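import Mathlib

/-!
# MWg.Numer: numerical conditions

`num_p`: `k = 3` directly (`16/9 < 2`); for `k ≥ 4`, `(1-1/k)^k ≤ exp (-1) < 0.3679`
(`Real.add_one_le_exp`, `Real.exp_one_gt_d9`) and `2 * 0.3679 k < k - 1` for `k ≥ 4`.
`num_p'`: `(1-1/k)^q ≤ exp (-q/k) ≤ exp (-3/4)` for `q ≥ 3k/4`... here `q = (3k+3)/4` (natural
division), so `4 q ≥ 3 k`; `2 exp (-3/4) < 0.9448` and `0.9448 k < k - 1` for `k ≥ 19`.
-/

namespace MWg

/-- `(1 - 1/k)^q ≤ exp (-(q/k))`. -/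
private theorem pow_le_exp {k : ℕ} (hk : 1 ≤ k) (q : ℕ) :
    (1 - 1 / (k : ℝ)) ^ q ≤ Real.exp (-((q : ℝ) / (k : ℝ))) := by
  have hk0 : (1 : ℝ) ≤ (k : ℝ) := by exact_mod_cast hk
  have hpos : (0 : ℝ) < (k : ℝ) := by linarith
  have h0 : (0 : ℝ) ≤ 1 - 1 / (k : ℝ) := by
    rw [sub_nonneg, div_le_one hpos]; exact hk0
  have h1 : 1 - 1 / (k : ℝ) ≤ Real.exp (-(1 / (k : ℝ))) := by
    have := Real.add_one_le_exp (-(1 / (k : ℝ)))
    linarith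
  calc (1 - 1 / (k : ℝ)) ^ q ≤ (Real.exp (-(1 / (k : ℝ)))) ^ q := pow_le_pow_left₀ h0 h1 q
    _ = Real.exp (-((q : ℝ) / (k : ℝ))) := by
        rw [← Real.exp_nat_mul]; congr 1; ring

theorem num_p {k : ℕ} (hk : 3 ≤ k) :
    2 * (k : ℝ) * (1 - 1 / (k : ℝ)) ^ k < ((k - 1 : ℕ) : ℝ) := by
  rcases Nat.lt_or_ge k 4 with h | h
  · have : k = 3 := by omega
    subst this
    norm_num
  · have hk4 : (4 : ℝ) ≤ (k : ℝ) := by exact_mod_cast h
    have hpos : (0 : ℝ) < (k : ℝ) := by linarith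
    have h1 := pow_le_exp (k := k) (by omega) k
    rw [div_self hpos.ne'] at h1
    have h2 : Real.exp (-1) < 0.3679 := by
      rw [Real.exp_neg, inv_lt_comm₀ (Real.exp_pos 1) (by norm_num)]
      have := Real.exp_one_gt_d9
      refine lt_trans ?_ this
      norm_num
    have h3 : ((k - 1 : ℕ) : ℝ) = (k : ℝ) - 1 := by
      rw [Nat.cast_sub (by omega)]; simp
    rw [h3]
    have h4 : 2 * (k : ℝ) * (1 - 1 / (k : ℝ)) ^ k ≤ 2 * (k : ℝ) * 0.3679 :=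
      mul_le_mul_of_nonneg_left (le_trans h1 h2.le) (by positivity)
    linarith

theorem num_p' {k : ℕ} (hk : 19 ≤ k) :
    2 * (k : ℝ) * (1 - 1 / (k : ℝ)) ^ ((3 * k + 3) / 4) < ((k - 1 : ℕ) : ℝ) := by
  have hk4 : (19 : ℝ) ≤ (k : ℝ) := by exact_mod_cast hk
  have hpos : (0 : ℝ) < (k : ℝ) := by linarith
  have h1 := pow_le_exp (k := k) (by omega) ((3 * k + 3) / 4)
  have hq : 3 * k ≤ 4 * ((3 * k + 3) / 4) := by omega
  have hq' : (3 : ℝ) * (k : ℝ) ≤ 4 * (((3 * k + 3) / 4 : ℕ) : ℝ) := by exact_mod_cast hq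
  have h2 : Real.exp (-((((3 * k + 3) / 4 : ℕ) : ℝ) / (k : ℝ))) ≤ Real.exp (-(3 / 4)) := by
    apply Real.exp_le_exp.mpr
    apply neg_le_neg
    rw [div_le_div_iff₀ (by norm_num) hpos]
    linarith
  have h3 : (2.1115 : ℝ) < Real.exp (3 / 4) := by
    have h4 : (2.1115 : ℝ) ^ 4 < (Real.exp (3 / 4)) ^ 4 := by
      have e1 : (Real.exp (3 / 4)) ^ 4 = (Real.exp 1) ^ 3 := by
        rw [← Real.exp_nat_mul, ← Real.exp_nat_mul]; norm_num
      rw [e1]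
      have := Real.exp_one_gt_d9
      calc (2.1115 : ℝ) ^ 4 < (2.7182818283 : ℝ) ^ 3 := by norm_num
        _ < (Real.exp 1) ^ 3 := pow_lt_pow_left₀ this (by norm_num) (by norm_num)
    exact lt_of_pow_lt_pow_left₀ 4 (Real.exp_pos _).le h4
  have h5 : Real.exp (-(3 / 4)) < 1 / 2.1115 := by
    rw [Real.exp_neg, one_div]
    exact inv_strictAnti₀ (by norm_num) h3
  have h6 : ((k - 1 : ℕ) : ℝ) = (k : ℝ) - 1 := by
    rw [Nat.cast_sub (by omega)]; simp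
  rw [h6]
  have h7 : 2 * (k : ℝ) * (1 - 1 / (k : ℝ)) ^ ((3 * k + 3) / 4) ≤ 2 * (k : ℝ) * (1 / 2.1115) :=
    mul_le_mul_of_nonneg_left (le_trans (le_trans h1 h2) h5.le) (by positivity)
  have h8 : 2 * (k : ℝ) * (1 / 2.1115) < (k : ℝ) - 1 := by
    norm_num
    linarith
  linarith

end MWg
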