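import Pool.Agent.MWg.PData
import Pool.Agent.MWg.Abstract

/-!
# MWg.PFin: sums of 4q values of x^k + g(x) + t x^j

PROOF of `poly_main`. `f x = x^k + g x` is `Good k` (`good_pow`, `good_add`). Apply `metric_main` to
`pData` (`j ≤ k`, `1 ≤ k`). The two chains `w, w' ∈ chain k J1 q (XX r)` are lists of `q` pairs of positive
integers (`chain_length`, `chain_fst_pos`, `chain_snd_pos`); the list
`l = w.map fst ++ w.map snd ++ (w'.map fst ++ w'.map snd)` has length `4 q`, and for every `F`,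
`(l.map F).sum = val F F w + val F F w'`. Use `list_fin` and `val_lin`.
-/

namespace MWg

open Filter Topology

theorem PFin_sum (F : ℕ → ℝ) (w : List (ℕ × ℕ)) :
    ((w.map Prod.fst).map F).sum + ((w.map Prod.snd).map F).sum = val F F w := by
  induction w with
  | nil => simp [val]
  | cons p w ih =>
    rw [val_cons, ← ih]
    simp only [List.map_cons, List.sum_cons]
    ring

theorem PFin_pos {k q r : ℕ} {w : List (ℕ × ℕ)} (hw : w ∈ chain k J1 q (XX r)) :
    ∀ n ∈ w.map Prod.fst ++ w.map Prod.snd, 0 < n := by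
  intro n hn
  rw [List.mem_append, List.mem_map, List.mem_map] at hn
  rcases hn with ⟨p, hp, rfl⟩ | ⟨p, hp, rfl⟩
  · exact chain_fst_pos hw p hp
  · exact chain_snd_pos hw p hp

theorem poly_main {k j q : ℕ} (hj : 1 ≤ j) (hjk : j < k)
    (hq : 2 * (k : ℝ) * (1 - 1 / (k : ℝ)) ^ q < j) {g : ℕ → ℝ}
    (hg : Tendsto (fun x : ℕ => (g (x + 1) - g x) / (x : ℝ) ^ (k - 1)) atTop (𝓝 0)) :
    ∀ᵐ t : ℝ, ∀ ε : ℝ, 0 < ε → ∃ Y : ℝ, ∀ y : ℝ, Y ≤ y → ∃ x : Fin (4 * q) → ℕ,
      (∀ i, 0 < x i) ∧ |∑ i, ((x i : ℝ) ^ k + g (x i) + t * (x i : ℝ) ^ j) - y| < ε := by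
  have hf : Good k (fun x : ℕ => (x : ℝ) ^ k + g x) := good_add (good_pow (by omega)) hg
  obtain ⟨δ, hδ⟩ := pData hj hjk hq hf
  filter_upwards [metric_main hjk.le (by omega) hδ] with t ht
  intro ε hε
  obtain ⟨Y, hY⟩ := ht ε hε
  refine ⟨Y, fun y hy => ?_⟩
  obtain ⟨r, w, hw, w', hw', hlt⟩ := hY y hy
  set F : ℕ → ℝ := fun n => (n : ℝ) ^ k + g n + t * (n : ℝ) ^ j with hF
  obtain ⟨x, hx, hsum⟩ := list_fin (m := 4 * q) ((w.map Prod.fst ++ w.map Prod.snd) ++
    (w'.map Prod.fst ++ w'.map Prod.snd)) (by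
      simp only [List.length_append, List.length_map, chain_length hw, chain_length hw']
      ring)
  refine ⟨x, ?_, ?_⟩
  · intro i
    have h := hx i
    rw [List.mem_append] at h
    rcases h with h | h
    · exact PFin_pos hw _ h
    · exact PFin_pos hw' _ h
  · have e1 : ∑ i, ((x i : ℝ) ^ k + g (x i) + t * (x i : ℝ) ^ j) = val F F w + val F F w' := by
      have h := hsum F
      rw [List.map_append, List.sum_append, List.map_append, List.sum_append, List.map_append,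
        List.sum_append, PFin_sum, PFin_sum] at h
      exact h
    rw [e1]
    have e2 := val_lin (fun x : ℕ => (x : ℝ) ^ k + g x) (fun x : ℕ => (x : ℝ) ^ j)
      (fun x : ℕ => (x : ℝ) ^ k + g x) (fun x : ℕ => (x : ℝ) ^ j) t w
    have e3 := val_lin (fun x : ℕ => (x : ℝ) ^ k + g x) (fun x : ℕ => (x : ℝ) ^ j)
      (fun x : ℕ => (x : ℝ) ^ k + g x) (fun x : ℕ => (x : ℝ) ^ j) t w'
    rw [e2, e3] at hlt
    exact hlt

end MWg
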