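import Mathlib

/-!
# MWg.PolyAE: from one generic coefficient to almost every coefficient vector
-/

namespace MWg

open MeasureTheory Filter Topology

/-- The approximation property for the coefficient vector `c`. -/
def ApxProp (k s : ℕ) (c : Fin k → ℝ) : Prop :=
  ∀ ε : ℝ, 0 < ε → ∃ Y : ℝ, ∀ y : ℝ, Y ≤ y → ∃ x : Fin s → ℕ,
    (∀ i, 0 < x i) ∧ |∑ i, ((x i : ℝ) ^ k + ∑ m : Fin k, c m * (x i : ℝ) ^ (m : ℕ)) - y| < ε

/-- The countable version. -/
def ApxProp' (k s : ℕ) (c : Fin k → ℝ) : Prop :=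
  ∀ n : ℕ, ∃ Y : ℕ, ∀ y : ℚ, (Y : ℝ) ≤ (y : ℝ) → ∃ x : Fin s → ℕ,
    (∀ i, 0 < x i) ∧
      |∑ i, ((x i : ℝ) ^ k + ∑ m : Fin k, c m * (x i : ℝ) ^ (m : ℕ)) - (y : ℝ)| < 1 / ((n : ℝ) + 1)

theorem apx_iff (k s : ℕ) (c : Fin k → ℝ) : ApxProp k s c ↔ ApxProp' k s c := by
  constructor
  · intro h n
    obtain ⟨Y, hY⟩ := h (1 / ((n : ℝ) + 1)) (by positivity)
    obtain ⟨Y', hY'⟩ := exists_nat_ge Y
    exact ⟨Y', fun y hy => hY _ (hY'.trans hy)⟩
  · intro h ε hε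
    obtain ⟨n, hn⟩ := exists_nat_one_div_lt (half_pos hε)
    obtain ⟨Y, hY⟩ := h n
    refine ⟨(Y : ℝ) + 0, fun y hy => ?_⟩
    obtain ⟨q, hq1, hq2⟩ := exists_rat_btwn (show y < y + ε / 2 by linarith)
    obtain ⟨x, hx, hlt⟩ := hY q (by linarith)
    refine ⟨x, hx, ?_⟩
    rw [abs_lt] at hlt ⊢
    constructor <;> linarith [hlt.1, hlt.2]

theorem measurableSet_apx (k s : ℕ) : MeasurableSet {c : Fin k → ℝ | ApxProp k s c} := by
  have : {c : Fin k → ℝ | ApxProp k s c} = {c : Fin k → ℝ | ApxProp' k s c} := by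
    ext c; exact apx_iff k s c
  rw [this]
  have h2 : {c : Fin k → ℝ | ApxProp' k s c} =
      ⋂ n : ℕ, ⋃ Y : ℕ, ⋂ y : ℚ, ⋂ _ : (Y : ℝ) ≤ (y : ℝ), ⋃ x : Fin s → ℕ, ⋃ _ : ∀ i, 0 < x i,
        {c : Fin k → ℝ | |∑ i, ((x i : ℝ) ^ k + ∑ m : Fin k, c m * (x i : ℝ) ^ (m : ℕ)) - (y : ℝ)|
          < 1 / ((n : ℝ) + 1)} := by
    ext c
    simp [ApxProp']
  rw [h2]
  refine MeasurableSet.iInter fun n => MeasurableSet.iUnion fun Y => MeasurableSet.iInter fun y =>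
    MeasurableSet.iInter fun _ => MeasurableSet.iUnion fun x => MeasurableSet.iUnion fun _ => ?_
  apply IsOpen.measurableSet
  apply isOpen_lt
  · fun_prop
  · exact continuous_const

theorem ae_apx (k s : ℕ)
    (H : ∀ c : Fin k → ℝ, ∀ᵐ t : ℝ, ApxProp (k + 1) s (Fin.snoc (α := fun _ => ℝ) c t)) :
    ∀ᵐ c : Fin (k + 1) → ℝ, ApxProp (k + 1) s c := by
  have hm := measurableSet_apx (k + 1) s
  have mp := volume_preserving_piFinSuccAbove (fun _ : Fin (k + 1) => ℝ) (Fin.last k)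
  set e := MeasurableEquiv.piFinSuccAbove (fun _ : Fin (k + 1) => ℝ) (Fin.last k) with he
  have key : ∀ᵐ p : ℝ × (Fin k → ℝ), ApxProp (k + 1) s (e.symm p) := by
    have hs : MeasurableSet {p : ℝ × (Fin k → ℝ) | ¬ ApxProp (k + 1) s (e.symm p)} :=
      (e.symm.measurable hm.compl)
    rw [ae_iff]
    have hsw : (volume : Measure (ℝ × (Fin k → ℝ))) {p | ¬ ApxProp (k + 1) s (e.symm p)} =
        ((volume : Measure (Fin k → ℝ)).prod (volume : Measure ℝ))
          (Prod.swap ⁻¹' {p : ℝ × (Fin k → ℝ) | ¬ ApxProp (k + 1) s (e.symm p)}) := by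
      have h3 := Measure.measurePreserving_swap (μ := (volume : Measure (Fin k → ℝ)))
        (ν := (volume : Measure ℝ))
      rw [h3.measure_preimage hs.nullMeasurableSet]
      rfl
    rw [hsw, Measure.measure_prod_null (measurable_swap hs)]
    refine Filter.Eventually.of_forall fun c => ?_
    have := H c
    rw [ae_iff] at this
    change (volume : Measure ℝ) (Prod.mk c ⁻¹'
      (Prod.swap ⁻¹' {p : ℝ × (Fin k → ℝ) | ¬ ApxProp (k + 1) s (e.symm p)})) = 0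
    convert this using 2
    ext t
    have h5 : e.symm (t, c) = Fin.snoc (α := fun _ => ℝ) c t := by
      have : e.symm (t, c) = (Fin.last k).insertNth (α := fun _ => ℝ) t c := rfl
      rw [this, Fin.insertNth_last']
    change ¬ ApxProp (k + 1) s (e.symm (t, c)) ↔ ¬ ApxProp (k + 1) s (Fin.snoc c t)
    rw [h5]
  have h4 := mp.quasiMeasurePreserving.ae key
  filter_upwards [h4] with c hc
  simpa using hc

end MWg
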