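import Pool.Agent.MWg.PolyAE

/-!
# MWg.PolyInc: increments of lower order polynomials
-/

namespace MWg
open Filter Topology

theorem pow_incr {k m : ℕ} (hm : m < k) :
    Tendsto (fun x : ℕ => (((x + 1 : ℕ) : ℝ) ^ m - (x : ℝ) ^ m) / (x : ℝ) ^ k) atTop (𝓝 0) := by
  have h1 : Tendsto (fun x : ℕ => (2 : ℝ) ^ m * ((x : ℝ) ^ (k - m))⁻¹) atTop (𝓝 0) := by
    have : Tendsto (fun x : ℕ => ((x : ℝ) ^ (k - m))⁻¹) atTop (𝓝 0) :=
      tendsto_inv_atTop_zero.comp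
        ((tendsto_pow_atTop (by omega)).comp tendsto_natCast_atTop_atTop)
    simpa using this.const_mul ((2 : ℝ) ^ m)
  refine squeeze_zero' ?_ ?_ h1
  · filter_upwards [eventually_ge_atTop 1] with x hx
    have : (x : ℝ) ^ m ≤ ((x + 1 : ℕ) : ℝ) ^ m := by
      gcongr
      simp
    apply div_nonneg _ (by positivity)
    linarith
  · filter_upwards [eventually_ge_atTop 1] with x hx
    have hx0 : (0 : ℝ) < x := by exact_mod_cast hx
    have hx1 : (1 : ℝ) ≤ x := by exact_mod_cast hx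
    have h2 : ((x + 1 : ℕ) : ℝ) ^ m ≤ 2 ^ m * (x : ℝ) ^ m := by
      rw [← mul_pow]
      gcongr
      push_cast
      linarith
    have h3 : (x : ℝ) ^ k = (x : ℝ) ^ (k - m) * (x : ℝ) ^ m := by
      rw [← pow_add]; congr 1; omega
    rw [div_le_iff₀ (by positivity), h3]
    have h4 : (2 : ℝ) ^ m * ((x : ℝ) ^ (k - m))⁻¹ * ((x : ℝ) ^ (k - m) * (x : ℝ) ^ m) =
        2 ^ m * (x : ℝ) ^ m := by
      field_simp
    rw [h4]
    have : (0 : ℝ) ≤ (x : ℝ) ^ m := by positivity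
    linarith

theorem poly_incr (k : ℕ) (c : Fin k → ℝ) :
    Tendsto (fun x : ℕ => ((∑ m : Fin k, c m * ((x + 1 : ℕ) : ℝ) ^ (m : ℕ)) -
      ∑ m : Fin k, c m * (x : ℝ) ^ (m : ℕ)) / (x : ℝ) ^ k) atTop (𝓝 0) := by
  have h : ∀ m : Fin k, Tendsto (fun x : ℕ => c m *
      ((((x + 1 : ℕ) : ℝ) ^ (m : ℕ) - (x : ℝ) ^ (m : ℕ)) / (x : ℝ) ^ k)) atTop (𝓝 0) := by
    intro m
    simpa using (pow_incr m.2).const_mul (c m)
  have h2 := tendsto_finsetSum Finset.univ fun m _ => h m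
  simp only [Finset.sum_const_zero] at h2
  refine h2.congr fun x => ?_
  rw [← Finset.sum_sub_distrib, Finset.sum_div]
  refine Finset.sum_congr rfl fun m _ => ?_
  ring

end MWg
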