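import Pool.Agent.EWar.Main

/-!
Waring's problem with `4 κ` summands for almost every real exponent `κ > 1`: all large real numbers
are approximated arbitrarily well by sums of `⌊4 κ⌋` positive `κ`-th powers, and all large natural
numbers are integer parts of such sums. The exceptional exponents in a bounded interval form a set
of Hausdorff dimension less than one.
-/

set_option autoImplicit false

open Filter MeasureTheory

namespace MWgRes.AlmostAllExponents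

open Pool.Agent.EWar

/-- `Represents κ s`: sums of `s` positive `κ`-th powers of integers come arbitrarily close to all
large real numbers, and their integer parts are all large natural numbers. -/
def Represents (κ : ℝ) (s : ℕ) : Prop :=
  (∀ ε : ℝ, 0 < ε → ∀ᶠ Y : ℝ in atTop, ∃ x : Fin s → ℕ, (∀ i, 0 < x i) ∧
    |∑ i, (x i : ℝ) ^ κ - Y| < ε) ∧
  (∀ᶠ N : ℕ in atTop, ∃ x : Fin s → ℕ, (∀ i, 0 < x i) ∧ ⌊∑ i, (x i : ℝ) ^ κ⌋₊ = N)

theorem represents_of {κ : ℝ} {s : ℕ}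
    (h : ∀ ε : ℝ, 0 < ε → ∀ᶠ Y : ℝ in atTop, RepAt s κ ε Y) : Represents κ s := by
  refine ⟨fun ε hε => ?_, ?_⟩
  · filter_upwards [h ε hε] with Y hY
    obtain ⟨l, h1, h2, h3⟩ := hY
    obtain ⟨x, hx1, hx2⟩ := exists_fin h1 h2
    exact ⟨x, hx1, by rw [hx2]; exact h3⟩
  · filter_upwards [floor_of_rep (h (1 / 2) (by norm_num))] with N hN
    obtain ⟨l, h1, h2, h3⟩ := hN
    obtain ⟨x, hx1, hx2⟩ := exists_fin h1 h2
    exact ⟨x, hx1, by rw [hx2]; exact h3⟩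

theorem dim_bound {b : ℝ} {s : ℕ} (hb : 1 < b)
    (h : (1 - 1 / b) ^ (s / 2 / 2) + (1 - 1 / b) ^ ((s / 2 + 1) / 2) < 1) :
    dimH {κ : ℝ | 1 < κ ∧ κ ≤ b ∧ ¬ Represents κ s} ≤ ENNReal.ofReal
      (max ((1 - 1 / b) ^ (s / 2 / 2) + (1 - 1 / b) ^ ((s / 2 + 1) / 2)) (1 - 1 / b)) := by
  refine (dimH_mono ?_).trans (dimH_exc (b := b) (s := s) hb h)
  rintro κ ⟨h1, h2, h3⟩
  exact ⟨h1, h2, fun hall => h3 (represents_of hall)⟩

theorem dim_four {b : ℝ} (hb : 1 < b) :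
    dimH {κ : ℝ | 1 < κ ∧ κ ≤ b ∧ ¬ Represents κ ⌊4 * κ⌋₊} < 1 := by
  have hsub : {κ : ℝ | 1 < κ ∧ κ ≤ b ∧ ¬ Represents κ ⌊4 * κ⌋₊} ⊆
      ⋃ s ∈ Finset.range (⌊4 * b⌋₊ + 1), {κ : ℝ | 1 < κ ∧ 4 * κ ≤ (s : ℝ) + 1 ∧
        ¬ Represents κ s} := by
    rintro κ ⟨h1, h2, h3⟩
    simp only [Set.mem_iUnion, Finset.mem_range]
    refine ⟨⌊4 * κ⌋₊, ?_, h1, (Nat.lt_floor_add_one _).le, h3⟩
    have : ⌊4 * κ⌋₊ ≤ ⌊4 * b⌋₊ := Nat.floor_le_floor (by linarith)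
    omega
  refine (dimH_mono hsub).trans_lt ?_
  have hU := dimH_bUnion (Finset.range (⌊4 * b⌋₊ + 1)).countable_toSet fun s : ℕ =>
    {κ : ℝ | 1 < κ ∧ 4 * κ ≤ (s : ℝ) + 1 ∧ ¬ Represents κ s}
  simp only [Finset.mem_coe] at hU
  rw [hU]
  have h1 : ∀ s : ℕ, dimH {κ : ℝ | 1 < κ ∧ 4 * κ ≤ (s : ℝ) + 1 ∧ ¬ Represents κ s} < 1 := by
    intro s
    rcases le_or_gt (((s : ℝ) + 1) / 4) 1 with h | h
    · have he : {κ : ℝ | 1 < κ ∧ 4 * κ ≤ (s : ℝ) + 1 ∧ ¬ Represents κ s} = ∅ := by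
        ext κ
        simp only [Set.mem_setOf_eq, Set.mem_empty_iff_false, iff_false]
        rintro ⟨h1, h2, -⟩
        linarith
      rw [he, dimH_empty]
      exact one_pos
    · have hc : Cond (((s : ℝ) + 1) / 4) s := cond_four h (by linarith)
      have hsub2 : {κ : ℝ | 1 < κ ∧ 4 * κ ≤ (s : ℝ) + 1 ∧ ¬ Represents κ s} ⊆
          {κ : ℝ | 1 < κ ∧ κ ≤ ((s : ℝ) + 1) / 4 ∧ ¬ Represents κ s} := by
        rintro κ ⟨h1, h2, h3⟩
        exact ⟨h1, by linarith, h3⟩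
      refine ((dimH_mono hsub2).trans (dim_bound h hc)).trans_lt ?_
      rw [← ENNReal.ofReal_one]
      exact (ENNReal.ofReal_lt_ofReal_iff one_pos).2 (max_lt hc (rh_lt_one h))
  have h2 : ∀ n : ℕ, (⨆ s ∈ Finset.range n,
      dimH {κ : ℝ | 1 < κ ∧ 4 * κ ≤ (s : ℝ) + 1 ∧ ¬ Represents κ s}) < 1 := by
    intro n
    rw [← Finset.sup_eq_iSup]
    exact (Finset.sup_lt_iff one_pos).2 fun s _ => h1 s
  exact h2 _

/-- about `4 log 2 = 2.77..` times the exponent is enough -/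
theorem cond_log {q s : ℕ} (hq : q = s / 4) (hb : 1 < (q : ℝ) / Real.log 2) :
    Cond ((q : ℝ) / Real.log 2) s := by
  have hlog : 0 < Real.log 2 := Real.log_pos one_lt_two
  obtain ⟨b, hbdef⟩ : ∃ b, b = (q : ℝ) / Real.log 2 := ⟨_, rfl⟩
  rw [← hbdef] at hb ⊢
  have hb0 : 0 < b := by linarith
  have hq0 : (0 : ℝ) < q := by
    rw [hbdef, lt_div_iff₀ hlog] at hb
    linarith
  have hqn : q ≠ 0 := by
    have : 0 < q := by exact_mod_cast hq0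
    omega
  have hqb : (q : ℝ) * (-(1 / b)) = -Real.log 2 := by
    rw [hbdef]
    field_simp
  have h1 : rh b < Real.exp (-(1 / b)) := by
    have h2 : -(1 / b) ≠ 0 := by
      have : 0 < 1 / b := by positivity
      linarith
    have := Real.add_one_lt_exp h2
    unfold rh
    linarith
  have h3 : rh b ^ q < 1 / 2 := by
    have h4 : rh b ^ q < Real.exp (-(1 / b)) ^ q := pow_lt_pow_left₀ h1 (rh_pos hb).le hqn
    rw [← Real.exp_nat_mul, hqb, Real.exp_neg, Real.exp_log (by norm_num)] at h4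
    linarith
  unfold Cond
  have hm : s / 2 / 2 = q := by omega
  rw [hm]
  have h5 : rh b ^ ((s / 2 + 1) / 2) ≤ rh b ^ q :=
    pow_le_pow_of_le_one (rh_pos hb).le (rh_lt_one hb).le (by omega)
  linarith

theorem ae_log : ∀ᵐ κ : ℝ, 1 < κ → ∀ s : ℕ, 4 * ⌈κ * Real.log 2⌉₊ ≤ s → Represents κ s := by
  have hlog : 0 < Real.log 2 := Real.log_pos one_lt_two
  rw [ae_iff]
  have hsub : {κ : ℝ | ¬ (1 < κ → ∀ s : ℕ, 4 * ⌈κ * Real.log 2⌉₊ ≤ s → Represents κ s)} ⊆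
      ⋃ s : ℕ, {κ : ℝ | 1 < κ ∧ κ ≤ ((s / 4 : ℕ) : ℝ) / Real.log 2 ∧ ¬ Represents κ s} := by
    intro κ hκ
    simp only [Set.mem_setOf_eq, Classical.not_imp, not_forall] at hκ
    obtain ⟨h1, s, hs, h2⟩ := hκ
    rw [Set.mem_iUnion]
    refine ⟨s, h1, ?_, h2⟩
    rw [le_div_iff₀ hlog]
    refine (Nat.le_ceil _).trans ?_
    have : ⌈κ * Real.log 2⌉₊ ≤ s / 4 := by omega
    exact_mod_cast this
  refine measure_mono_null hsub (measure_iUnion_null fun s => ?_)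
  rcases le_or_gt (((s / 4 : ℕ) : ℝ) / Real.log 2) 1 with h | h
  · have he : {κ : ℝ | 1 < κ ∧ κ ≤ ((s / 4 : ℕ) : ℝ) / Real.log 2 ∧ ¬ Represents κ s} = ∅ := by
      ext κ
      simp only [Set.mem_setOf_eq, Set.mem_empty_iff_false, iff_false]
      rintro ⟨h1, h2, -⟩
      linarith
    rw [he, measure_empty]
  · have hc := cond_log rfl h
    have h1 : dimH {κ : ℝ | 1 < κ ∧ κ ≤ ((s / 4 : ℕ) : ℝ) / Real.log 2 ∧ ¬ Represents κ s} < 1 := by
      refine (dim_bound h hc).trans_lt ?_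
      rw [← ENNReal.ofReal_one]
      exact (ENNReal.ofReal_lt_ofReal_iff one_pos).2 (max_lt hc (rh_lt_one h))
    refine measure_zero_of_dimH_lt (d := 1) ?_ (by simpa using h1)
    rw [NNReal.coe_one, hausdorffMeasure_real]

theorem result :
    (∀ (b : ℝ) (s : ℕ), 1 < b →
      (1 - 1 / b) ^ (s / 2 / 2) + (1 - 1 / b) ^ ((s / 2 + 1) / 2) < 1 →
      dimH {κ : ℝ | 1 < κ ∧ κ ≤ b ∧ ¬ Represents κ s} ≤ ENNReal.ofReal
        (max ((1 - 1 / b) ^ (s / 2 / 2) + (1 - 1 / b) ^ ((s / 2 + 1) / 2)) (1 - 1 / b))) ∧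
    (∀ b : ℝ, dimH {κ : ℝ | 1 < κ ∧ κ ≤ b ∧ ¬ Represents κ ⌊4 * κ⌋₊} < 1) ∧
    (∀ᵐ κ : ℝ, 1 < κ → Represents κ ⌊4 * κ⌋₊ ∧
      ∀ s : ℕ, 4 * ⌈κ * Real.log 2⌉₊ ≤ s → Represents κ s) := by
  have hae : ∀ᵐ κ : ℝ, 1 < κ → Represents κ ⌊4 * κ⌋₊ := by
    rw [ae_iff]
    have hsub : {κ : ℝ | ¬ (1 < κ → Represents κ ⌊4 * κ⌋₊)} ⊆
        ⋃ n : ℕ, {κ : ℝ | 1 < κ ∧ κ ≤ (n : ℝ) + 2 ∧ ¬ Represents κ ⌊4 * κ⌋₊} := by
      intro κ hκ
      simp only [Set.mem_setOf_eq, Classical.not_imp] at hκ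
      obtain ⟨n, hn⟩ := exists_nat_ge κ
      rw [Set.mem_iUnion]
      exact ⟨n, hκ.1, by linarith, hκ.2⟩
    refine measure_mono_null hsub (measure_iUnion_null fun n => ?_)
    have h1 := dim_four (b := (n : ℝ) + 2) (by
      have : (0 : ℝ) ≤ n := Nat.cast_nonneg n
      linarith)
    refine measure_zero_of_dimH_lt (d := 1) ?_ (by simpa using h1)
    rw [NNReal.coe_one, hausdorffMeasure_real]
  refine ⟨fun b s hb h => dim_bound hb h, fun b => ?_, ?_⟩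
  · rcases le_or_gt b 1 with h | h
    · have he : {κ : ℝ | 1 < κ ∧ κ ≤ b ∧ ¬ Represents κ ⌊4 * κ⌋₊} = ∅ := by
        ext κ
        simp only [Set.mem_setOf_eq, Set.mem_empty_iff_false, iff_false]
        rintro ⟨h1, h2, -⟩
        linarith
      rw [he, dimH_empty]
      exact one_pos
    · exact dim_four h
  · filter_upwards [hae, ae_log] with κ h1 h2 hκ
    exact ⟨h1 hκ, h2 hκ⟩

end MWgRes.AlmostAllExponents
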