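import Pool.Agent.MWg.PFin
import Pool.Agent.MWg.Numer
import Pool.Agent.MWg.PolyInc

/-!
# MP_ee77ae_nt: Waring's problem with 4k summands for almost every polynomial of degree k

`EveryLarge f s`: sums of `s` values of `f` at positive integers come arbitrarily close to all large
real numbers, and the integer parts of such sums are all large integers.

For every `k ≥ 3`, almost every monic real polynomial of degree `k` has this property with `s = 4k`.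
In fact for every `g : ℕ → ℝ` with `g (x+1) - g x = o(x^(k-1))` and almost every real `t`, the
function `x^k + g x + t x^(k-1)` has it with `s = 4k`; more generally `x^k + g x + t x^j` has it with
`s = 4q` as soon as `2 k (1 - 1/k)^q < j < k` (about `2.8 k` summands for large `k`, `j = k - 1`).
-/

namespace MWgRes.MetricPolynomials

open Filter Topology

/-- Sums of `s` values of `f` at positive integers come arbitrarily close to all large real numbers,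
and the integer parts of such sums are all large integers. -/
def EveryLarge (f : ℕ → ℝ) (s : ℕ) : Prop :=
  (∀ ε : ℝ, 0 < ε → ∃ Y : ℝ, ∀ y : ℝ, Y ≤ y → ∃ x : Fin s → ℕ,
    (∀ i, 0 < x i) ∧ |∑ i, f (x i) - y| < ε) ∧
  (∃ N0 : ℤ, ∀ N : ℤ, N0 ≤ N → ∃ x : Fin s → ℕ, (∀ i, 0 < x i) ∧ ⌊∑ i, f (x i)⌋ = N)

theorem everyLarge_of {f : ℕ → ℝ} {s : ℕ}
    (h : ∀ ε : ℝ, 0 < ε → ∃ Y : ℝ, ∀ y : ℝ, Y ≤ y → ∃ x : Fin s → ℕ,
      (∀ i, 0 < x i) ∧ |∑ i, f (x i) - y| < ε) : EveryLarge f s := by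
  refine ⟨h, ?_⟩
  obtain ⟨Y, hY⟩ := h (1 / 2) (by norm_num)
  refine ⟨⌈Y⌉, fun N hN => ?_⟩
  have hN' : Y ≤ (N : ℝ) + 1 / 2 := by
    have h1 : Y ≤ (⌈Y⌉ : ℝ) := Int.le_ceil Y
    have h2 : ((⌈Y⌉ : ℤ) : ℝ) ≤ (N : ℝ) := by exact_mod_cast hN
    linarith
  obtain ⟨x, hx, hlt⟩ := hY _ hN'
  refine ⟨x, hx, ?_⟩
  rw [abs_lt] at hlt
  rw [Int.floor_eq_iff]
  constructor <;> linarith [hlt.1, hlt.2]

theorem result :
    (∀ k j q : ℕ, 1 ≤ j → j < k → 2 * (k : ℝ) * (1 - 1 / (k : ℝ)) ^ q < j →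
      ∀ g : ℕ → ℝ, Tendsto (fun x : ℕ => (g (x + 1) - g x) / (x : ℝ) ^ (k - 1)) atTop (𝓝 0) →
        ∀ᵐ t : ℝ, EveryLarge (fun x => (x : ℝ) ^ k + g x + t * (x : ℝ) ^ j) (4 * q)) ∧
    (∀ k : ℕ, 3 ≤ k →
      ∀ g : ℕ → ℝ, Tendsto (fun x : ℕ => (g (x + 1) - g x) / (x : ℝ) ^ (k - 1)) atTop (𝓝 0) →
        ∀ᵐ t : ℝ, EveryLarge (fun x => (x : ℝ) ^ k + g x + t * (x : ℝ) ^ (k - 1)) (4 * k)) ∧
    (∀ k : ℕ, 3 ≤ k → ∀ᵐ c : Fin k → ℝ,
      EveryLarge (fun x => (x : ℝ) ^ k + ∑ m : Fin k, c m * (x : ℝ) ^ (m : ℕ)) (4 * k)) := by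
  have main : ∀ k j q : ℕ, 1 ≤ j → j < k → 2 * (k : ℝ) * (1 - 1 / (k : ℝ)) ^ q < j →
      ∀ g : ℕ → ℝ, Tendsto (fun x : ℕ => (g (x + 1) - g x) / (x : ℝ) ^ (k - 1)) atTop (𝓝 0) →
        ∀ᵐ t : ℝ, EveryLarge (fun x => (x : ℝ) ^ k + g x + t * (x : ℝ) ^ j) (4 * q) := by
    intro k j q hj hjk hq g hg
    filter_upwards [MWg.poly_main hj hjk hq hg] with t ht
    exact everyLarge_of ht
  have main2 : ∀ k : ℕ, 3 ≤ k →
      ∀ g : ℕ → ℝ, Tendsto (fun x : ℕ => (g (x + 1) - g x) / (x : ℝ) ^ (k - 1)) atTop (𝓝 0) →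
        ∀ᵐ t : ℝ, EveryLarge (fun x => (x : ℝ) ^ k + g x + t * (x : ℝ) ^ (k - 1)) (4 * k) :=
    fun k hk g hg => main k (k - 1) k (by omega) (by omega) (MWg.num_p hk) g hg
  refine ⟨main, main2, fun k hk => ?_⟩
  obtain ⟨n, rfl⟩ : ∃ n, k = n + 1 := ⟨k - 1, by omega⟩
  have H : ∀ c : Fin n → ℝ, ∀ᵐ t : ℝ,
      MWg.ApxProp (n + 1) (4 * (n + 1)) (Fin.snoc (α := fun _ => ℝ) c t) := by
    intro c
    have hg := MWg.poly_incr n c
    filter_upwards [main2 (n + 1) hk (fun x => ∑ m : Fin n, c m * (x : ℝ) ^ (m : ℕ))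
      (by simpa using hg)] with t ht
    intro ε hε
    obtain ⟨Y, hY⟩ := ht.1 ε hε
    refine ⟨Y, fun y hy => ?_⟩
    obtain ⟨x, hx, hlt⟩ := hY y hy
    refine ⟨x, hx, ?_⟩
    convert hlt using 4 with i
    rw [Fin.sum_univ_castSucc]
    simp
    ring
  filter_upwards [MWg.ae_apx n (4 * (n + 1)) H] with c hc
  exact everyLarge_of hc

end MWgRes.MetricPolynomials
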